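import Mathlib

/-!
Spectral projections of an element of finite order in a complex algebra, and
diagonalisation of complex matrices of finite order.
-/

namespace Pool.Agent.Helper78.Proj

open Finset

variable {𝒜 : Type*} [Ring 𝒜] [Algebra ℂ 𝒜]

/-- average over the powers -/
noncomputable def avg (m : ℕ) (A : 𝒜) : 𝒜 := (m : ℂ)⁻¹ • ∑ k ∈ range m, A ^ k

lemma mul_avg {m : ℕ} {A : 𝒜} (hA : A ^ m = 1) : A * avg m A = avg m A := by
  rw [avg, mul_smul_comm, Finset.mul_sum]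
  congr 1
  have h1 := Finset.sum_range_succ (fun k => A ^ k) m
  have h2 := Finset.sum_range_succ' (fun k => A ^ k) m
  rw [h1, hA, pow_zero] at h2
  have h3 := add_right_cancel h2
  rw [h3]
  exact Finset.sum_congr rfl fun k _ => (pow_succ' A k).symm

lemma pow_mul_avg {m : ℕ} {A : 𝒜} (hA : A ^ m = 1) (k : ℕ) : A ^ k * avg m A = avg m A := by
  induction k with
  | zero => rw [pow_zero, one_mul]
  | succ k ih => rw [pow_succ, mul_assoc, mul_avg hA, ih]

lemma avg_mul_avg {m : ℕ} (hm : 0 < m) {A : 𝒜} (hA : A ^ m = 1) :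
    avg m A * avg m A = avg m A := by
  conv_lhs => enter [1]; rw [avg]
  rw [smul_mul_assoc, Finset.sum_mul]
  simp only [pow_mul_avg hA]
  rw [Finset.sum_const, card_range, ← Nat.cast_smul_eq_nsmul ℂ, smul_smul, inv_mul_cancel₀,
    one_smul]
  exact_mod_cast hm.ne'

/-- The spectral projection of `A` (with `A ^ m = 1`) to the eigenvalue `ω ^ i`. -/
noncomputable def P (m : ℕ) (ω : ℂ) (A : 𝒜) (i : ℕ) : 𝒜 := avg m ((ω⁻¹ ^ i) • A)

lemma smul_pow_eq {m : ℕ} {ω : ℂ} (hω : ω ^ m = 1) {A : 𝒜} (hA : A ^ m = 1) (i : ℕ) :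
    ((ω⁻¹ ^ i) • A) ^ m = 1 := by
  rw [smul_pow, hA, ← pow_mul, mul_comm i m, pow_mul, inv_pow, hω, inv_one, one_pow, one_smul]

lemma mul_P {m : ℕ} (hm : 0 < m) {ω : ℂ} (hω : ω ^ m = 1) {A : 𝒜} (hA : A ^ m = 1) (i : ℕ) :
    A * P m ω A i = ω ^ i • P m ω A i := by
  have hω0 : ω ≠ 0 := by
    rintro rfl
    rw [zero_pow hm.ne'] at hω
    exact zero_ne_one hω
  have h := mul_avg (smul_pow_eq hω hA i)
  rw [smul_mul_assoc] at h
  change ω⁻¹ ^ i • (A * P m ω A i) = P m ω A i at h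
  calc A * P m ω A i = ω ^ i • (ω⁻¹ ^ i • (A * P m ω A i)) := by
        rw [smul_smul, ← mul_pow, mul_inv_cancel₀ hω0, one_pow, one_smul]
    _ = _ := by rw [h]

lemma P_mul_P {m : ℕ} (hm : 0 < m) {ω : ℂ} (hω : ω ^ m = 1) {A : 𝒜} (hA : A ^ m = 1) (i : ℕ) :
    P m ω A i * P m ω A i = P m ω A i := avg_mul_avg hm (smul_pow_eq hω hA i)

lemma sum_P {m : ℕ} (hm : 0 < m) {ω : ℂ} (hω : IsPrimitiveRoot ω m) (A : 𝒜) :
    ∑ i ∈ range m, P m ω A i = 1 := by
  have hω0 : ω ≠ 0 := hω.ne_zero hm.ne'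
  simp only [P, avg]
  rw [← Finset.smul_sum, Finset.sum_comm]
  have h1 : ∀ k ∈ range m, ∑ i ∈ range m, ((ω⁻¹ ^ i) • A) ^ k
      = if k = 0 then (m : ℂ) • (1 : 𝒜) else 0 := by
    intro k hk
    rw [mem_range] at hk
    have h2 : ∀ i ∈ range m, ((ω⁻¹ ^ i) • A) ^ k = ((ω⁻¹ ^ k) ^ i) • A ^ k := by
      intro i _
      rw [smul_pow, ← pow_mul, ← pow_mul, mul_comm]
    rw [Finset.sum_congr rfl h2, ← Finset.sum_smul]
    split_ifs with h0
    · subst h0
      simp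
    · have h3 : ω⁻¹ ^ k ≠ 1 := by
        intro h
        rw [inv_pow, inv_eq_one] at h
        exact hω.pow_ne_one_of_pos_of_lt h0 hk h
      have h4 : (ω⁻¹ ^ k) ^ m = 1 := by
        rw [← pow_mul, mul_comm, pow_mul, inv_pow, hω.pow_eq_one, inv_one, one_pow]
      rw [geom_sum_eq h3, h4, sub_self, zero_div, zero_smul]
  rw [Finset.sum_congr rfl h1, Finset.sum_ite_eq' (range m) 0, if_pos (mem_range.mpr hm),
    smul_smul, inv_mul_cancel₀ (by exact_mod_cast hm.ne'), one_smul]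

/-- Matrices of finite order over `ℂ` are diagonalisable. -/
theorem exists_diag {N : ℕ} (A : Matrix (Fin N) (Fin N) ℂ) {m : ℕ} (hm : 0 < m)
    (hA : A ^ m = 1) : ∃ (U : Matrix (Fin N) (Fin N) ℂ) (d : Fin N → ℂ), IsUnit U ∧
      A * U = U * Matrix.diagonal d := by
  classical
  have hω : IsPrimitiveRoot (Complex.exp (2 * Real.pi * Complex.I / m)) m :=
    Complex.isPrimitiveRoot_exp m hm.ne'
  set ω := Complex.exp (2 * Real.pi * Complex.I / m)
  let E : Set (Fin N → ℂ) := {v | ∃ μ : ℂ, A.mulVec v = μ • v}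
  have hE : Submodule.span ℂ E = ⊤ := by
    rw [eq_top_iff]
    intro v _
    have h1 : v = ∑ i ∈ range m, (P m ω A i).mulVec v := by
      rw [← Matrix.sum_mulVec, sum_P hm hω, Matrix.one_mulVec]
    rw [h1]
    refine Submodule.sum_mem _ fun i _ => Submodule.subset_span ⟨ω ^ i, ?_⟩
    rw [Matrix.mulVec_mulVec, mul_P hm hω.pow_eq_one hA, Matrix.smul_mulVec]
  obtain ⟨b, hbE, hspan, hli⟩ := exists_linearIndependent ℂ E
  rw [hE] at hspan
  let B : Module.Basis b ℂ (Fin N → ℂ) := Module.Basis.mk hli (by simp [hspan])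
  let e : b ≃ Fin N := B.indexEquiv (Pi.basisFun ℂ (Fin N))
  let B' := B.reindex e
  have hB' : ∀ j, ∃ μ : ℂ, A.mulVec (B' j) = μ • B' j := by
    intro j
    have : B' j = ((e.symm j : b) : Fin N → ℂ) := by
      simp [B', B]
    rw [this]
    exact hbE (e.symm j).2
  choose d hd using hB'
  refine ⟨(Pi.basisFun ℂ (Fin N)).toMatrix B', d, ?_, ?_⟩
  · exact isUnit_iff_exists.mpr ⟨B'.toMatrix (Pi.basisFun ℂ (Fin N)), by
      rw [Module.Basis.toMatrix_mul_toMatrix_flip], by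
      rw [Module.Basis.toMatrix_mul_toMatrix_flip]⟩
  · ext i j
    rw [Matrix.mul_diagonal]
    have h1 := congrFun (hd j) i
    simp only [Pi.smul_apply, smul_eq_mul] at h1
    rw [Matrix.mul_apply]
    simp only [Module.Basis.toMatrix_apply, Pi.basisFun_repr]
    rw [mul_comm (B' j i), ← h1]
    rfl

end Pool.Agent.Helper78.Proj
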