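import Mathlib
import Pool.Agent.Helper78.Proj

/-!
Orthogonal intertwiners: polar decomposition, real intertwiners from complex ones, and
conjugacy in the orthogonal group of orthogonal matrices of finite order with the same
characteristic polynomial.
-/

namespace Pool.Agent.Helper78.Polar

open Matrix Finset
open scoped MatrixOrder

/-- Polar decomposition: an invertible real matrix can be replaced by an orthogonal one in all
intertwining relations between orthogonal matrices. -/
theorem exists_orthogonal {N : ℕ} (X : Matrix (Fin N) (Fin N) ℝ) (hX : IsUnit X) :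
    ∃ Q ∈ Matrix.orthogonalGroup (Fin N) ℝ, ∀ a ∈ Matrix.orthogonalGroup (Fin N) ℝ,
      ∀ b ∈ Matrix.orthogonalGroup (Fin N) ℝ, X * a = b * X → Q * a = b * Q := by
  set S : Matrix (Fin N) (Fin N) ℝ := star X * X with hS
  have hS0 : 0 ≤ S := star_mul_self_nonneg X
  set P := CFC.sqrt S with hP
  have hPP : P * P = S := CFC.sqrt_mul_sqrt_self S hS0
  have hPsa : star P = P := (CFC.sqrt_nonneg S).isSelfAdjoint.star_eq
  have hSu : IsUnit S := (hX.star).mul hX
  have hPu : IsUnit P := by
    rw [← hPP] at hSu
    exact isUnit_of_mul_isUnit_left hSu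
  obtain ⟨p, hp⟩ := hPu
  set R : Matrix (Fin N) (Fin N) ℝ := p⁻¹.val with hR
  have hPR : P * R = 1 := by rw [← hp]; exact p.mul_inv
  have hRP : R * P = 1 := by rw [← hp]; exact p.inv_mul
  have hRsa : star R = R := by
    have h1 : star R * P = 1 := by
      rw [← hPsa, ← star_mul, hPR, star_one]
    calc star R = star R * (P * R) := by rw [hPR, mul_one]
      _ = (star R * P) * R := by rw [mul_assoc]
      _ = R := by rw [h1, one_mul]
  refine ⟨X * R, ?_, ?_⟩
  · rw [Matrix.mem_orthogonalGroup_iff']
    change star (X * R) * (X * R) = 1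
    rw [star_mul, hRsa]
    calc R * star X * (X * R) = R * (star X * X) * R := by simp only [mul_assoc]
      _ = R * (P * P) * R := by rw [← hS, ← hPP]
      _ = (R * P) * (P * R) := by simp only [mul_assoc]
      _ = 1 := by rw [hRP, hPR, one_mul]
  · intro a ha b hb hab
    have ha1 : a * star a = 1 := (Matrix.mem_orthogonalGroup_iff _ _).mp ha
    have hb2 : star b * b = 1 := (Matrix.mem_orthogonalGroup_iff' _ _).mp hb
    -- `a` commutes with `S`
    have hstar : star X * b = a * star X := by
      have h1 : star a * star X = star X * star b := by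
        rw [← star_mul, ← star_mul, hab]
      calc star X * b = (a * star a) * (star X * b) := by rw [ha1, one_mul]
        _ = a * (star a * star X) * b := by simp only [mul_assoc]
        _ = a * (star X * star b) * b := by rw [h1]
        _ = a * star X * (star b * b) := by simp only [mul_assoc]
        _ = a * star X := by rw [hb2, mul_one]
    have hSa : Commute S a := by
      change S * a = a * S
      rw [hS, mul_assoc, hab, ← mul_assoc, hstar, mul_assoc]
    have hPa : Commute P a := by
      rw [hP]
      exact hSa.cfcₙ_nnreal _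
    have hRa : R * a = a * R := by
      calc R * a = R * a * (P * R) := by rw [hPR, mul_one]
        _ = R * (a * P) * R := by simp only [mul_assoc]
        _ = R * (P * a) * R := by rw [hPa.eq]
        _ = (R * P) * a * R := by simp only [mul_assoc]
        _ = a * R := by rw [hRP, one_mul]
    rw [mul_assoc, hRa, ← mul_assoc, hab, mul_assoc]

lemma exists_real_intertwiner {N : ℕ} (g g' : Matrix (Fin N) (Fin N) ℝ)
    (U : Matrix (Fin N) (Fin N) ℂ) (hU : IsUnit U)
    (h : U * g.map Complex.ofReal = g'.map Complex.ofReal * U) :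
    ∃ X : Matrix (Fin N) (Fin N) ℝ, IsUnit X ∧ X * g = g' * X := by
  classical
  let A : Matrix (Fin N) (Fin N) ℝ := U.map Complex.re
  let B : Matrix (Fin N) (Fin N) ℝ := U.map Complex.im
  have hA : A * g = g' * A := by
    ext i j
    have h1 := congrArg Complex.re (congrFun (congrFun h i) j)
    simp only [Matrix.mul_apply, Complex.re_sum, Matrix.map_apply] at h1
    simp only [Matrix.mul_apply, A, Matrix.map_apply]
    simpa using h1
  have hB : B * g = g' * B := by
    ext i j
    have h1 := congrArg Complex.im (congrFun (congrFun h i) j)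
    simp only [Matrix.mul_apply, Complex.im_sum, Matrix.map_apply] at h1
    simp only [Matrix.mul_apply, B, Matrix.map_apply]
    simpa using h1
  let p : Polynomial ℝ :=
    (A.map (Polynomial.C : ℝ →+* Polynomial ℝ) + (Polynomial.X : Polynomial ℝ) •
      B.map (Polynomial.C : ℝ →+* Polynomial ℝ)).det
  have hp : p ≠ 0 := by
    intro h0
    have h1 : Polynomial.eval₂ (algebraMap ℝ ℂ) Complex.I p = U.det := by
      have : (Polynomial.eval₂RingHom (algebraMap ℝ ℂ) Complex.I) p = U.det := by
        rw [RingHom.map_det]
        congr 1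
        ext i j
        have h2 : (Polynomial.eval₂RingHom (algebraMap ℝ ℂ) Complex.I)
            (Polynomial.C (A i j) + Polynomial.X * Polynomial.C (B i j)) = U i j := by
          simp only [map_add, map_mul, Polynomial.coe_eval₂RingHom, Polynomial.eval₂_C,
            Polynomial.eval₂_X]
          rw [mul_comm Complex.I]
          exact Complex.re_add_im (U i j)
        exact h2
      exact this
    rw [h0, Polynomial.eval₂_zero] at h1
    exact ((Matrix.isUnit_iff_isUnit_det U).mp hU).ne_zero h1.symm
  obtain ⟨t, ht⟩ : ∃ t : ℝ, Polynomial.eval t p ≠ 0 := by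
    by_contra hcon
    push Not at hcon
    exact hp (Polynomial.funext fun t => by rw [hcon t, Polynomial.eval_zero])
  refine ⟨A + t • B, ?_, ?_⟩
  · rw [Matrix.isUnit_iff_isUnit_det, isUnit_iff_ne_zero]
    have h1 : (Polynomial.evalRingHom t) p = (A + t • B).det := by
      rw [RingHom.map_det]
      congr 1
      ext i j
      have h2 : (Polynomial.evalRingHom t)
          (Polynomial.C (A i j) + Polynomial.X * Polynomial.C (B i j)) = A i j + t * B i j := by
        simp only [map_add, map_mul, Polynomial.coe_evalRingHom, Polynomial.eval_C,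
          Polynomial.eval_X]
      exact h2
    rw [← h1]
    exact ht
  · rw [add_mul, mul_add, hA, smul_mul_assoc, mul_smul_comm, hB]

lemma exists_perm_of_map_eq {n : ℕ} {d d' : Fin n → ℂ}
    (h : (univ : Finset (Fin n)).val.map d = (univ : Finset (Fin n)).val.map d') :
    ∃ σ : Equiv.Perm (Fin n), ∀ i, d' (σ i) = d i := by
  classical
  have hcard : ∀ x : ℂ, Fintype.card {i // d i = x} = Fintype.card {i // d' i = x} := by
    intro x
    have h1 := congrArg (Multiset.count x) h
    rw [Multiset.count_map, Multiset.count_map] at h1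
    rw [Fintype.card_subtype, Fintype.card_subtype]
    have h2 : ∀ f : Fin n → ℂ, Multiset.card (Multiset.filter (fun a => x = f a) univ.val)
        = (univ.filter fun i => f i = x).card := by
      intro f
      rw [Finset.card, Finset.filter_val]
      congr 2
      funext a
      exact propext eq_comm
    rw [h2, h2] at h1
    exact h1
  let e : ∀ x : ℂ, {i // d i = x} ≃ {i // d' i = x} := fun x => Fintype.equivOfCardEq (hcard x)
  refine ⟨(Equiv.sigmaFiberEquiv d).symm.trans
    ((Equiv.sigmaCongrRight e).trans (Equiv.sigmaFiberEquiv d')), fun i => ?_⟩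
  simp only [Equiv.trans_apply]
  exact (e (d i) ⟨i, rfl⟩).2

/-- Orthogonal matrices of finite order with the same characteristic polynomial are conjugate in
the orthogonal group. -/
theorem conj_of_charpoly_eq {N : ℕ} (g g' : Matrix (Fin N) (Fin N) ℝ)
    (hg : g ∈ Matrix.orthogonalGroup (Fin N) ℝ) (hg' : g' ∈ Matrix.orthogonalGroup (Fin N) ℝ)
    {m : ℕ} (hm : 0 < m) (hgm : g ^ m = 1) (hgm' : g' ^ m = 1)
    (hchar : (g.map Complex.ofReal).charpoly = (g'.map Complex.ofReal).charpoly) :
    ∃ Q ∈ Matrix.orthogonalGroup (Fin N) ℝ, Q * g = g' * Q := by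
  classical
  have hmap : ∀ A : Matrix (Fin N) (Fin N) ℝ, A ^ m = 1 →
      (A.map Complex.ofReal) ^ m = 1 := by
    intro A hA
    have h1 : A.map Complex.ofReal = (Complex.ofRealHom.mapMatrix : _ →+* _) A := rfl
    rw [h1, ← map_pow, hA, map_one]
  obtain ⟨U, d, hU, hUd⟩ := Proj.exists_diag (g.map Complex.ofReal) hm (hmap g hgm)
  obtain ⟨U', d', hU', hUd'⟩ := Proj.exists_diag (g'.map Complex.ofReal) hm (hmap g' hgm')
  obtain ⟨u, rfl⟩ := hU
  obtain ⟨u', rfl⟩ := hU'
  have hgd : g.map Complex.ofReal = u.val * diagonal d * u⁻¹.val := by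
    rw [← hUd, mul_assoc, Units.mul_inv, mul_one]
  have hgd' : g'.map Complex.ofReal = u'.val * diagonal d' * u'⁻¹.val := by
    rw [← hUd', mul_assoc, Units.mul_inv, mul_one]
  have hroots : (univ : Finset (Fin N)).val.map d = (univ : Finset (Fin N)).val.map d' := by
    rw [hgd, hgd', Matrix.coe_units_inv, Matrix.coe_units_inv, Matrix.charpoly_units_conj,
      Matrix.charpoly_units_conj, Matrix.charpoly_diagonal, Matrix.charpoly_diagonal] at hchar
    have h1 := congrArg Polynomial.roots hchar
    have h2 : ∀ f : Fin N → ℂ, (∏ i, (Polynomial.X - Polynomial.C (f i))).roots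
        = (univ : Finset (Fin N)).val.map f := by
      intro f
      have h3 : ∏ i, (Polynomial.X - Polynomial.C (f i))
          = (((univ : Finset (Fin N)).val.map f).map fun a =>
            Polynomial.X - Polynomial.C a).prod := by
        rw [Multiset.map_map]; rfl
      rw [h3, Polynomial.roots_multiset_prod_X_sub_C]
    rw [h2, h2] at h1
    exact h1
  obtain ⟨σ, hσ⟩ := exists_perm_of_map_eq hroots
  -- permutation matrix
  let Pm : Matrix (Fin N) (Fin N) ℂ := Matrix.of fun i j => if i = σ j then 1 else 0
  have hPm : Pm * diagonal d = diagonal d' * Pm := by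
    ext i j
    rw [Matrix.mul_diagonal, Matrix.diagonal_mul]
    simp only [Pm, Matrix.of_apply]
    split_ifs with h
    · rw [h, hσ j]; ring
    · ring
  have hPmu : IsUnit Pm := by
    refine isUnit_iff_exists.mpr ⟨Matrix.of fun i j => if σ i = j then 1 else 0, ?_, ?_⟩
    · ext i j
      rw [Matrix.mul_apply]
      simp only [Pm, Matrix.of_apply]
      rw [Finset.sum_eq_single (σ.symm i)]
      · simp [Matrix.one_apply]
      · intro b _ hb
        have : i ≠ σ b := fun h => hb (by rw [h]; simp)
        simp [this]
      · simp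
    · ext i j
      rw [Matrix.mul_apply]
      simp only [Pm, Matrix.of_apply]
      rw [Finset.sum_eq_single (σ i)]
      · simp [Matrix.one_apply, σ.injective.eq_iff]
      · intro b _ hb
        simp [hb.symm]
      · simp
  obtain ⟨X, hX, hXg⟩ := exists_real_intertwiner g g' (u'.val * Pm * u⁻¹.val)
    ((u'.isUnit.mul hPmu).mul (u⁻¹).isUnit) (by
      rw [hgd, hgd']
      calc u'.val * Pm * u⁻¹.val * (u.val * diagonal d * u⁻¹.val)
          = u'.val * Pm * (u⁻¹.val * u.val) * diagonal d * u⁻¹.val := by simp only [mul_assoc]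
        _ = u'.val * (Pm * diagonal d) * u⁻¹.val := by
            rw [Units.inv_mul, mul_one]; simp only [mul_assoc]
        _ = u'.val * (diagonal d' * Pm) * u⁻¹.val := by rw [hPm]
        _ = u'.val * diagonal d' * (u'⁻¹.val * u'.val) * Pm * u⁻¹.val := by
            rw [Units.inv_mul, mul_one]; simp only [mul_assoc]
        _ = _ := by simp only [mul_assoc])
  obtain ⟨Q, hQ, hQ2⟩ := exists_orthogonal X hX
  exact ⟨Q, hQ, hQ2 g hg g' hg' hXg⟩

end Pool.Agent.Helper78.Polar
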