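import Mathlib
import Pool.Agent.Helper78.Proj
import Pool.Agent.Helper78.Polar

/-!
Eigenvalues of real orthogonal matrices in finite groups acting freely on the sphere.
-/

namespace Pool.Agent.Helper78.Eigen

open Matrix Finset

/-- the real orthogonal group -/
abbrev Og (N : ℕ) := Matrix.orthogonalGroup (Fin N) ℝ

/-- the complexification of orthogonal matrices -/
noncomputable def toC (N : ℕ) : Og N →* Matrix (Fin N) (Fin N) ℂ :=
  ((Complex.ofRealHom.mapMatrix : Matrix (Fin N) (Fin N) ℝ →+* Matrix (Fin N) (Fin N) ℂ) :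
    Matrix (Fin N) (Fin N) ℝ →* Matrix (Fin N) (Fin N) ℂ).comp
    (Matrix.orthogonalGroup (Fin N) ℝ).subtype

lemma toC_eq {N : ℕ} (g : Og N) : toC N g = (g : Matrix (Fin N) (Fin N) ℝ).map Complex.ofReal :=
  rfl

lemma toC_injective (N : ℕ) : Function.Injective (toC N) := by
  intro g h hgh
  apply Subtype.ext
  ext i j
  have := congrFun (congrFun hgh i) j
  rw [toC_eq, toC_eq, Matrix.map_apply, Matrix.map_apply] at this
  exact Complex.ofReal_injective this

lemma toC_star_mul {N : ℕ} (g : Og N) : star (toC N g) * toC N g = 1 := by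
  have h1 : (g : Matrix (Fin N) (Fin N) ℝ)ᵀ * (g : Matrix (Fin N) (Fin N) ℝ) = 1 :=
    (Matrix.mem_orthogonalGroup_iff' _ _).mp g.2
  have h2 : star (toC N g) = (Complex.ofRealHom.mapMatrix) (g : Matrix (Fin N) (Fin N) ℝ)ᵀ := by
    ext i j
    rw [toC_eq]
    simp [Matrix.star_apply]
  rw [h2]
  have h3 : toC N g = (Complex.ofRealHom.mapMatrix) (g : Matrix (Fin N) (Fin N) ℝ) := rfl
  rw [h3, ← map_mul, h1, map_one]

/-- no nontrivial element has a nonzero fixed vector -/
def Free {N : ℕ} (Γ : Subgroup (Og N)) : Prop :=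
  ∀ g ∈ Γ, g ≠ 1 → ∀ v : Fin N → ℝ, (g : Matrix (Fin N) (Fin N) ℝ).mulVec v = v → v = 0

lemma fixed_real {N : ℕ} (g : Og N) (w : Fin N → ℂ) (hw : w ≠ 0)
    (h : (toC N g).mulVec w = w) :
    ∃ v : Fin N → ℝ, v ≠ 0 ∧ (g : Matrix (Fin N) (Fin N) ℝ).mulVec v = v := by
  have hre : (g : Matrix (Fin N) (Fin N) ℝ).mulVec (fun i => (w i).re) = fun i => (w i).re := by
    funext i
    have h1 := congrArg Complex.re (congrFun h i)
    rw [toC_eq] at h1
    simp only [Matrix.mulVec, dotProduct, Matrix.map_apply, Complex.re_sum,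
      Complex.re_ofReal_mul] at h1 ⊢
    exact h1
  have him : (g : Matrix (Fin N) (Fin N) ℝ).mulVec (fun i => (w i).im) = fun i => (w i).im := by
    funext i
    have h1 := congrArg Complex.im (congrFun h i)
    rw [toC_eq] at h1
    simp only [Matrix.mulVec, dotProduct, Matrix.map_apply, Complex.im_sum,
      Complex.im_ofReal_mul] at h1 ⊢
    exact h1
  by_cases h0 : (fun i => (w i).re) = 0
  · refine ⟨_, ?_, him⟩
    intro h1
    apply hw
    funext i
    apply Complex.ext
    · exact congrFun h0 i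
    · exact congrFun h1 i
  · exact ⟨_, h0, hre⟩

lemma exists_diag' {N : ℕ} (g : Og N) (hg : IsOfFinOrder g) :
    ∃ (U : Matrix (Fin N) (Fin N) ℂ) (d : Fin N → ℂ), IsUnit U ∧
      toC N g * U = U * Matrix.diagonal d := by
  refine Proj.exists_diag (toC N g) (m := orderOf g) hg.orderOf_pos ?_
  rw [← map_pow, pow_orderOf_eq_one, map_one]

lemma diag_pow {N : ℕ} {A U : Matrix (Fin N) (Fin N) ℂ} {d : Fin N → ℂ}
    (h : A * U = U * Matrix.diagonal d) (k : ℕ) :
    A ^ k * U = U * Matrix.diagonal (fun i => d i ^ k) := by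
  induction k with
  | zero => simp
  | succ k ih =>
    rw [pow_succ, mul_assoc, h, ← mul_assoc, ih, mul_assoc, Matrix.diagonal_mul_diagonal]
    simp [pow_succ]

/-- multiset of eigenvalues -/
noncomputable def ev {N : ℕ} (g : Og N) : Multiset ℂ := (toC N g).charpoly.roots

lemma charpoly_of_diag {N : ℕ} {A U : Matrix (Fin N) (Fin N) ℂ} {d : Fin N → ℂ} (hU : IsUnit U)
    (h : A * U = U * Matrix.diagonal d) :
    A.charpoly = ∏ i, (Polynomial.X - Polynomial.C (d i)) := by
  obtain ⟨u, rfl⟩ := hU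
  have h1 : A = u.val * diagonal d * u⁻¹.val := by
    rw [← h, mul_assoc, Units.mul_inv, mul_one]
  rw [h1, Matrix.coe_units_inv, Matrix.charpoly_units_conj, Matrix.charpoly_diagonal]

lemma roots_of_diag {N : ℕ} {A U : Matrix (Fin N) (Fin N) ℂ} {d : Fin N → ℂ} (hU : IsUnit U)
    (h : A * U = U * Matrix.diagonal d) :
    A.charpoly.roots = (univ : Finset (Fin N)).val.map d := by
  rw [charpoly_of_diag hU h]
  have h3 : ∏ i, (Polynomial.X - Polynomial.C (d i))
      = (((univ : Finset (Fin N)).val.map d).map fun a =>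
        Polynomial.X - Polynomial.C a).prod := by
    rw [Multiset.map_map]; rfl
  rw [h3, Polynomial.roots_multiset_prod_X_sub_C]

lemma ev_of_diag {N : ℕ} {g : Og N} {U : Matrix (Fin N) (Fin N) ℂ} {d : Fin N → ℂ}
    (hU : IsUnit U) (h : toC N g * U = U * Matrix.diagonal d) :
    ev g = (univ : Finset (Fin N)).val.map d := roots_of_diag hU h

lemma card_ev {N : ℕ} {g : Og N} (hg : IsOfFinOrder g) : Multiset.card (ev g) = N := by
  obtain ⟨U, d, hU, h⟩ := exists_diag' g hg
  rw [ev_of_diag hU h]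
  simp

lemma charpoly_eq_of_ev {N : ℕ} {g g' : Og N} (hg : IsOfFinOrder g) (hg' : IsOfFinOrder g')
    (h : ev g = ev g') : (toC N g).charpoly = (toC N g').charpoly := by
  have key : ∀ x : Og N, IsOfFinOrder x →
      (toC N x).charpoly = ((ev x).map fun a => Polynomial.X - Polynomial.C a).prod := by
    intro x hx
    obtain ⟨U, d, hU, h⟩ := exists_diag' x hx
    rw [ev_of_diag hU h, charpoly_of_diag hU h, Multiset.map_map]
    rfl
  rw [key g hg, key g' hg', h]

/-- elements of finite order with the same eigenvalues are conjugate in the orthogonal group -/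
theorem conj_of_ev_eq {N : ℕ} {g g' : Og N} (hg : IsOfFinOrder g) (hg' : IsOfFinOrder g')
    (h : ev g = ev g') : ∃ Q : Og N, Q * g * Q⁻¹ = g' := by
  obtain ⟨Q, hQ, hQ2⟩ := Polar.conj_of_charpoly_eq (g : Matrix (Fin N) (Fin N) ℝ)
    (g' : Matrix (Fin N) (Fin N) ℝ) g.2 g'.2 (m := orderOf g * orderOf g')
    (Nat.mul_pos hg.orderOf_pos hg'.orderOf_pos) (by
      have : g ^ (orderOf g * orderOf g') = 1 := by
        rw [pow_mul, pow_orderOf_eq_one, one_pow]
      have := congrArg (Subtype.val) this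
      simpa using this) (by
      have : g' ^ (orderOf g * orderOf g') = 1 := by
        rw [mul_comm, pow_mul, pow_orderOf_eq_one, one_pow]
      have := congrArg (Subtype.val) this
      simpa using this) (charpoly_eq_of_ev hg hg' h)
  refine ⟨⟨Q, hQ⟩, ?_⟩
  rw [mul_inv_eq_iff_eq_mul]
  exact Subtype.ext hQ2

lemma ev_conj {N : ℕ} (g Q : Og N) : ev (Q * g * Q⁻¹) = ev g := by
  unfold ev
  congr 1
  rw [map_mul, map_mul]
  let u : (Matrix (Fin N) (Fin N) ℂ)ˣ := ⟨toC N Q, toC N Q⁻¹, by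
    rw [← map_mul, mul_inv_cancel, map_one], by rw [← map_mul, inv_mul_cancel, map_one]⟩
  have h1 : toC N Q⁻¹ = u⁻¹.val := rfl
  have h2 : toC N Q = u.val := rfl
  rw [h1, h2, Matrix.coe_units_inv, Matrix.charpoly_units_conj]

lemma ev_pow {N : ℕ} {g : Og N} (hg : IsOfFinOrder g) (k : ℕ) :
    ev (g ^ k) = (ev g).map (fun z => z ^ k) := by
  obtain ⟨U, d, hU, h⟩ := exists_diag' g hg
  have h2 : toC N (g ^ k) * U = U * Matrix.diagonal (fun i => d i ^ k) := by
    rw [map_pow]; exact diag_pow h k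
  rw [ev_of_diag hU h, ev_of_diag hU h2, Multiset.map_map]
  rfl

lemma isPrimitiveRoot_diag {N : ℕ} {g : Og N}
    (hfree : ∀ k : ℕ, g ^ k ≠ 1 → ∀ v : Fin N → ℝ,
      ((g ^ k : Og N) : Matrix (Fin N) (Fin N) ℝ).mulVec v = v → v = 0)
    {U : Matrix (Fin N) (Fin N) ℂ} {d : Fin N → ℂ}
    (hU : IsUnit U) (h : toC N g * U = U * Matrix.diagonal d) (i : Fin N) :
    IsPrimitiveRoot (d i) (orderOf g) := by
  have hpow := diag_pow h
  refine ⟨?_, ?_⟩
  · have h1 := hpow (orderOf g)
    rw [← map_pow, pow_orderOf_eq_one, map_one, one_mul] at h1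
    obtain ⟨u, rfl⟩ := hU
    have h2 : (1 : Matrix (Fin N) (Fin N) ℂ) = Matrix.diagonal (fun i => d i ^ orderOf g) := by
      apply u.mul_right_inj.mp
      rw [mul_one]
      exact h1
    have h3 := congrFun (congrFun h2 i) i
    rw [Matrix.one_apply_eq, Matrix.diagonal_apply_eq] at h3
    exact h3.symm
  · intro l hl
    by_contra hnd
    have hne : g ^ l ≠ 1 := fun h0 => hnd (orderOf_dvd_of_pow_eq_one h0)
    have hw0 : U.mulVec (Pi.single i 1) ≠ 0 := by
      intro h0
      have hinj : Function.Injective U.mulVec := Matrix.mulVec_injective_of_isUnit hU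
      have h1 : (Pi.single i 1 : Fin N → ℂ) = 0 := hinj (by rw [h0, Matrix.mulVec_zero])
      have h2 := congrFun h1 i
      simp at h2
    have hfix : (toC N (g ^ l)).mulVec (U.mulVec (Pi.single i 1)) = U.mulVec (Pi.single i 1) := by
      rw [Matrix.mulVec_mulVec, map_pow, hpow l, ← Matrix.mulVec_mulVec]
      congr 1
      funext j
      rw [Matrix.mulVec_diagonal]
      by_cases hj : j = i
      · subst hj; simp [hl]
      · simp [Pi.single_eq_of_ne hj]
    obtain ⟨v, hv0, hv⟩ := fixed_real (g ^ l) _ hw0 hfix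
    exact hv0 (hfree l hne v hv)

lemma isPrimitiveRoot_of_mem_ev {N : ℕ} {Γ : Subgroup (Og N)} (hΓ : Free Γ) {g : Og N}
    (hgΓ : g ∈ Γ) (hg : IsOfFinOrder g) {z : ℂ} (hz : z ∈ ev g) :
    IsPrimitiveRoot z (orderOf g) := by
  obtain ⟨U, d, hU, h⟩ := exists_diag' g hg
  rw [ev_of_diag hU h, Multiset.mem_map] at hz
  obtain ⟨i, _, rfl⟩ := hz
  exact isPrimitiveRoot_diag (fun k hk v hv => hΓ (g ^ k) (pow_mem hgΓ k) hk v hv) hU h i

lemma map_conj_ev {N : ℕ} {g : Og N} (hg : IsOfFinOrder g) :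
    (ev g).map (starRingEnd ℂ) = ev g := by
  obtain ⟨U, d, hU, h⟩ := exists_diag' g hg
  have h2 : toC N g * U.map (starRingEnd ℂ)
      = U.map (starRingEnd ℂ) * Matrix.diagonal (fun i => (starRingEnd ℂ) (d i)) := by
    have h3 := congrArg (fun A : Matrix (Fin N) (Fin N) ℂ => A.map (starRingEnd ℂ)) h
    simp only [Matrix.map_mul] at h3
    have h4 : (toC N g).map (starRingEnd ℂ) = toC N g := by
      ext i j
      rw [toC_eq]
      simp
    rw [h4, Matrix.diagonal_map (map_zero _)] at h3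
    exact h3
  have hU2 : IsUnit (U.map (starRingEnd ℂ)) := hU.map ((starRingEnd ℂ).mapMatrix)
  calc (ev g).map (starRingEnd ℂ)
      = ((univ : Finset (Fin N)).val.map d).map (starRingEnd ℂ) := by rw [ev_of_diag hU h]
    _ = (univ : Finset (Fin N)).val.map (fun i => (starRingEnd ℂ) (d i)) := by
        rw [Multiset.map_map]; rfl
    _ = ev g := (ev_of_diag hU2 h2).symm

end Pool.Agent.Helper78.Eigen
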