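import Mathlib

/-!
Frames: explicit descriptions of a finite group as an extension of a cyclic normal subgroup.
-/

namespace Pool.Agent.Helper78.Frame

open Finset

section cp
variable {O : Type*} [Group O]

/-- powers of `c` with exponents modulo `e` -/
def cp (c : O) (e : ℕ) (x : ZMod e) : O := c ^ x.val

variable (c : O) (e : ℕ) [NeZero e] (he : orderOf c = e)

include he

omit [NeZero e] in
lemma pow_congr {a b : ℕ} (h : (a : ZMod e) = b) : c ^ a = c ^ b := by
  rw [pow_eq_pow_iff_modEq, he]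
  exact (ZMod.natCast_eq_natCast_iff a b e).mp h

lemma cp_natCast (k : ℕ) : cp c e (k : ZMod e) = c ^ k := by
  unfold cp
  apply pow_congr c e he
  simp

lemma cp_zero : cp c e 0 = 1 := by
  have := cp_natCast c e he 0
  simpa using this

lemma cp_add (x y : ZMod e) : cp c e (x + y) = cp c e x * cp c e y := by
  unfold cp
  rw [← pow_add]
  apply pow_congr c e he
  simp

lemma cp_neg (x : ZMod e) : cp c e (-x) = (cp c e x)⁻¹ := by
  rw [eq_inv_iff_mul_eq_one, ← cp_add c e he, neg_add_cancel, cp_zero c e he]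

lemma cp_sub (x y : ZMod e) : cp c e (x - y) = cp c e x * (cp c e y)⁻¹ := by
  rw [sub_eq_add_neg, cp_add c e he, cp_neg c e he]

lemma cp_comm (x y : ZMod e) : cp c e x * cp c e y = cp c e y * cp c e x := by
  rw [← cp_add c e he, add_comm, cp_add c e he]

lemma cp_inj {x y : ZMod e} (h : cp c e x = cp c e y) : x = y := by
  unfold cp at h
  rw [pow_eq_pow_iff_modEq, he] at h
  have := (ZMod.natCast_eq_natCast_iff x.val y.val e).mpr h
  simpa using this

lemma conj_cp {γ : O} {r : ZMod e} (h : γ * c = cp c e r * γ) (x : ZMod e) :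
    γ * cp c e x = cp c e (r * x) * γ := by
  have key : ∀ k : ℕ, γ * c ^ k = cp c e (r * k) * γ := by
    intro k
    induction k with
    | zero => simp [cp_zero c e he]
    | succ k ih =>
      rw [pow_succ, ← mul_assoc, ih, mul_assoc, h, ← mul_assoc, ← cp_add c e he]
      congr 2
      push_cast; ring
  have := key x.val
  rw [ZMod.natCast_val, ZMod.cast_id] at this
  exact this

end cp

/-- A frame of a subgroup `Γ` over the cyclic subgroup generated by `c` (of order `e`). -/
structure Fr {O : Type*} [Group O] (c : O) (e m : ℕ) (Γ : Subgroup O) where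
  γ : Fin m → O
  τ : Fin m → Fin m → Fin m
  r : Fin m → ZMod e
  x : Fin m → Fin m → ZMod e
  mem : ∀ i (a : ZMod e), cp c e a * γ i ∈ Γ
  surj : ∀ y ∈ Γ, ∃ (a : ZMod e) (i : Fin m), y = cp c e a * γ i
  inj : ∀ (a b : ZMod e) (i j : Fin m), cp c e a * γ i = cp c e b * γ j → a = b ∧ i = j
  conj : ∀ i, γ i * c = cp c e (r i) * γ i
  mul : ∀ i j, γ i * γ j = cp c e (x i j) * γ (τ i j)

section frame

variable {O : Type*} [Group O] {c : O} {e m : ℕ} [NeZero e] (he : orderOf c = e)
  {Γ : Subgroup O} (F : Fr c e m Γ)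

include he

lemma Fr.assoc (i j k : Fin m) : F.τ (F.τ i j) k = F.τ i (F.τ j k) ∧
    F.x i j + F.x (F.τ i j) k = F.r i * F.x j k + F.x i (F.τ j k) := by
  have h1 : F.γ i * F.γ j * F.γ k
      = cp c e (F.x i j + F.x (F.τ i j) k) * F.γ (F.τ (F.τ i j) k) := by
    rw [F.mul, mul_assoc, F.mul, ← mul_assoc, ← cp_add c e he]
  have h2 : F.γ i * F.γ j * F.γ k
      = cp c e (F.r i * F.x j k + F.x i (F.τ j k)) * F.γ (F.τ i (F.τ j k)) := by
    rw [mul_assoc, F.mul, ← mul_assoc, conj_cp c e he (F.conj i), mul_assoc, F.mul,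
      ← mul_assoc, ← cp_add c e he]
  have h3 := F.inj _ _ _ _ (h1.symm.trans h2)
  exact ⟨h3.2, h3.1⟩

lemma Fr.bij (j : Fin m) : Function.Bijective (F.τ j) := by
  rw [← Finite.surjective_iff_bijective]
  intro l
  have hj : F.γ j ∈ Γ := by
    have := F.mem j 0
    rwa [cp_zero c e he, one_mul] at this
  have hl : F.γ l ∈ Γ := by
    have := F.mem l 0
    rwa [cp_zero c e he, one_mul] at this
  obtain ⟨a, k, hk⟩ := F.surj _ (mul_mem (inv_mem hj) hl)
  refine ⟨k, ?_⟩
  have h1 : F.γ l = cp c e (F.r j * a + F.x j k) * F.γ (F.τ j k) := by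
    have : F.γ l = F.γ j * (cp c e a * F.γ k) := by rw [← hk]; group
    rw [this, ← mul_assoc, conj_cp c e he (F.conj j), mul_assoc, F.mul, ← mul_assoc,
      ← cp_add c e he]
  have h2 : cp c e 0 * F.γ l = cp c e (F.r j * a + F.x j k) * F.γ (F.τ j k) := by
    rw [cp_zero c e he, one_mul, h1]
  exact (F.inj _ _ _ _ h2).2.symm

/-- row sums -/
def Fr.a {O : Type*} [Group O] {c : O} {e m : ℕ} {Γ : Subgroup O} (F : Fr c e m Γ) (i : Fin m) :
    ZMod e := ∑ k, F.x i k

lemma Fr.cocycle (i j : Fin m) :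
    (m : ZMod e) * F.x i j = F.a i + F.r i * F.a j - F.a (F.τ i j) := by
  have h1 : ∑ k, (F.x i j + F.x (F.τ i j) k) = ∑ k, (F.r i * F.x j k + F.x i (F.τ j k)) :=
    Finset.sum_congr rfl fun k _ => (F.assoc he i j k).2
  rw [Finset.sum_add_distrib, Finset.sum_add_distrib, ← Finset.mul_sum] at h1
  have h2 : ∑ k, F.x i (F.τ j k) = ∑ k, F.x i k := (F.bij he j).sum_comp (F.x i)
  rw [h2] at h1
  simp only [Finset.sum_const, Finset.card_univ, Fintype.card_fin, nsmul_eq_mul] at h1
  unfold Fr.a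
  linear_combination h1

/-- change of frame -/
def Fr.shift (d : Fin m → ZMod e) : Fr c e m Γ where
  γ i := cp c e (-d i) * F.γ i
  τ := F.τ
  r := F.r
  x i j := F.x i j - d i - F.r i * d j + d (F.τ i j)
  mem i a := by
    rw [← mul_assoc, ← cp_add c e he]
    exact F.mem i _
  surj y hy := by
    obtain ⟨a, i, h⟩ := F.surj y hy
    refine ⟨a + d i, i, ?_⟩
    rw [← mul_assoc, ← cp_add c e he, add_neg_cancel_right]
    exact h
  inj a b i j h := by
    rw [← mul_assoc, ← mul_assoc, ← cp_add c e he, ← cp_add c e he] at h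
    obtain ⟨h1, h2⟩ := F.inj _ _ _ _ h
    subst h2
    exact ⟨add_right_cancel h1, rfl⟩
  conj i := by
    rw [mul_assoc, F.conj, ← mul_assoc, cp_comm c e he, mul_assoc]
  mul i j := by
    calc cp c e (-d i) * F.γ i * (cp c e (-d j) * F.γ j)
        = cp c e (-d i) * (F.γ i * cp c e (-d j)) * F.γ j := by simp only [mul_assoc]
      _ = cp c e (-d i) * (cp c e (F.r i * -d j) * F.γ i) * F.γ j := by
          rw [conj_cp c e he (F.conj i)]
      _ = cp c e (-d i) * cp c e (F.r i * -d j) * (F.γ i * F.γ j) := by simp only [mul_assoc]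
      _ = cp c e (-d i) * cp c e (F.r i * -d j) * (cp c e (F.x i j) * F.γ (F.τ i j)) := by
          rw [F.mul]
      _ = cp c e (-d i + F.r i * -d j + F.x i j) * F.γ (F.τ i j) := by
          rw [← mul_assoc, ← cp_add c e he, ← cp_add c e he]
      _ = cp c e (F.x i j - d i - F.r i * d j + d (F.τ i j)) *
            (cp c e (-d (F.τ i j)) * F.γ (F.τ i j)) := by
          rw [← mul_assoc, ← cp_add c e he]
          congr 2
          ring

/-- a normalised frame -/
lemma Fr.exists_normal (F : Fr c e m Γ) (hm : 0 < m) : ∃ F' : Fr c e m Γ, ∃ ρ : Fin m → Fin m, ∀ i j,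
    (m : ZMod e) * F'.x i j
      = ((ρ i : ℕ) : ZMod e) + F'.r i * ((ρ j : ℕ) : ZMod e) - ((ρ (F'.τ i j) : ℕ) : ZMod e) := by
  refine ⟨F.shift he fun i => (((F.a i).val / m : ℕ) : ZMod e),
    fun i => ⟨(F.a i).val % m, Nat.mod_lt _ hm⟩, fun i j => ?_⟩
  have h1 : ∀ i, F.a i = (((F.a i).val % m : ℕ) : ZMod e)
      + (m : ZMod e) * (((F.a i).val / m : ℕ) : ZMod e) := by
    intro i
    have h2 : (F.a i).val = (F.a i).val % m + m * ((F.a i).val / m) := (Nat.mod_add_div _ _).symm
    have h3 : F.a i = (((F.a i).val : ℕ) : ZMod e) := by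
      rw [ZMod.natCast_val, ZMod.cast_id]
    conv_lhs => rw [h3, h2]
    push_cast
    rfl
  have h4 := F.cocycle he i j
  have hi := h1 i
  have hj := h1 j
  have hij := h1 (F.τ i j)
  change (m : ZMod e) * (F.x i j - _ - F.r i * _ + _) = _
  simp only [Fr.shift]
  linear_combination h4 + hi + F.r i * hj - hij

omit he in
/-- two solutions of `m * x = z` with the same integral quotient agree -/
lemma solution_unique (hm : 0 < m) {x y z : ZMod e} (hx : (m : ZMod e) * x = z)
    (hy : (m : ZMod e) * y = z) (hq : (m * x.val) / e = (m * y.val) / e) : x = y := by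
  have h1 : ((m * x.val : ℕ) : ZMod e) = ((m * y.val : ℕ) : ZMod e) := by
    push_cast
    rw [ZMod.natCast_val, ZMod.natCast_val, ZMod.cast_id, ZMod.cast_id, hx, hy]
  have h2 : (m * x.val) % e = (m * y.val) % e := (ZMod.natCast_eq_natCast_iff' _ _ _).mp h1
  have h3 : m * x.val = m * y.val := by
    rw [← Nat.div_add_mod (m * x.val) e, ← Nat.div_add_mod (m * y.val) e, hq, h2]
  have h4 : x.val = y.val := Nat.eq_of_mul_eq_mul_left hm h3
  exact ZMod.val_injective e h4

end frame

/-- existence of frames -/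
lemma exists_frame {O : Type*} [Group O] {c : O} {e m : ℕ} [NeZero e] (he : orderOf c = e)
    (Γ : Subgroup O) (hc : c ∈ Γ)
    (hnorm : ∀ γ ∈ Γ, γ * c * γ⁻¹ ∈ Subgroup.zpowers c) (hcard : Nat.card Γ = m * e)
    (hm0 : 0 < m) : Nonempty (Fr c e m Γ) := by
  classical
  set H : Subgroup Γ := (Subgroup.zpowers c).subgroupOf Γ with hH
  have hHle : Subgroup.zpowers c ≤ Γ := by
    rw [Subgroup.zpowers_le]; exact hc
  have hHcard : Nat.card H = e := by
    rw [hH, Nat.card_congr (Subgroup.subgroupOfEquivOfLe hHle).toEquiv, Nat.card_zpowers, he]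
  have he0 : 0 < e := Nat.pos_of_ne_zero (NeZero.ne e)
  have hidx : Nat.card (Γ ⧸ H) = m := by
    have h1 := Subgroup.card_eq_card_quotient_mul_card_subgroup H
    rw [hcard, hHcard] at h1
    exact (Nat.eq_of_mul_eq_mul_right he0 h1).symm
  have hHmem : ∀ z : Γ, z ∈ H ↔ (z : O) ∈ Subgroup.zpowers c := fun z =>
    Subgroup.mem_subgroupOf
  have hfin : Finite (Γ ⧸ H) := Nat.finite_of_card_ne_zero (by omega)
  let eq : Γ ⧸ H ≃ Fin m := by
    have := Fintype.ofFinite (Γ ⧸ H)
    exact Fintype.equivFinOfCardEq (by rw [← Nat.card_eq_fintype_card]; exact hidx)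
  let γ : Fin m → O := fun i => (((eq.symm i).out : Γ) : O)⁻¹
  -- membership of the cyclic group
  have hcp : ∀ y ∈ Subgroup.zpowers c, ∃ a : ZMod e, y = cp c e a := by
    intro y hy
    have hfo : IsOfFinOrder c := orderOf_pos_iff.mp (by omega)
    rw [← hfo.mem_powers_iff_mem_zpowers] at hy
    obtain ⟨k, hk⟩ := hy
    exact ⟨k, by rw [cp_natCast c e he]; exact hk.symm⟩
  have hcpmem : ∀ a : ZMod e, cp c e a ∈ Subgroup.zpowers c := fun a =>
    Subgroup.pow_mem _ (Subgroup.mem_zpowers c) _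
  have hγmem : ∀ i, γ i ∈ Γ := fun i => inv_mem (eq.symm i).out.2
  have hsurj : ∀ y ∈ Γ, ∃ (a : ZMod e) (i : Fin m), y = cp c e a * γ i := by
    intro y hy
    set q : Γ ⧸ H := QuotientGroup.mk (⟨y, hy⟩⁻¹ : Γ) with hq
    have h1 : q.out⁻¹ * (⟨y, hy⟩⁻¹ : Γ) ∈ H := by
      rw [← QuotientGroup.eq, QuotientGroup.out_eq']
    rw [hHmem] at h1
    obtain ⟨a, ha⟩ := hcp _ h1
    refine ⟨-a, eq q, ?_⟩
    rw [cp_neg c e he, ← ha]
    simp only [γ, Equiv.symm_apply_apply]
    push_cast
    group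
  have hinj : ∀ (a b : ZMod e) (i j : Fin m), cp c e a * γ i = cp c e b * γ j →
      a = b ∧ i = j := by
    intro a b i j h
    have hij : i = j := by
      apply eq.symm.injective
      rw [← (eq.symm i).out_eq', ← (eq.symm j).out_eq', QuotientGroup.eq, hHmem]
      have h1 : (((eq.symm i).out⁻¹ * (eq.symm j).out : Γ) : O) = (cp c e a)⁻¹ * cp c e b := by
        push_cast
        have h2 : cp c e a * (((eq.symm i).out : Γ) : O)⁻¹
            = cp c e b * (((eq.symm j).out : Γ) : O)⁻¹ := h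
        calc (((eq.symm i).out : Γ) : O)⁻¹ * ((eq.symm j).out : O)
            = (cp c e a)⁻¹ * (cp c e a * (((eq.symm i).out : Γ) : O)⁻¹) * ((eq.symm j).out : O) := by
              group
          _ = (cp c e a)⁻¹ * (cp c e b * (((eq.symm j).out : Γ) : O)⁻¹)
                * ((eq.symm j).out : O) := by rw [h2]
          _ = _ := by group
      rw [h1]
      exact mul_mem (inv_mem (hcpmem a)) (hcpmem b)
    subst hij
    exact ⟨cp_inj c e he (mul_right_cancel h), rfl⟩
  have hconj : ∀ i, ∃ r : ZMod e, γ i * c = cp c e r * γ i := by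
    intro i
    obtain ⟨r, hr⟩ := hcp _ (hnorm _ (hγmem i))
    exact ⟨r, by rw [← hr]; group⟩
  choose r hr using hconj
  have hmul : ∀ i j, ∃ (a : ZMod e) (k : Fin m), γ i * γ j = cp c e a * γ k := fun i j =>
    hsurj _ (mul_mem (hγmem i) (hγmem j))
  choose x τ hxτ using hmul
  exact ⟨{ γ := γ, τ := τ, r := r, x := x
           mem := fun i a => mul_mem (hHle (hcpmem a)) (hγmem i)
           surj := hsurj, inj := hinj, conj := hr, mul := hxτ }⟩

/-- The homomorphism between groups with frames having the same combinatorial data. -/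
lemma exists_hom {O : Type*} [Group O] {c : O} {e m : ℕ} [NeZero e] (he : orderOf c = e)
    {Γ Γ' : Subgroup O} (F : Fr c e m Γ) (F' : Fr c e m Γ') (hτ : F.τ = F'.τ) (hr : F.r = F'.r)
    (hx : F.x = F'.x) : ∃ φ : Γ →* O, (∀ y : Γ, ∃ (a : ZMod e) (i : Fin m),
      (y : O) = cp c e a * F.γ i ∧ φ y = cp c e a * F'.γ i) ∧
      (∀ z : O, z ∈ Γ' ↔ ∃ y, φ y = z) := by
  have h1 : ∀ y : Γ, ∃ p : ZMod e × Fin m, (y : O) = cp c e p.1 * F.γ p.2 := by
    intro y
    obtain ⟨a, i, h⟩ := F.surj y.1 y.2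
    exact ⟨(a, i), h⟩
  choose p hp using h1
  have hp2 : ∀ (y : Γ) (a : ZMod e) (i : Fin m), (y : O) = cp c e a * F.γ i → p y = (a, i) := by
    intro y a i h
    have := F.inj _ _ _ _ ((hp y).symm.trans h)
    exact Prod.ext this.1 this.2
  let φ : Γ →* O := MonoidHom.mk' (fun y => cp c e (p y).1 * F'.γ (p y).2) (by
    intro y z
    have h2 : p (y * z) = ((p y).1 + F.r (p y).2 * (p z).1 + F.x (p y).2 (p z).2,
        F.τ (p y).2 (p z).2) := by
      apply hp2
      push_cast
      rw [hp y, hp z]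
      calc cp c e (p y).1 * F.γ (p y).2 * (cp c e (p z).1 * F.γ (p z).2)
          = cp c e (p y).1 * (F.γ (p y).2 * cp c e (p z).1) * F.γ (p z).2 := by
            simp only [mul_assoc]
        _ = cp c e (p y).1 * (cp c e (F.r (p y).2 * (p z).1) * F.γ (p y).2) * F.γ (p z).2 := by
            rw [conj_cp c e he (F.conj _)]
        _ = cp c e (p y).1 * cp c e (F.r (p y).2 * (p z).1) * (F.γ (p y).2 * F.γ (p z).2) := by
            simp only [mul_assoc]
        _ = _ := by rw [F.mul, ← mul_assoc, ← cp_add c e he, ← cp_add c e he]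
    simp only [h2]
    symm
    calc cp c e (p y).1 * F'.γ (p y).2 * (cp c e (p z).1 * F'.γ (p z).2)
        = cp c e (p y).1 * (F'.γ (p y).2 * cp c e (p z).1) * F'.γ (p z).2 := by
          simp only [mul_assoc]
      _ = cp c e (p y).1 * (cp c e (F'.r (p y).2 * (p z).1) * F'.γ (p y).2) * F'.γ (p z).2 := by
          rw [conj_cp c e he (F'.conj _)]
      _ = cp c e (p y).1 * cp c e (F'.r (p y).2 * (p z).1) * (F'.γ (p y).2 * F'.γ (p z).2) := by
          simp only [mul_assoc]
      _ = _ := by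
          rw [F'.mul, ← mul_assoc, ← cp_add c e he, ← cp_add c e he, ← hτ, ← hr, ← hx])
  refine ⟨φ, fun y => ⟨(p y).1, (p y).2, hp y, rfl⟩, fun z => ⟨?_, ?_⟩⟩
  · intro hz
    obtain ⟨a, i, h⟩ := F'.surj z hz
    refine ⟨⟨cp c e a * F.γ i, F.mem i a⟩, ?_⟩
    have h2 := hp2 ⟨cp c e a * F.γ i, F.mem i a⟩ a i rfl
    change cp c e (p _).1 * F'.γ (p _).2 = z
    rw [h2, h]
  · rintro ⟨y, rfl⟩
    exact F'.mem _ _

end Pool.Agent.Helper78.Frame
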