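import Mathlib
import Pool.Agent.Helper78.Eigen
import Pool.Agent.Helper78.Frame

/-!
Up to orthogonal conjugacy there are boundedly many finite groups acting freely on a sphere
which contain a given element as generator of a normal subgroup of given index.
-/

namespace Pool.Agent.Helper78.Extension

open Matrix Finset
open Pool.Agent.Helper78.Eigen Pool.Agent.Helper78.Frame
open scoped Matrix.Norms.L2Operator

lemma norm_le_one {𝕜 : Type*} [RCLike 𝕜] {N : ℕ} (A : Matrix (Fin N) (Fin N) 𝕜)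
    (h : star A * A = 1) : ‖A‖ ≤ 1 := by
  have h1 : ‖A‖ * ‖A‖ = ‖(1 : Matrix (Fin N) (Fin N) 𝕜)‖ := by
    rw [← h]; exact (CStarRing.norm_star_mul_self).symm
  have h2 : ‖(1 : Matrix (Fin N) (Fin N) 𝕜)‖ ≤ 1 := by
    rw [← Matrix.diagonal_one, Matrix.l2_opNorm_diagonal]
    rw [pi_norm_le_iff_of_nonneg zero_le_one]
    intro i
    simp
  nlinarith [norm_nonneg A]

/-- the inclusion of the orthogonal group in the matrices -/
noncomputable def toR (N : ℕ) : Og N →* Matrix (Fin N) (Fin N) ℝ :=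
  (Matrix.orthogonalGroup (Fin N) ℝ).subtype

lemma toR_apply {N : ℕ} (g : Og N) : toR N g = (g : Matrix (Fin N) (Fin N) ℝ) := rfl

lemma norm_Og {N : ℕ} (g : Og N) : ‖toR N g‖ ≤ 1 :=
  norm_le_one _ ((Matrix.mem_orthogonalGroup_iff' _ _).mp g.2)

lemma norm_toC {N : ℕ} (g : Og N) : ‖toC N g‖ ≤ 1 := norm_le_one _ (toC_star_mul g)

/-- Finite orthogonal groups linked by a homomorphism close to the identity are conjugate. -/
theorem conj_of_close {N : ℕ} (Γ Γ' : Subgroup (Og N)) [Finite Γ] (φ : Γ →* Og N)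
    (hφ : ∀ z, z ∈ Γ' ↔ ∃ y, φ y = z)
    (hclose : ∀ y : Γ, ‖toR N (φ y) - toR N (y : Og N)‖ < 1) :
    ∃ Q : Og N, ∀ z, z ∈ Γ' ↔ Q⁻¹ * z * Q ∈ Γ := by
  classical
  have : Fintype Γ := Fintype.ofFinite Γ
  set n : ℝ := (Fintype.card Γ : ℝ) with hn
  have hn0 : 0 < n := by
    rw [hn]; exact_mod_cast Fintype.card_pos
  set X : Matrix (Fin N) (Fin N) ℝ := n⁻¹ • ∑ y : Γ, toR N (φ y) * toR N ((y : Og N)⁻¹) with hX
  have hXu : IsUnit X := by
    have h1 : ‖1 - X‖ < 1 := by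
      have h2 : 1 - X = n⁻¹ • ∑ y : Γ, (1 - toR N (φ y) * toR N ((y : Og N)⁻¹)) := by
        rw [Finset.sum_sub_distrib, smul_sub, ← hX]
        congr 1
        rw [Finset.sum_const, Finset.card_univ, ← Nat.cast_smul_eq_nsmul ℝ, smul_smul,
          inv_mul_cancel₀ hn0.ne', one_smul]
      rw [h2, norm_smul, norm_inv, Real.norm_of_nonneg hn0.le]
      have h3 : ‖∑ y : Γ, (1 - toR N (φ y) * toR N ((y : Og N)⁻¹))‖ < n := by
        calc ‖∑ y : Γ, (1 - toR N (φ y) * toR N ((y : Og N)⁻¹))‖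
            ≤ ∑ y : Γ, ‖1 - toR N (φ y) * toR N ((y : Og N)⁻¹)‖ := norm_sum_le _ _
          _ < ∑ _y : Γ, (1 : ℝ) := by
              refine Finset.sum_lt_sum_of_nonempty ⟨1, Finset.mem_univ _⟩ fun y _ => ?_
              have h4 : 1 - toR N (φ y) * toR N ((y : Og N)⁻¹)
                  = (toR N (y : Og N) - toR N (φ y)) * toR N ((y : Og N)⁻¹) := by
                rw [sub_mul, ← map_mul (toR N) (y : Og N), mul_inv_cancel, map_one]
              rw [h4]
              calc ‖(toR N (y : Og N) - toR N (φ y)) * toR N ((y : Og N)⁻¹)‖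
                  ≤ ‖toR N (y : Og N) - toR N (φ y)‖ * ‖toR N ((y : Og N)⁻¹)‖ := norm_mul_le _ _
                _ ≤ ‖toR N (y : Og N) - toR N (φ y)‖ * 1 := by
                    gcongr; exact norm_Og _
                _ < 1 := by
                    rw [mul_one, norm_sub_rev]; exact hclose y
          _ = n := by simp [hn]
      calc n⁻¹ * ‖∑ y : Γ, (1 - toR N (φ y) * toR N ((y : Og N)⁻¹))‖ < n⁻¹ * n := by
            gcongr
        _ = 1 := inv_mul_cancel₀ hn0.ne'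
    have h5 := isUnit_one_sub_of_norm_lt_one h1
    rwa [sub_sub_cancel] at h5
  have hXint : ∀ z : Γ, X * toR N (z : Og N) = toR N (φ z) * X := by
    intro z
    rw [hX, smul_mul_assoc, mul_smul_comm, Finset.mul_sum, Finset.sum_mul]
    congr 1
    rw [← Equiv.sum_comp (Equiv.mulLeft z)
      (fun y : Γ => toR N (φ y) * toR N ((y : Og N)⁻¹) * toR N (z : Og N))]
    refine Finset.sum_congr rfl fun y _ => ?_
    simp only [Equiv.coe_mulLeft]
    have h1 : ((z * y : Γ) : Og N)⁻¹ * (z : Og N) = (y : Og N)⁻¹ := by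
      push_cast; group
    rw [map_mul φ, map_mul (toR N) (φ z) (φ y), mul_assoc _ _ (toR N (z : Og N)),
      ← map_mul (toR N) _ (z : Og N), h1, mul_assoc]
  obtain ⟨Q, hQ, hQ2⟩ := Polar.exists_orthogonal X hXu
  have hQ3 : ∀ z : Γ, (⟨Q, hQ⟩ : Og N) * (z : Og N) = φ z * ⟨Q, hQ⟩ := by
    intro z
    exact Subtype.ext (hQ2 _ (z : Og N).2 _ (φ z).2 (hXint z))
  refine ⟨⟨Q, hQ⟩, fun z => ?_⟩
  rw [hφ]
  constructor
  · rintro ⟨y, rfl⟩
    have : (⟨Q, hQ⟩ : Og N)⁻¹ * φ y * ⟨Q, hQ⟩ = (y : Og N) := by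
      rw [mul_assoc, ← hQ3 y]; group
    rw [this]
    exact y.2
  · intro h
    refine ⟨⟨_, h⟩, ?_⟩
    have h2 := hQ3 ⟨_, h⟩
    have h3 : (⟨Q, hQ⟩ : Og N) * ((⟨Q, hQ⟩ : Og N)⁻¹ * z * ⟨Q, hQ⟩) = z * ⟨Q, hQ⟩ := by group
    exact (mul_right_cancel (h3.symm.trans h2)).symm

/-- possible conjugation exponents -/
noncomputable def expSet {N : ℕ} (c : Og N) (e : ℕ) [NeZero e] : Finset (ZMod e) := by
  classical
  exact univ.filter fun r => ∃ γ : Og N, γ * c = cp c e r * γ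

lemma card_expSet_le {N : ℕ} (hN : 0 < N) (c : Og N) (e : ℕ) [NeZero e] (he : orderOf c = e)
    (hfree : ∀ k : ℕ, c ^ k ≠ 1 → ∀ v : Fin N → ℝ,
      ((c ^ k : Og N) : Matrix (Fin N) (Fin N) ℝ).mulVec v = v → v = 0) :
    (expSet c e).card ≤ N := by
  classical
  have hfo : IsOfFinOrder c := by
    rw [← orderOf_pos_iff, he]; exact Nat.pos_of_ne_zero (NeZero.ne e)
  obtain ⟨U, d, hU, h⟩ := exists_diag' c hfo
  have hprim := fun i => isPrimitiveRoot_diag hfree hU h i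
  let i₀ : Fin N := ⟨0, hN⟩
  have h1 : ∀ r ∈ expSet c e, d i₀ ^ r.val ∈ (univ : Finset (Fin N)).image d := by
    intro r hr
    obtain ⟨γ, hγ⟩ := (Finset.mem_filter.mp hr).2
    have h2 : c ^ r.val = γ * c * γ⁻¹ := by
      rw [hγ]; unfold cp; group
    have h3 : ev (c ^ r.val) = ev c := by rw [h2, ev_conj]
    rw [ev_pow hfo, ev_of_diag hU h] at h3
    have h4 : d i₀ ^ r.val ∈ (univ : Finset (Fin N)).val.map d := by
      rw [← h3, Multiset.map_map, Multiset.mem_map]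
      exact ⟨i₀, Finset.mem_univ i₀, rfl⟩
    rw [Multiset.mem_map] at h4
    obtain ⟨j, _, hj⟩ := h4
    exact Finset.mem_image.mpr ⟨j, Finset.mem_univ _, hj⟩
  have h2 : Set.InjOn (fun r : ZMod e => d i₀ ^ r.val) (expSet c e) := by
    intro r _ s _ hrs
    simp only at hrs
    have h3 := (hprim i₀).pow_inj (by rw [he]; exact r.val_lt) (by rw [he]; exact s.val_lt) hrs
    exact ZMod.val_injective e h3
  calc (expSet c e).card ≤ ((univ : Finset (Fin N)).image d).card :=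
        Finset.card_le_card_of_injOn _ h1 h2
    _ ≤ (univ : Finset (Fin N)).card := Finset.card_image_le
    _ = N := by simp

/-- Bounded number of extensions. -/
theorem extension (N m : ℕ) (hN : 0 < N) (hm : 0 < m) : ∃ B : ℕ, ∀ (c : Og N)
    (F : Type) [Fintype F] (G : F → Subgroup (Og N)), IsOfFinOrder c →
    (∀ Γ : F, c ∈ G Γ ∧ Free (G Γ) ∧ (∀ γ ∈ G Γ, γ * c * γ⁻¹ ∈ Subgroup.zpowers c) ∧
      Nat.card (G Γ) = m * orderOf c) → B < Fintype.card F →
    ∃ Γ Γ' : F, Γ ≠ Γ' ∧ ∃ Q : Og N, ∀ z, z ∈ G Γ' ↔ Q⁻¹ * z * Q ∈ G Γ := by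
  classical
  have : ProperSpace (Matrix (Fin N) (Fin N) ℝ) := FiniteDimensional.proper_rclike ℝ _
  have hK : IsCompact (Metric.closedBall (0 : Matrix (Fin N) (Fin N) ℝ) 1) :=
    isCompact_closedBall 0 1
  obtain ⟨t, _, htfin, hcov⟩ := hK.finite_cover_balls (e := 1 / 2) (by norm_num)
  set T := htfin.toFinset with hT
  have hnet : ∀ g : Og N, ∃ y : T, ‖toR N g - y‖ < 1 / 2 := by
    intro g
    have h1 : toR N g ∈ Metric.closedBall (0 : Matrix (Fin N) (Fin N) ℝ) 1 := by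
      rw [mem_closedBall_zero_iff]; exact norm_Og g
    have h2 := hcov h1
    simp only [Set.mem_iUnion, Metric.mem_ball, dist_eq_norm] at h2
    obtain ⟨y, hy, hy2⟩ := h2
    exact ⟨⟨y, by rw [hT, Set.Finite.mem_toFinset]; exact hy⟩, hy2⟩
  choose net hnet using hnet
  refine ⟨(m ^ m) ^ m * (m ^ m * (N ^ m * ((m ^ m) ^ m * (T.card) ^ m))), ?_⟩
  intro c F _ G hfo hF hcard
  set e := orderOf c with he
  have hepos : 0 < e := hfo.orderOf_pos
  have : NeZero e := ⟨hepos.ne'⟩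
  -- choose normal frames
  have hfr : ∀ Γ : F, ∃ F' : Fr c e m (G Γ), ∃ ρ : Fin m → Fin m, ∀ i j,
      (m : ZMod e) * F'.x i j
      = ((ρ i : ℕ) : ZMod e) + F'.r i * ((ρ j : ℕ) : ZMod e) - ((ρ (F'.τ i j) : ℕ) : ZMod e) := by
    intro Γ
    obtain ⟨h1, _, h3, h4⟩ := hF Γ
    obtain ⟨F0⟩ := exists_frame he.symm (G Γ) h1 h3 h4 hm
    exact Fr.exists_normal he.symm F0 hm
  choose fr ρ hρ using hfr
  have hfreec : ∀ Γ : F, ∀ k : ℕ, c ^ k ≠ 1 → ∀ v : Fin N → ℝ,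
      ((c ^ k : Og N) : Matrix (Fin N) (Fin N) ℝ).mulVec v = v → v = 0 := by
    intro Γ k hk v hv
    obtain ⟨h1, h2, _, _⟩ := hF Γ
    exact h2 _ (pow_mem h1 k) hk v hv
  have hr : ∀ Γ : F, ∀ i, (fr Γ).r i ∈ expSet c e := by
    intro Γ i
    unfold expSet
    rw [Finset.mem_filter]
    exact ⟨Finset.mem_univ _, (fr Γ).γ i, (fr Γ).conj i⟩
  let lab : F → (Fin m → Fin m → Fin m) × (Fin m → Fin m) × (Fin m → expSet c e) ×
      (Fin m → Fin m → Fin m) × (Fin m → T) := fun Γ =>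
    ((fr Γ).τ, ρ Γ, fun i => ⟨(fr Γ).r i, hr Γ i⟩,
      fun i j => ⟨(m * ((fr Γ).x i j).val) / e, by
        rw [Nat.div_lt_iff_lt_mul hepos]
        exact Nat.mul_lt_mul_of_pos_left (ZMod.val_lt _) hm⟩,
      fun i => net ((fr Γ).γ i))
  have hne : Nonempty F := Fintype.card_pos_iff.mp (by omega)
  obtain ⟨Γ₀⟩ := hne
  have hcardlt : Fintype.card ((Fin m → Fin m → Fin m) × (Fin m → Fin m) × (Fin m → expSet c e) ×
      (Fin m → Fin m → Fin m) × (Fin m → T)) < Fintype.card F := by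
    refine lt_of_le_of_lt ?_ hcard
    simp only [Fintype.card_prod, Fintype.card_pi, Fintype.card_fin, Finset.prod_const,
      Finset.card_univ, Fintype.card_coe]
    have h1 := card_expSet_le hN c e he.symm (hfreec Γ₀)
    gcongr
  obtain ⟨Γ, Γ', hΓne, hlab⟩ := Fintype.exists_ne_map_eq_of_card_lt lab hcardlt
  simp only [lab, Prod.mk.injEq] at hlab
  obtain ⟨hτ, hρ', hr', hq, hy⟩ := hlab
  have hrr : (fr Γ).r = (fr Γ').r := by
    funext i
    exact congrArg Subtype.val (congrFun hr' i)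
  have hxx : (fr Γ).x = (fr Γ').x := by
    funext i j
    have h1 := hρ Γ i j
    have h2 := hρ Γ' i j
    rw [← hρ', ← hrr, ← hτ] at h2
    have h3 := congrArg Fin.val (congrFun (congrFun hq i) j)
    exact solution_unique hm h1 h2 h3
  refine ⟨Γ, Γ', hΓne, ?_⟩
  obtain ⟨φ, hφ1, hφ2⟩ := exists_hom he.symm (fr Γ) (fr Γ') hτ hrr hxx
  have hfin : Finite (G Γ) := by
    apply Nat.finite_of_card_ne_zero
    rw [(hF Γ).2.2.2]
    exact (Nat.mul_pos hm hepos).ne'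
  refine conj_of_close (G Γ) (G Γ') φ hφ2 ?_
  intro y
  obtain ⟨a, i, h1, h2⟩ := hφ1 y
  have h3 : toR N (φ y) - toR N (y : Og N)
      = toR N (cp c e a) * (toR N ((fr Γ').γ i) - toR N ((fr Γ).γ i)) := by
    rw [h2, h1, mul_sub, map_mul, map_mul]
  rw [h3]
  have h4 : ‖toR N ((fr Γ').γ i) - toR N ((fr Γ).γ i)‖
      < 1 := by
    have h5 := hnet ((fr Γ).γ i)
    have h6 := hnet ((fr Γ').γ i)
    have h7 : net ((fr Γ).γ i) = net ((fr Γ').γ i) := congrFun hy i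
    rw [h7] at h5
    calc ‖toR N ((fr Γ').γ i) - toR N ((fr Γ).γ i)‖
        = ‖(toR N ((fr Γ').γ i) - net ((fr Γ').γ i))
          - (toR N ((fr Γ).γ i) - net ((fr Γ').γ i))‖ := by
          congr 1; abel
      _ ≤ _ := norm_sub_le _ _
      _ < 1 := by linarith
  calc ‖toR N (cp c e a) * (toR N ((fr Γ').γ i)
        - toR N ((fr Γ).γ i))‖
      ≤ ‖toR N (cp c e a)‖ * ‖toR N ((fr Γ').γ i)
        - toR N ((fr Γ).γ i)‖ := norm_mul_le _ _
    _ ≤ 1 * ‖toR N ((fr Γ').γ i)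
        - toR N ((fr Γ).γ i)‖ := by gcongr; exact norm_Og _
    _ < 1 := by rw [one_mul]; exact h4

end Pool.Agent.Helper78.Extension
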