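import Mathlib
import Pool.Agent.Helper78.Proj

/-!
Frobenius' argument: in a finite group of elements of norm at most one of a complex normed
algebra, the elements at distance less than `1/2` from the identity commute.  Consequences:
a canonical commutative normal subgroup of bounded index; for groups acting freely it is cyclic.
-/

namespace Pool.Agent.Helper78.JordanFree

open Finset

section algebra

variable {𝒜 : Type*} [NormedRing 𝒜] [NormedAlgebra ℂ 𝒜]

omit [NormedAlgebra ℂ 𝒜] in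
lemma idem_eq {P Q : 𝒜} (hP : P * P = P) (hQ : Q * Q = Q) (hc : P * Q = Q * P)
    (hn : ‖P - Q‖ < 1) : P = Q := by
  set X := P - Q with hX
  have h3 : X * (X * X) = X := by
    have hPPQ : P * (P * Q) = P * Q := by rw [← mul_assoc, hP]
    have hQPQ : Q * (P * Q) = P * Q := by rw [← mul_assoc, ← hc, mul_assoc, hQ]
    have h1 : X * X = P + Q - (P * Q + P * Q) := by
      rw [hX]
      have : (P - Q) * (P - Q) = P * P - P * Q - Q * P + Q * Q := by noncomm_ring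
      rw [this, hP, hQ, ← hc]; abel
    rw [h1, hX]
    have : (P - Q) * (P + Q - (P * Q + P * Q))
        = P * P + P * Q - (P * (P * Q) + P * (P * Q)) - (Q * P + Q * Q)
          + (Q * (P * Q) + Q * (P * Q)) := by noncomm_ring
    rw [this, hPPQ, hQPQ, hP, hQ, ← hc]; abel
  by_contra hne
  have hX0 : X ≠ 0 := fun h => hne (sub_eq_zero.mp h)
  have hpos : 0 < ‖X‖ := norm_pos_iff.mpr hX0
  have h4 : ‖X‖ ≤ ‖X‖ * (‖X‖ * ‖X‖) := by
    calc ‖X‖ = ‖X * (X * X)‖ := by rw [h3]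
      _ ≤ ‖X‖ * ‖X * X‖ := norm_mul_le _ _
      _ ≤ ‖X‖ * (‖X‖ * ‖X‖) := by gcongr; exact norm_mul_le _ _
  nlinarith

variable {G : Type*} [Group G] [Finite G] (ρ : G →* 𝒜)

lemma norm_avg_le {m : ℕ} (hm : 0 < m) {A : 𝒜} (hA : ∀ k, ‖A ^ k‖ ≤ 1) :
    ‖Proj.avg m A‖ ≤ 1 := by
  rw [Proj.avg, norm_smul]
  have h1 : ‖∑ k ∈ range m, A ^ k‖ ≤ m := by
    refine (norm_sum_le _ _).trans ?_
    calc ∑ k ∈ range m, ‖A ^ k‖ ≤ ∑ k ∈ range m, (1 : ℝ) := Finset.sum_le_sum fun k _ => hA k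
      _ = m := by simp
  have h2 : ‖((m : ℂ))⁻¹‖ = (m : ℝ)⁻¹ := by simp
  rw [h2]
  have : (0 : ℝ) < m := by exact_mod_cast hm
  calc (m : ℝ)⁻¹ * ‖∑ k ∈ range m, A ^ k‖ ≤ (m : ℝ)⁻¹ * m := by gcongr
    _ = 1 := inv_mul_cancel₀ this.ne'

include ρ in
lemma frob1 (hnorm : ∀ g, ‖ρ g‖ ≤ 1) {a b : G}
    (hab : a * (b * a * b⁻¹) = (b * a * b⁻¹) * a) (hb : ‖ρ b - 1‖ < 1 / 2)
    (hinj : Function.Injective ρ) : a * b = b * a := by
  set c := b * a * b⁻¹ with hc
  set m := orderOf a with hm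
  have hm0 : 0 < m := orderOf_pos a
  have hω : IsPrimitiveRoot (Complex.exp (2 * Real.pi * Complex.I / m)) m :=
    Complex.isPrimitiveRoot_exp m hm0.ne'
  set ω := Complex.exp (2 * Real.pi * Complex.I / m)
  have hω1 : ‖ω‖ = 1 := Complex.norm_eq_one_of_pow_eq_one hω.pow_eq_one hm0.ne'
  have ham : ρ a ^ m = 1 := by rw [← map_pow, pow_orderOf_eq_one, map_one]
  have hcpow : ∀ k : ℕ, c ^ k = b * a ^ k * b⁻¹ := by
    intro k; rw [hc]; exact conj_pow
  have hcm : ρ c ^ m = 1 := by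
    rw [← map_pow, hcpow, pow_orderOf_eq_one]; simp
  have hcomm : Commute (ρ a) (ρ c) := by
    change ρ a * ρ c = ρ c * ρ a
    rw [← map_mul, ← map_mul, hab]
  -- the projections agree
  have hPQ : ∀ i, Proj.P m ω (ρ a) i = Proj.P m ω (ρ c) i := by
    intro i
    refine idem_eq (Proj.P_mul_P hm0 hω.pow_eq_one ham i)
      (Proj.P_mul_P hm0 hω.pow_eq_one hcm i) ?_ ?_
    · change Commute _ _
      unfold Proj.P Proj.avg
      refine Commute.smul_left (Commute.smul_right ?_ _) _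
      refine Commute.sum_left _ _ _ fun k _ => Commute.sum_right _ _ _ fun l _ => ?_
      exact ((hcomm.smul_left _).smul_right _).pow_pow k l
    · have hQ : Proj.P m ω (ρ c) i = ρ b * Proj.P m ω (ρ a) i * ρ b⁻¹ := by
        unfold Proj.P Proj.avg
        rw [mul_smul_comm, smul_mul_assoc, Finset.mul_sum, Finset.sum_mul]
        congr 1
        refine Finset.sum_congr rfl fun k _ => ?_
        rw [smul_pow, smul_pow, ← map_pow, hcpow, map_mul, map_mul, mul_smul_comm,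
          smul_mul_assoc, map_pow]
      have hbb : ρ b * ρ b⁻¹ = 1 := by rw [← map_mul, mul_inv_cancel, map_one]
      set P := Proj.P m ω (ρ a) i with hP
      have hPn : ‖P‖ ≤ 1 := by
        refine norm_avg_le hm0 fun k => ?_
        rw [smul_pow, norm_smul, ← map_pow]
        have : ‖(ω⁻¹ ^ i) ^ k‖ = 1 := by simp [hω1]
        rw [this, one_mul]
        exact hnorm _
      have h1 : P - Proj.P m ω (ρ c) i = (P * (ρ b - 1) - (ρ b - 1) * P) * ρ b⁻¹ := by
        rw [hQ]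
        have : P = P * ρ b * ρ b⁻¹ := by rw [mul_assoc, hbb, mul_one]
        conv_lhs => enter [1]; rw [this]
        noncomm_ring
      rw [h1]
      calc ‖(P * (ρ b - 1) - (ρ b - 1) * P) * ρ b⁻¹‖
          ≤ ‖P * (ρ b - 1) - (ρ b - 1) * P‖ * ‖ρ b⁻¹‖ := norm_mul_le _ _
        _ ≤ ‖P * (ρ b - 1) - (ρ b - 1) * P‖ * 1 := by gcongr; exact hnorm _
        _ = ‖P * (ρ b - 1) - (ρ b - 1) * P‖ := mul_one _
        _ ≤ ‖P * (ρ b - 1)‖ + ‖(ρ b - 1) * P‖ := norm_sub_le _ _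
        _ ≤ ‖P‖ * ‖ρ b - 1‖ + ‖ρ b - 1‖ * ‖P‖ := add_le_add (norm_mul_le _ _) (norm_mul_le _ _)
        _ ≤ 1 * ‖ρ b - 1‖ + ‖ρ b - 1‖ * 1 := by gcongr
        _ < 1 := by linarith
  have hac : ρ a = ρ c := by
    have h1 : ρ a = ∑ i ∈ range m, ρ a * Proj.P m ω (ρ a) i := by
      rw [← Finset.mul_sum, Proj.sum_P hm0 hω, mul_one]
    have h2 : ρ c = ∑ i ∈ range m, ρ c * Proj.P m ω (ρ c) i := by
      rw [← Finset.mul_sum, Proj.sum_P hm0 hω, mul_one]
    rw [h1, h2]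
    refine Finset.sum_congr rfl fun i _ => ?_
    rw [Proj.mul_P hm0 hω.pow_eq_one ham, Proj.mul_P hm0 hω.pow_eq_one hcm, hPQ i]
  have h := hinj hac
  rw [hc] at h
  calc a * b = (b * a * b⁻¹) * b := by rw [← h]
    _ = b * a := by group

/-- Elements close to the identity commute. -/
theorem frob2 (hnorm : ∀ g, ‖ρ g‖ ≤ 1) (hinj : Function.Injective ρ) {a b : G}
    (ha : ‖ρ a - 1‖ < 1 / 2) (hb : ‖ρ b - 1‖ < 1 / 2) : a * b = b * a := by
  classical
  have : Fintype G := Fintype.ofFinite G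
  by_contra hne
  let s : Finset G := univ.filter fun b => ‖ρ b - 1‖ < 1 / 2 ∧ a * b ≠ b * a
  have hs : s.Nonempty := ⟨b, by simp only [s, mem_filter]; exact ⟨mem_univ _, hb, hne⟩⟩
  obtain ⟨x, hx, hmin⟩ := s.exists_min_image (fun b => ‖ρ b - 1‖) hs
  simp only [s, mem_filter, mem_univ, true_and] at hx hmin
  obtain ⟨hx1, hx2⟩ := hx
  set y := a * x * a⁻¹ * x⁻¹ with hy
  have hρx : ρ x - 1 ≠ 0 := by
    intro h0
    have h1 : ρ x = ρ 1 := by rw [map_one]; exact sub_eq_zero.mp h0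
    have h2 := hinj h1
    rw [h2] at hx2
    simp at hx2
  have hpos : 0 < ‖ρ x - 1‖ := norm_pos_iff.mpr hρx
  have hylt : ‖ρ y - 1‖ < ‖ρ x - 1‖ := by
    have hinv : ρ x * (ρ a * (ρ a⁻¹ * ρ x⁻¹)) = 1 := by
      rw [← map_mul, ← map_mul, ← map_mul]
      have : x * (a * (a⁻¹ * x⁻¹)) = 1 := by group
      rw [this, map_one]
    have h1 : ρ y - 1 = ((ρ a - 1) * (ρ x - 1) - (ρ x - 1) * (ρ a - 1)) * (ρ a⁻¹ * ρ x⁻¹) := by
      have h2 : ρ y = ρ a * ρ x * (ρ a⁻¹ * ρ x⁻¹) := by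
        rw [hy, ← map_mul, ← map_mul, ← map_mul]
        congr 1
        group
      have h3 : (ρ a - 1) * (ρ x - 1) - (ρ x - 1) * (ρ a - 1) = ρ a * ρ x - ρ x * ρ a := by
        noncomm_ring
      rw [h3, sub_mul, ← h2]
      congr 1
      rw [mul_assoc, hinv]
    rw [h1]
    calc ‖((ρ a - 1) * (ρ x - 1) - (ρ x - 1) * (ρ a - 1)) * (ρ a⁻¹ * ρ x⁻¹)‖
        ≤ ‖(ρ a - 1) * (ρ x - 1) - (ρ x - 1) * (ρ a - 1)‖ * ‖ρ a⁻¹ * ρ x⁻¹‖ := norm_mul_le _ _
      _ ≤ ‖(ρ a - 1) * (ρ x - 1) - (ρ x - 1) * (ρ a - 1)‖ * 1 := by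
          gcongr; rw [← map_mul]; exact hnorm _
      _ = ‖(ρ a - 1) * (ρ x - 1) - (ρ x - 1) * (ρ a - 1)‖ := mul_one _
      _ ≤ ‖(ρ a - 1) * (ρ x - 1)‖ + ‖(ρ x - 1) * (ρ a - 1)‖ := norm_sub_le _ _
      _ ≤ ‖ρ a - 1‖ * ‖ρ x - 1‖ + ‖ρ x - 1‖ * ‖ρ a - 1‖ :=
          add_le_add (norm_mul_le _ _) (norm_mul_le _ _)
      _ < ‖ρ x - 1‖ := by nlinarith
  have hyc : a * y = y * a := by
    by_contra hyn
    exact absurd (hmin y ⟨hylt.trans hx1, hyn⟩) (not_le.mpr hylt)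
  -- then `a` commutes with `x * a * x⁻¹`
  have hxc : a * (x * a * x⁻¹) = (x * a * x⁻¹) * a := by
    have h1 : x * a * x⁻¹ = y⁻¹ * a := by rw [hy]; group
    rw [h1]
    have h2 : a * y⁻¹ = y⁻¹ * a := by
      calc a * y⁻¹ = y⁻¹ * (y * a) * y⁻¹ := by group
        _ = y⁻¹ * (a * y) * y⁻¹ := by rw [hyc]
        _ = y⁻¹ * a := by group
    rw [← mul_assoc, h2]
  exact hx2 (frob1 ρ hnorm hxc hx1 hinj)

/-- The canonical commutative subgroup generated by the elements close to the identity. -/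
def core : Subgroup G := Subgroup.closure {h | ‖ρ h - 1‖ < 1 / 2}

lemma core_comm (hnorm : ∀ g, ‖ρ g‖ ≤ 1) (hinj : Function.Injective ρ) :
    ∀ x ∈ core ρ, ∀ y ∈ core ρ, x * y = y * x := by
  intro x hx y hy
  unfold core at hx hy
  induction hx, hy using Subgroup.closure_induction₂ with
  | mem a b ha hb => exact frob2 ρ hnorm hinj ha hb
  | one_left x _ => rw [one_mul, mul_one]
  | one_right x _ => rw [one_mul, mul_one]
  | mul_left x y z _ _ _ h1 h2 => rw [mul_assoc, h2, ← mul_assoc, h1, mul_assoc]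
  | mul_right y z x _ _ _ h1 h2 => rw [← mul_assoc, h1, mul_assoc, h2, mul_assoc]
  | inv_left x y _ _ h =>
    calc x⁻¹ * y = x⁻¹ * (y * x) * x⁻¹ := by group
      _ = x⁻¹ * (x * y) * x⁻¹ := by rw [h]
      _ = y * x⁻¹ := by group
  | inv_right x y _ _ h =>
    calc x * y⁻¹ = y⁻¹ * (y * x) * y⁻¹ := by group
      _ = y⁻¹ * (x * y) * y⁻¹ := by rw [h]
      _ = y⁻¹ * x := by group

omit [NormedAlgebra ℂ 𝒜] [Finite G] in
lemma core_normal (hnorm : ∀ g, ‖ρ g‖ ≤ 1) : (core ρ).Normal := by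
  constructor
  intro n hn g
  unfold core at hn ⊢
  induction hn using Subgroup.closure_induction with
  | mem x hx =>
    apply Subgroup.subset_closure
    change ‖ρ (g * x * g⁻¹) - 1‖ < 1 / 2
    have h1 : ρ (g * x * g⁻¹) - 1 = ρ g * (ρ x - 1) * ρ g⁻¹ := by
      have : ρ g * ρ g⁻¹ = 1 := by rw [← map_mul, mul_inv_cancel, map_one]
      rw [map_mul, map_mul, mul_sub, sub_mul, mul_one, this]
    rw [h1]
    calc ‖ρ g * (ρ x - 1) * ρ g⁻¹‖ ≤ ‖ρ g * (ρ x - 1)‖ * ‖ρ g⁻¹‖ := norm_mul_le _ _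
      _ ≤ (‖ρ g‖ * ‖ρ x - 1‖) * ‖ρ g⁻¹‖ := by gcongr; exact norm_mul_le _ _
      _ ≤ (1 * ‖ρ x - 1‖) * 1 := by gcongr <;> exact hnorm _
      _ < 1 / 2 := by simpa using hx
  | one => rw [mul_one, mul_inv_cancel]; exact one_mem _
  | mul x y _ _ h1 h2 =>
    have : g * (x * y) * g⁻¹ = (g * x * g⁻¹) * (g * y * g⁻¹) := by group
    rw [this]; exact mul_mem h1 h2
  | inv x _ h =>
    have : g * x⁻¹ * g⁻¹ = (g * x * g⁻¹)⁻¹ := by group
    rw [this]; exact inv_mem h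

end algebra

/-- Uniform bound for the index of the core. -/
theorem exists_index_bound (𝒜 : Type*) [NormedRing 𝒜] [NormedAlgebra ℂ 𝒜] [ProperSpace 𝒜] :
    ∃ J : ℕ, ∀ (G : Type) [Group G] [Finite G] (ρ : G →* 𝒜), (∀ g, ‖ρ g‖ ≤ 1) →
      (core ρ).index ≤ J := by
  classical
  have hK : IsCompact (Metric.closedBall (0 : 𝒜) 1) := isCompact_closedBall 0 1
  obtain ⟨t, _, htfin, hcov⟩ := hK.finite_cover_balls (e := 1 / 4) (by norm_num)
  refine ⟨htfin.toFinset.card, ?_⟩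
  intro G _ _ ρ hnorm
  have hy : ∀ g : G, ∃ y ∈ t, ρ g ∈ Metric.ball y (1 / 4) := by
    intro g
    have h1 : ρ g ∈ Metric.closedBall (0 : 𝒜) 1 := by
      rw [mem_closedBall_zero_iff]; exact hnorm g
    have h2 := hcov h1
    simpa using h2
  choose y hyt hy using hy
  have : Fintype G := Fintype.ofFinite G
  have : Finite (G ⧸ core ρ) := inferInstance
  have : Fintype (G ⧸ core ρ) := Fintype.ofFinite _
  rw [Subgroup.index_eq_card, Nat.card_eq_fintype_card]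
  have hinj : Function.Injective (fun q : G ⧸ core ρ => y q.out) := by
    intro p q hpq
    simp only at hpq
    rw [← p.out_eq', ← q.out_eq']
    rw [QuotientGroup.eq]
    apply Subgroup.subset_closure
    change ‖ρ (p.out⁻¹ * q.out) - 1‖ < 1 / 2
    have h1 : ρ (p.out⁻¹ * q.out) - 1 = ρ p.out⁻¹ * (ρ q.out - ρ p.out) := by
      rw [mul_sub, ← map_mul, ← map_mul, inv_mul_cancel, map_one]
    rw [h1]
    have h2 : ‖ρ q.out - ρ p.out‖ < 1 / 2 := by
      have hp := hy p.out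
      have hq := hy q.out
      rw [Metric.mem_ball, dist_eq_norm] at hp hq
      rw [hpq] at hp
      calc ‖ρ q.out - ρ p.out‖ = ‖(ρ q.out - y q.out) - (ρ p.out - y q.out)‖ := by
            congr 1; abel
        _ ≤ ‖ρ q.out - y q.out‖ + ‖ρ p.out - y q.out‖ := norm_sub_le _ _
        _ < 1 / 2 := by linarith
    calc ‖ρ p.out⁻¹ * (ρ q.out - ρ p.out)‖ ≤ ‖ρ p.out⁻¹‖ * ‖ρ q.out - ρ p.out‖ :=
          norm_mul_le _ _
      _ ≤ 1 * ‖ρ q.out - ρ p.out‖ := by gcongr; exact hnorm _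
      _ < 1 / 2 := by rw [one_mul]; exact h2
  rw [← Finset.card_univ]
  refine Finset.card_le_card_of_injOn (fun q : G ⧸ core ρ => y q.out) (fun q _ => ?_)
    (hinj.injOn)
  simp only [Set.Finite.coe_toFinset]
  exact hyt _

/-- Common eigenvector of a commuting family. -/
theorem exists_common_eigenvector {ι V : Type*} [AddCommGroup V] [Module ℂ V]
    [FiniteDimensional ℂ V] [Nontrivial V] (f : ι → Module.End ℂ V)
    (hf : ∀ i j, f i * f j = f j * f i) : ∃ v : V, v ≠ 0 ∧ ∀ i, ∃ μ : ℂ, f i v = μ • v := by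
  classical
  let Good : ℕ → Prop := fun n => ∃ W : Submodule ℂ V, W ≠ ⊥ ∧
    (∀ i, ∀ w ∈ W, f i w ∈ W) ∧ Module.finrank ℂ W = n
  have hex : ∃ n, Good n := ⟨Module.finrank ℂ (⊤ : Submodule ℂ V), ⊤, top_ne_bot,
    fun _ _ _ => Submodule.mem_top, rfl⟩
  obtain ⟨W, hW0, hWinv, hWr⟩ := Nat.find_spec hex
  have hmin : ∀ W' : Submodule ℂ V, W' ≠ ⊥ → (∀ i, ∀ w ∈ W', f i w ∈ W') → W' ≤ W → W' = W := by
    intro W' h0 hinv hle
    have h1 : Nat.find hex ≤ Module.finrank ℂ W' := Nat.find_min' hex ⟨W', h0, hinv, rfl⟩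
    exact Submodule.eq_of_le_of_finrank_le hle (by rw [hWr]; exact h1)
  have hWn : Nontrivial W := Submodule.nontrivial_iff_ne_bot.mpr hW0
  obtain ⟨v, hvW, hv0⟩ := Submodule.exists_mem_ne_zero_of_ne_bot hW0
  refine ⟨v, hv0, fun i => ?_⟩
  obtain ⟨μ, hμ⟩ := Module.End.exists_eigenvalue ((f i).restrict (hWinv i))
  obtain ⟨w, hw⟩ := hμ.exists_hasEigenvector
  refine ⟨μ, ?_⟩
  have h1 := hmin (W ⊓ LinearMap.ker (f i - μ • (1 : Module.End ℂ V))) ?_ ?_ inf_le_left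
  · have h2 : v ∈ W ⊓ LinearMap.ker (f i - μ • (1 : Module.End ℂ V)) := by rw [h1]; exact hvW
    have h3 := h2.2
    rw [SetLike.mem_coe, LinearMap.mem_ker, LinearMap.sub_apply, sub_eq_zero] at h3
    simpa using h3
  · rw [Submodule.ne_bot_iff]
    refine ⟨w.1, ⟨w.2, ?_⟩, fun h0 => hw.2 (Subtype.ext h0)⟩
    rw [SetLike.mem_coe, LinearMap.mem_ker, LinearMap.sub_apply, sub_eq_zero]
    have h3 := congrArg Subtype.val hw.apply_eq_smul
    simpa using h3
  · intro j x hx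
    refine ⟨hWinv j x hx.1, ?_⟩
    have h3 := hx.2
    rw [SetLike.mem_coe, LinearMap.mem_ker, LinearMap.sub_apply, sub_eq_zero] at h3 ⊢
    have h4 : f i (f j x) = f j (f i x) := by
      have := congrArg (fun g : Module.End ℂ V => g x) (hf i j)
      simpa using this
    rw [h4, h3]
    simp

/-- A finite commutative group acting freely on a nonzero complex vector space is cyclic. -/
theorem cyclic_of_free {V : Type*} [AddCommGroup V] [Module ℂ V]
    [FiniteDimensional ℂ V] [Nontrivial V] {H : Type*} [Group H] [Finite H]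
    (hcomm : ∀ x y : H, x * y = y * x) (f : H →* Module.End ℂ V)
    (hfree : ∀ h : H, h ≠ 1 → ∀ v, f h v = v → v = 0) : IsCyclic H := by
  obtain ⟨v, hv0, hv⟩ := exists_common_eigenvector (fun h => f h) (fun i j => by
    rw [← map_mul, ← map_mul, hcomm])
  choose χ hχ using hv
  let φ : H →* ℂ :=
    { toFun := χ
      map_one' := by
        have h1 := hχ 1
        rw [map_one] at h1
        have h2 : (1 - χ 1) • v = 0 := by
          rw [sub_smul, one_smul, ← h1]; simp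
        rcases smul_eq_zero.mp h2 with h3 | h3
        · exact (sub_eq_zero.mp h3).symm
        · exact absurd h3 hv0
      map_mul' := by
        intro x y
        have h1 := hχ (x * y)
        rw [map_mul] at h1
        have h2 : f x (f y v) = (χ x * χ y) • v := by
          rw [hχ y, map_smul, hχ x, smul_smul, mul_comm]
        have h3 : (χ (x * y) - χ x * χ y) • v = 0 := by
          rw [sub_smul, ← h1, ← h2]; simp
        rcases smul_eq_zero.mp h3 with h4 | h4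
        · exact sub_eq_zero.mp h4
        · exact absurd h4 hv0 }
  refine isCyclic_of_injective_ringHom φ ?_
  rw [injective_iff_map_eq_one]
  intro a ha
  by_contra hne
  apply hv0
  apply hfree a hne
  rw [hχ a]
  change φ a • v = v
  rw [ha, one_smul]

end Pool.Agent.Helper78.JordanFree
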