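import Mathlib
import Pool.Agent.Helper78.Eigen
import Pool.Agent.Helper78.JordanFree
import Pool.Agent.Helper78.Extension

/-!
Structure of finite groups acting freely on a sphere: a cyclic normal subgroup of bounded index
and a bound for the number of elements with a given primitive eigenvalue.
-/

namespace Pool.Agent.Helper78.GroupBound

open Matrix Finset
open Pool.Agent.Helper78.Eigen Pool.Agent.Helper78.JordanFree
open scoped Matrix.Norms.L2Operator

lemma mem_zpowers_of_orderOf_eq {C : Type*} [Group C] [Finite C] [IsCyclic C] {x y : C}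
    (h : orderOf x = orderOf y) : x ∈ Subgroup.zpowers y := by
  classical
  have : Fintype C := Fintype.ofFinite C
  have hpos : 0 < orderOf y := orderOf_pos y
  set S : Finset C := univ.filter fun z => z ^ orderOf y = 1 with hS
  have h1 : S.card ≤ orderOf y := IsCyclic.card_pow_eq_one_le hpos
  set T : Finset C := univ.filter fun z => z ∈ Subgroup.zpowers y with hT
  have h2 : T ⊆ S := by
    intro z hz
    rw [hT, mem_filter] at hz
    rw [hS, mem_filter]
    refine ⟨mem_univ _, ?_⟩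
    exact orderOf_dvd_iff_pow_eq_one.mp (orderOf_dvd_of_mem_zpowers hz.2)
  have h3 : T.card = orderOf y := by
    rw [← Nat.card_zpowers, Nat.card_eq_fintype_card, hT, Fintype.card_subtype]
  have h4 : T = S := Finset.eq_of_subset_of_card_le h2 (by rw [h3]; exact h1)
  have h5 : x ∈ S := by
    rw [hS, mem_filter]
    exact ⟨mem_univ _, by rw [← h]; exact pow_orderOf_eq_one x⟩
  rw [← h4, hT, mem_filter] at h5
  exact h5.2

/-- the representation of the orthogonal group on `ℂ ^ N` -/
noncomputable def rep (N : ℕ) : Og N →* Module.End ℂ (Fin N → ℂ) :=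
  ((Matrix.toLinAlgEquiv' : Matrix (Fin N) (Fin N) ℂ ≃ₐ[ℂ] _) :
    Matrix (Fin N) (Fin N) ℂ →* Module.End ℂ (Fin N → ℂ)).comp (toC N)

lemma rep_apply {N : ℕ} (g : Og N) (v : Fin N → ℂ) : rep N g v = (toC N g).mulVec v := rfl

/-- A finite commutative subgroup acting freely is cyclic. -/
lemma isCyclic_of_comm {N : ℕ} (hN : 0 < N) (H : Subgroup (Og N)) [Finite H] (hfree : Free H)
    (hcomm : ∀ x ∈ H, ∀ y ∈ H, x * y = y * x) : IsCyclic H := by
  have : Nonempty (Fin N) := ⟨⟨0, hN⟩⟩
  refine cyclic_of_free (V := Fin N → ℂ)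
    (fun x y => Subtype.ext (hcomm x.1 x.2 y.1 y.2)) ((rep N).comp H.subtype) ?_
  intro h hh v hv
  by_contra hv0
  have h1 : (toC N (h : Og N)).mulVec v = v := hv
  obtain ⟨w, hw0, hw⟩ := fixed_real _ v hv0 h1
  exact hw0 (hfree h.1 h.2 (fun h0 => hh (Subtype.ext h0)) w hw)

lemma isOfFinOrder_of_mem {N : ℕ} {Γ : Subgroup (Og N)} [Finite Γ] {g : Og N} (hg : g ∈ Γ) :
    IsOfFinOrder g := by
  have h1 : IsOfFinOrder (⟨g, hg⟩ : Γ) := isOfFinOrder_of_finite _
  exact MonoidHom.isOfFinOrder Γ.subtype h1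

lemma modEq_of_pow_eq {μ : ℂ} {n a b : ℕ} (h : IsPrimitiveRoot μ n) (hn : 0 < n)
    (hab : μ ^ a = μ ^ b) : a ≡ b [MOD n] := by
  have hμ0 : μ ≠ 0 := h.ne_zero hn.ne'
  rcases le_total a b with hle | hle
  · rw [Nat.modEq_iff_dvd' hle]
    apply h.dvd_of_pow_eq_one
    apply mul_left_cancel₀ (pow_ne_zero a hμ0)
    rw [← pow_add, Nat.add_sub_cancel' hle, mul_one, hab]
  · apply Nat.ModEq.symm
    rw [Nat.modEq_iff_dvd' hle]
    apply h.dvd_of_pow_eq_one
    apply mul_left_cancel₀ (pow_ne_zero b hμ0)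
    rw [← pow_add, Nat.add_sub_cancel' hle, mul_one, hab]

/-- In a finite commutative group acting freely at most `N` elements have a given eigenvalue. -/
lemma comm_count {N : ℕ} (hN : 0 < N) (H : Subgroup (Og N)) [Finite H] (hfree : Free H)
    (hcomm : ∀ x ∈ H, ∀ y ∈ H, x * y = y * x) (ζ : ℂ) (s : Finset (Og N))
    (hs : ∀ x ∈ s, x ∈ H ∧ ζ ∈ ev x) : s.card ≤ N := by
  classical
  have hcyc := isCyclic_of_comm hN H hfree hcomm
  obtain ⟨y, hy⟩ := hcyc.exists_generator
  have hyfin : IsOfFinOrder (y : Og N) := isOfFinOrder_of_mem y.2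
  have h1 : ∀ x : Og N, ∃ p : ℕ × ℂ, x ∈ s → x = (y : Og N) ^ p.1 ∧ p.2 ∈ ev (y : Og N) ∧
      p.2 ^ p.1 = ζ := by
    intro x
    by_cases hx : x ∈ s
    · obtain ⟨hxH, hxζ⟩ := hs x hx
      have h2 : (⟨x, hxH⟩ : H) ∈ Submonoid.powers y := by
        rw [mem_powers_iff_mem_zpowers]; exact hy _
      obtain ⟨j, hj⟩ := h2
      have h3 : x = (y : Og N) ^ j := by
        have := congrArg Subtype.val hj
        simpa using this.symm
      rw [h3, ev_pow hyfin, Multiset.mem_map] at hxζ
      obtain ⟨μ, hμ, hμζ⟩ := hxζ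
      exact ⟨(j, μ), fun _ => ⟨h3, hμ, hμζ⟩⟩
    · exact ⟨(0, 0), fun h => absurd h hx⟩
  choose p hp using h1
  calc s.card ≤ (ev (y : Og N)).toFinset.card := by
        refine Finset.card_le_card_of_injOn (fun x => (p x).2) ?_ ?_
        · intro x hx
          simp only [Finset.mem_coe, Multiset.mem_toFinset]
          exact (hp x hx).2.1
        · intro x hx x' hx' hxx
          simp only at hxx
          obtain ⟨h1, h2, h3⟩ := hp x hx
          obtain ⟨h1', h2', h3'⟩ := hp x' hx'
          rw [← hxx] at h3'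
          have hprim := isPrimitiveRoot_of_mem_ev hfree y.2 hyfin h2
          rw [h1, h1']
          rw [pow_eq_pow_iff_modEq]
          exact modEq_of_pow_eq hprim hyfin.orderOf_pos (h3.trans h3'.symm)
    _ ≤ Multiset.card (ev (y : Og N)) := Multiset.toFinset_card_le _
    _ = N := card_ev hyfin

/-- The structure theorem. -/
theorem struct (N : ℕ) (hN : 0 < N) : ∃ J : ℕ, ∀ Γ : Subgroup (Og N), Finite Γ → Free Γ →
    ∃ k e : ℕ, 0 < k ∧ k ≤ J ∧ 0 < e ∧ Nat.card Γ = k * e ∧ ∀ ζ : ℂ, IsPrimitiveRoot ζ e →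
      (∃ g ∈ Γ, ζ ∈ ev g) ∧
      (∀ g ∈ Γ, ζ ∈ ev g → orderOf g = e ∧ ∀ γ ∈ Γ, γ * g ^ k * γ⁻¹ ∈ Subgroup.zpowers (g ^ k)) ∧
      (∀ s : Finset (Og N), (∀ x ∈ s, x ∈ Γ ∧ ζ ∈ ev x) → s.card ≤ N * (k * k)) := by
  classical
  have : ProperSpace (Matrix (Fin N) (Fin N) ℂ) := FiniteDimensional.proper_rclike ℂ _
  obtain ⟨J, hJ⟩ := exists_index_bound (Matrix (Fin N) (Fin N) ℂ)
  refine ⟨J, ?_⟩
  intro Γ hfin hfree
  have : Fintype Γ := Fintype.ofFinite Γ
  let ρ : Γ →* Matrix (Fin N) (Fin N) ℂ := (toC N).comp Γ.subtype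
  have hρn : ∀ g, ‖ρ g‖ ≤ 1 := fun g => Extension.norm_toC (g : Og N)
  have hρi : Function.Injective ρ := (toC_injective N).comp Subtype.coe_injective
  set C : Subgroup Γ := core ρ with hC
  have hCn : C.Normal := core_normal ρ hρn
  have hCc := core_comm ρ hρn hρi
  have hCidx : C.index ≤ J := hJ Γ ρ hρn
  -- `C` is cyclic
  have hCcyc : IsCyclic C := by
    have : Nonempty (Fin N) := ⟨⟨0, hN⟩⟩
    refine cyclic_of_free (V := Fin N → ℂ)
      (fun x y => Subtype.ext (hCc x.1 x.2 y.1 y.2)) ((rep N).comp (Γ.subtype.comp C.subtype)) ?_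
    intro h hh v hv
    by_contra hv0
    have h1 : (toC N ((h : Γ) : Og N)).mulVec v = v := hv
    obtain ⟨w, hw0, hw⟩ := fixed_real _ v hv0 h1
    exact hw0 (hfree h.1.1 h.1.2 (fun h0 => hh (Subtype.ext (Subtype.ext h0))) w hw)
  set k := C.index with hk
  set e := Nat.card C with he
  have hk0 : 0 < k := Nat.pos_of_ne_zero Subgroup.index_ne_zero_of_finite
  have he0 : 0 < e := Nat.card_pos
  have hcard : Nat.card Γ = k * e := by
    rw [mul_comm]; exact (Subgroup.card_mul_index C).symm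
  refine ⟨k, e, hk0, hCidx, he0, hcard, ?_⟩
  intro ζ hζ
  -- order of elements with eigenvalue `ζ`
  have hord : ∀ g ∈ Γ, ζ ∈ ev g → orderOf g = e := by
    intro g hg hgζ
    have h1 := isPrimitiveRoot_of_mem_ev hfree hg (isOfFinOrder_of_mem hg) hgζ
    exact h1.unique hζ
  -- powers in the core
  have hpowC : ∀ g : Γ, g ^ k ∈ C := fun g => Subgroup.pow_index_mem C g
  -- two elements of the core of the same order
  have hCord : ∀ x ∈ C, ∀ y ∈ C, orderOf x = orderOf y → x ∈ Subgroup.zpowers y := by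
    intro x hx y hy hxy
    have h1 : orderOf (⟨x, hx⟩ : C) = orderOf (⟨y, hy⟩ : C) := by
      rw [← Subgroup.orderOf_coe (⟨x, hx⟩ : C), ← Subgroup.orderOf_coe (⟨y, hy⟩ : C)]
      exact hxy
    obtain ⟨n, hn⟩ := mem_zpowers_of_orderOf_eq h1
    refine ⟨n, ?_⟩
    have := congrArg Subtype.val hn
    simpa using this
  refine ⟨?_, ?_, ?_⟩
  · -- existence
    obtain ⟨c, hc⟩ := hCcyc.exists_generator
    have hco : orderOf c = e := by
      rw [he, ← Nat.card_zpowers c]
      have : Subgroup.zpowers c = ⊤ := by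
        rw [eq_top_iff]; intro x _; exact hc x
      rw [this]
      exact Subgroup.card_top
    set c' : Og N := ((c : Γ) : Og N) with hc'
    have hc'Γ : c' ∈ Γ := (c : Γ).2
    have hc'o : orderOf c' = e := by
      rw [hc', Subgroup.orderOf_coe, Subgroup.orderOf_coe, hco]
    have hfo := isOfFinOrder_of_mem (Γ := Γ) hc'Γ
    have hcard : 0 < Multiset.card (ev c') := by rw [card_ev hfo]; exact hN
    obtain ⟨μ, hμ⟩ := Multiset.card_pos_iff_exists_mem.mp hcard
    have hμp := isPrimitiveRoot_of_mem_ev hfree hc'Γ hfo hμ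
    rw [hc'o] at hμp
    have : NeZero e := ⟨he0.ne'⟩
    obtain ⟨u, _, hu⟩ := hμp.eq_pow_of_pow_eq_one hζ.pow_eq_one
    refine ⟨c' ^ u, pow_mem hc'Γ u, ?_⟩
    rw [ev_pow hfo, Multiset.mem_map]
    exact ⟨μ, hμ, hu⟩
  · intro g hg hgζ
    refine ⟨hord g hg hgζ, ?_⟩
    intro γ hγ
    have h1 := hpowC ⟨g, hg⟩
    have h2 := hCn.conj_mem _ h1 ⟨γ, hγ⟩
    have h3 : orderOf ((⟨γ, hγ⟩ : Γ) * (⟨g, hg⟩ : Γ) ^ k * (⟨γ, hγ⟩ : Γ)⁻¹)
        = orderOf ((⟨g, hg⟩ : Γ) ^ k) := by
      have := (MulAut.conj (⟨γ, hγ⟩ : Γ)).orderOf_eq ((⟨g, hg⟩ : Γ) ^ k)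
      rw [MulAut.conj_apply] at this
      exact this
    obtain ⟨n, hn⟩ := hCord _ h2 _ h1 h3
    refine ⟨n, ?_⟩
    have := congrArg Subtype.val hn
    simpa using this
  · intro s hs
    rcases s.eq_empty_or_nonempty with h0 | ⟨g₁, hg₁⟩
    · rw [h0]; simp
    obtain ⟨hg₁Γ, hg₁ζ⟩ := hs g₁ hg₁
    let G₁ : Γ := ⟨g₁, hg₁Γ⟩
    -- the subgroup `D`
    set D : Subgroup Γ := Subgroup.zpowers (G₁ ^ k) with hD
    have hG₁o : orderOf G₁ = e := by
      rw [← Subgroup.orderOf_coe]; exact hord g₁ hg₁Γ hg₁ζ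
    have hcommD : ∀ g : Γ, ζ ∈ ev (g : Og N) → Commute g (G₁ ^ k) := by
      intro g hg
      have h1 : orderOf g = e := by
        rw [← Subgroup.orderOf_coe]; exact hord g g.2 hg
      have h2 : orderOf (G₁ ^ k) = orderOf (g ^ k) := by
        rw [orderOf_pow, orderOf_pow, h1, hG₁o]
      obtain ⟨n, hn⟩ := hCord _ (hpowC G₁) _ (hpowC g) h2
      simp only at hn
      rw [← hn]
      exact ((Commute.refl g).pow_right k).zpow_right n
    have hDcard : Nat.card D = e / Nat.gcd e k := by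
      rw [hD, Nat.card_zpowers, orderOf_pow, hG₁o]
    have hidx : Nat.card (Γ ⧸ D) ≤ k * k := by
      have h1 := Subgroup.card_eq_card_quotient_mul_card_subgroup D
      rw [hcard, hDcard] at h1
      have h2 : Nat.gcd e k ∣ e := Nat.gcd_dvd_left e k
      have h3 : 0 < e / Nat.gcd e k :=
        Nat.div_pos (Nat.le_of_dvd he0 h2) (Nat.gcd_pos_of_pos_left _ he0)
      have h4 : Nat.gcd e k ≤ k := Nat.gcd_le_right _ hk0
      have h5 : Nat.card (Γ ⧸ D) * (e / Nat.gcd e k)
          = (k * Nat.gcd e k) * (e / Nat.gcd e k) := by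
        rw [← h1, mul_assoc, Nat.mul_div_cancel' h2]
      have h6 := Nat.eq_of_mul_eq_mul_right h3 h5
      rw [h6]
      exact Nat.mul_le_mul_left k h4
    have : Fintype (Γ ⧸ D) := Fintype.ofFinite _
    -- work with a finset of `Γ`
    set s' : Finset Γ := univ.filter fun x => (x : Og N) ∈ s with hs'
    have hss : s.card = s'.card := by
      have : s = s'.image Subtype.val := by
        ext x
        rw [mem_image]
        constructor
        · intro hx
          exact ⟨⟨x, (hs x hx).1⟩, by rw [hs', mem_filter]; exact ⟨mem_univ _, hx⟩, rfl⟩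
        · rintro ⟨y, hy, rfl⟩
          exact (mem_filter.mp hy).2
      rw [this, Finset.card_image_of_injective _ Subtype.val_injective]
    rw [hss]
    have hfib : ∀ q ∈ s'.image (fun x : Γ => (QuotientGroup.mk x : Γ ⧸ D)),
        (s'.filter fun x => (QuotientGroup.mk x : Γ ⧸ D) = q).card ≤ N := by
      intro q hq
      obtain ⟨z, hz, rfl⟩ := mem_image.mp hq
      have hzs := (mem_filter.mp hz).2
      have hzζ := (hs _ hzs).2
      -- the commutative group generated by `z` and `D`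
      set H : Subgroup (Og N) := Subgroup.closure {(z : Og N), ((G₁ ^ k : Γ) : Og N)} with hH
      have hHle : H ≤ Γ := by
        rw [hH, Subgroup.closure_le]
        rintro x (rfl | rfl)
        · exact z.2
        · exact (G₁ ^ k).2
      have hHfin : Finite H := Finite.of_injective _ (Subgroup.inclusion_injective hHle)
      have hHfree : Free H := fun g hg => hfree g (hHle hg)
      have hzD : (z : Og N) * ((G₁ ^ k : Γ) : Og N) = ((G₁ ^ k : Γ) : Og N) * (z : Og N) := by
        have := congrArg Subtype.val (hcommD z hzζ).eq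
        simpa using this
      have hHcomm : ∀ x ∈ H, ∀ y ∈ H, x * y = y * x := by
        have h1 : ∀ x ∈ ({(z : Og N), ((G₁ ^ k : Γ) : Og N)} : Set (Og N)),
            ∀ y ∈ ({(z : Og N), ((G₁ ^ k : Γ) : Og N)} : Set (Og N)), x * y = y * x := by
          rintro x (rfl | rfl) y (rfl | rfl)
          · rfl
          · exact hzD
          · exact hzD.symm
          · rfl
        intro x hx y hy
        rw [hH] at hx hy
        induction hx, hy using Subgroup.closure_induction₂ with
        | mem a b ha hb => exact h1 a ha b hb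
        | one_left x _ => rw [one_mul, mul_one]
        | one_right x _ => rw [one_mul, mul_one]
        | mul_left x y z _ _ _ h1 h2 => rw [mul_assoc, h2, ← mul_assoc, h1, mul_assoc]
        | mul_right y z x _ _ _ h1 h2 => rw [← mul_assoc, h1, mul_assoc, h2, mul_assoc]
        | inv_left x y _ _ h =>
          calc x⁻¹ * y = x⁻¹ * (y * x) * x⁻¹ := by group
            _ = x⁻¹ * (x * y) * x⁻¹ := by rw [h]
            _ = y * x⁻¹ := by group
        | inv_right x y _ _ h =>
          calc x * y⁻¹ = y⁻¹ * (y * x) * y⁻¹ := by group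
            _ = y⁻¹ * (x * y) * y⁻¹ := by rw [h]
            _ = y⁻¹ * x := by group
      have h2 := comm_count hN H hHfree hHcomm ζ
        ((s'.filter fun x => (QuotientGroup.mk x : Γ ⧸ D) = QuotientGroup.mk z).image
          Subtype.val) ?_
      · rwa [Finset.card_image_of_injective _ Subtype.val_injective] at h2
      · intro x hx
        obtain ⟨y, hy, rfl⟩ := mem_image.mp hx
        obtain ⟨hy1, hy2⟩ := mem_filter.mp hy
        refine ⟨?_, (hs _ (mem_filter.mp hy1).2).2⟩
        have h3 : z⁻¹ * y ∈ D := QuotientGroup.eq.mp hy2.symm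
        obtain ⟨n, hn⟩ := h3
        have h4 : (y : Og N) = (z : Og N) * ((G₁ ^ k : Γ) : Og N) ^ n := by
          have h5 : ((G₁ ^ k : Γ) : Og N) ^ n = (z : Og N)⁻¹ * (y : Og N) := by
            have h6 := congrArg Subtype.val hn
            simpa using h6
          rw [h5]; group
        have hzH : (z : Og N) ∈ H := Subgroup.subset_closure (Set.mem_insert _ _)
        have hGH : ((G₁ ^ k : Γ) : Og N) ∈ H :=
          Subgroup.subset_closure (Set.mem_insert_of_mem _ (Set.mem_singleton _))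
        rw [h4]
        exact mul_mem hzH (zpow_mem hGH n)
    calc s'.card ≤ N * (s'.image (fun x : Γ => (QuotientGroup.mk x : Γ ⧸ D))).card :=
          Finset.card_le_mul_card_image _ _ hfib
      _ ≤ N * (k * k) := by
          refine Nat.mul_le_mul_left N (le_trans (Finset.card_le_univ _) ?_)
          rw [← Nat.card_eq_fintype_card]
          exact hidx

end Pool.Agent.Helper78.GroupBound
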