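import Mathlib
import Pool.Agent.Helper78.Eigen

/-!
The action of matrices on homogeneous polynomials by linear substitution, and its trace.
-/

namespace Pool.Agent.Helper78.Act

open MvPolynomial Finset
open Pool.Agent.Helper78.Eigen

/-- linear substitution `p(x) ↦ p(A x)` -/
noncomputable def act {N : ℕ} (A : Matrix (Fin N) (Fin N) ℂ) :
    MvPolynomial (Fin N) ℂ →ₐ[ℂ] MvPolynomial (Fin N) ℂ :=
  MvPolynomial.aeval fun i => ∑ j, C (A i j) * X j

lemma act_X {N : ℕ} (A : Matrix (Fin N) (Fin N) ℂ) (i : Fin N) :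
    act A (X i) = ∑ j, C (A i j) * X j := by
  rw [act, aeval_X]

lemma act_C {N : ℕ} (A : Matrix (Fin N) (Fin N) ℂ) (c : ℂ) :
    act A (C c) = C c := by
  rw [act, ← algebraMap_eq]
  exact AlgHom.commutes _ _

lemma act_mul {N : ℕ} (A B : Matrix (Fin N) (Fin N) ℂ) :
    act (A * B) = (act B).comp (act A) := by
  apply MvPolynomial.algHom_ext
  intro i
  rw [AlgHom.comp_apply, act_X, act_X, map_sum]
  simp only [map_mul, act_C, act_X, Matrix.mul_apply, map_sum, Finset.mul_sum, Finset.sum_mul]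
  rw [Finset.sum_comm]
  refine Finset.sum_congr rfl fun j _ => Finset.sum_congr rfl fun l _ => ?_
  ring

lemma act_one {N : ℕ} : act (1 : Matrix (Fin N) (Fin N) ℂ) = AlgHom.id ℂ _ := by
  apply MvPolynomial.algHom_ext
  intro i
  rw [act_X, AlgHom.id_apply, Finset.sum_eq_single i]
  · simp
  · intro j _ hj
    rw [Matrix.one_apply_ne (Ne.symm hj)]; simp
  · simp

lemma act_homog {N k : ℕ} (A : Matrix (Fin N) (Fin N) ℂ) {p : MvPolynomial (Fin N) ℂ}
    (hp : p.IsHomogeneous k) : (act A p).IsHomogeneous k := by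
  have h := hp.aeval (fun i => ∑ j, C (A i j) * X j) (n := 1) (fun i => by
    refine IsHomogeneous.sum _ _ _ fun j _ => ?_
    exact isHomogeneous_C_mul_X _ _)
  rwa [one_mul] at h

/-- the action on homogeneous polynomials of degree `k` -/
noncomputable def actW {N : ℕ} (A : Matrix (Fin N) (Fin N) ℂ) (k : ℕ) :
    Module.End ℂ (homogeneousSubmodule (Fin N) ℂ k) :=
  (act A).toLinearMap.restrict fun _ hp => act_homog A hp

lemma actW_coe {N : ℕ} (A : Matrix (Fin N) (Fin N) ℂ) (k : ℕ)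
    (p : homogeneousSubmodule (Fin N) ℂ k) :
    ((actW A k p : homogeneousSubmodule (Fin N) ℂ k) : MvPolynomial (Fin N) ℂ) = act A p := rfl

lemma actW_mul {N : ℕ} (A B : Matrix (Fin N) (Fin N) ℂ) (k : ℕ) :
    actW (A * B) k = actW B k * actW A k := by
  ext1 p
  apply Subtype.ext
  rw [actW_coe, act_mul]
  rfl

lemma actW_one {N : ℕ} (k : ℕ) : actW (1 : Matrix (Fin N) (Fin N) ℂ) k = 1 := by
  ext1 p
  apply Subtype.ext
  rw [actW_coe, act_one]
  rfl

/-- exponent vectors of degree `k` -/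
noncomputable def Sk (N k : ℕ) : Finset (Fin N →₀ ℕ) := Finset.finsuppAntidiag univ k

lemma mem_Sk {N k : ℕ} (s : Fin N →₀ ℕ) : s ∈ Sk N k ↔ s.degree = k := by
  rw [Sk, mem_finsuppAntidiag, Finsupp.degree_eq_sum]
  simp

/-- monomials as homogeneous polynomials -/
noncomputable def mono (N k : ℕ) (s : Sk N k) : homogeneousSubmodule (Fin N) ℂ k :=
  ⟨monomial s.1 1, isHomogeneous_monomial 1 ((mem_Sk _).mp s.2)⟩

lemma mono_li (N k : ℕ) : LinearIndependent ℂ (mono N k) := by
  have h1 : LinearIndependent ℂ (fun s : Sk N k => (monomial s.1 1 : MvPolynomial (Fin N) ℂ)) := by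
    have h2 := (MvPolynomial.basisMonomials (Fin N) ℂ).linearIndependent
    have h3 := h2.comp (fun s : Sk N k => s.1) Subtype.val_injective
    simpa [Function.comp_def] using h3
  exact LinearIndependent.of_comp (homogeneousSubmodule (Fin N) ℂ k).subtype h1

lemma mono_span (N k : ℕ) : ⊤ ≤ Submodule.span ℂ (Set.range (mono N k)) := by
  intro p _
  have h1 : p = ∑ s ∈ p.1.support.attach, (p.1.coeff s.1) •
      mono N k ⟨s.1, (mem_Sk _).mpr (by
        have h2 := p.2
        rw [mem_homogeneousSubmodule] at h2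
        by_contra hne
        exact (MvPolynomial.mem_support_iff.mp s.2) (h2.coeff_eq_zero hne))⟩ := by
    apply Subtype.ext
    rw [Submodule.coe_sum]
    conv_lhs => rw [MvPolynomial.as_sum p.1, ← Finset.sum_attach]
    refine Finset.sum_congr rfl fun s _ => ?_
    rw [Submodule.coe_smul, mono, MvPolynomial.smul_monomial]
    simp
  rw [h1]
  refine Submodule.sum_mem _ fun s _ => Submodule.smul_mem _ _ (Submodule.subset_span ⟨_, rfl⟩)

/-- the monomial basis -/
noncomputable def bas (N k : ℕ) : Module.Basis (Sk N k) ℂ (homogeneousSubmodule (Fin N) ℂ k) :=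
  Module.Basis.mk (mono_li N k) (mono_span N k)

lemma bas_apply (N k : ℕ) (s : Sk N k) : bas N k s = mono N k s := by
  rw [bas, Module.Basis.mk_apply]

instance (N k : ℕ) : Module.Finite ℂ (homogeneousSubmodule (Fin N) ℂ k) :=
  Module.Finite.of_basis (bas N k)

lemma actW_diagonal {N : ℕ} (d : Fin N → ℂ) (k : ℕ) (s : Sk N k) :
    actW (Matrix.diagonal d) k (bas N k s) = (∏ i, d i ^ s.1 i) • bas N k s := by
  apply Subtype.ext
  rw [actW_coe, Submodule.coe_smul, bas_apply, mono]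
  simp only
  rw [MvPolynomial.monomial_eq, map_mul, act_C, C_1, one_mul, one_mul]
  rw [Finsupp.prod_fintype _ _ (fun i => pow_zero _), map_prod]
  have h1 : ∀ i, act (Matrix.diagonal d) (X i ^ s.1 i) = C (d i ^ s.1 i) * X i ^ s.1 i := by
    intro i
    rw [map_pow, act_X, Finset.sum_eq_single i]
    · rw [Matrix.diagonal_apply_eq, mul_pow, C_pow]
    · intro j _ hj
      rw [Matrix.diagonal_apply_ne _ (Ne.symm hj)]; simp
    · simp
  simp only [h1]
  have h2 : ∏ i, (C (d i ^ s.1 i) : MvPolynomial (Fin N) ℂ) = C (∏ i, d i ^ s.1 i) :=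
    (map_prod (C : ℂ →+* MvPolynomial (Fin N) ℂ) _ _).symm
  rw [Finset.prod_mul_distrib, h2, MvPolynomial.smul_eq_C_mul]

lemma trace_actW_diagonal {N : ℕ} (d : Fin N → ℂ) (k : ℕ) :
    LinearMap.trace ℂ _ (actW (Matrix.diagonal d) k) = ∑ s ∈ Sk N k, ∏ i, d i ^ s i := by
  classical
  rw [LinearMap.trace_eq_matrix_trace ℂ (bas N k), Matrix.trace]
  have h1 : ∑ s ∈ Sk N k, ∏ i, d i ^ s i = ∑ s : Sk N k, ∏ i, d i ^ s.1 i :=
    (Finset.sum_coe_sort (Sk N k) (fun s => ∏ i, d i ^ s i)).symm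
  rw [h1]
  congr 1
  funext s
  rw [Matrix.diag_apply, LinearMap.toMatrix_apply, actW_diagonal, map_smul, Finsupp.smul_apply,
    Module.Basis.repr_self, Finsupp.single_eq_same, smul_eq_mul, mul_one]

lemma trace_actW_comm {N : ℕ} (A B : Matrix (Fin N) (Fin N) ℂ) (k : ℕ) :
    LinearMap.trace ℂ _ (actW (A * B) k) = LinearMap.trace ℂ _ (actW (B * A) k) := by
  rw [actW_mul, actW_mul, LinearMap.trace_mul_comm]

lemma trace_actW {N : ℕ} {A U : Matrix (Fin N) (Fin N) ℂ} {d : Fin N → ℂ} (hU : IsUnit U)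
    (h : A * U = U * Matrix.diagonal d) (k : ℕ) :
    LinearMap.trace ℂ _ (actW A k) = ∑ s ∈ Sk N k, ∏ i, d i ^ s i := by
  obtain ⟨u, rfl⟩ := hU
  have h1 : A = u.val * (Matrix.diagonal d * u⁻¹.val) := by
    rw [← mul_assoc, ← h, mul_assoc, Units.mul_inv, mul_one]
  rw [h1, trace_actW_comm, mul_assoc, Units.inv_mul, mul_one, trace_actW_diagonal]

end Pool.Agent.Helper78.Act
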