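import Mathlib
import Pool.Agent.Helper78.Act

/-!
Invariant harmonic polynomials and invariant homogeneous polynomials.
-/

namespace Pool.Agent.Helper78.Harm

open MvPolynomial Finset
open Pool.Agent.Helper78.Eigen Pool.Agent.Helper78.Act

/-- the Laplacian on polynomials -/
noncomputable def lap (N : ℕ) : MvPolynomial (Fin N) ℂ →ₗ[ℂ] MvPolynomial (Fin N) ℂ :=
  ∑ i, (pderiv i).toLinearMap ∘ₗ (pderiv i).toLinearMap

lemma lap_apply {N : ℕ} (p : MvPolynomial (Fin N) ℂ) :
    lap N p = ∑ i, pderiv i (pderiv i p) := by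
  simp [lap]

lemma pderiv_act {N : ℕ} (A : Matrix (Fin N) (Fin N) ℂ) (i : Fin N)
    (p : MvPolynomial (Fin N) ℂ) :
    pderiv i (act A p) = ∑ j, C (A j i) * act A (pderiv j p) := by
  induction p using MvPolynomial.induction_on with
  | C a => simp
  | add p q hp hq =>
    rw [map_add, map_add, hp, hq, ← Finset.sum_add_distrib]
    refine Finset.sum_congr rfl fun j _ => ?_
    rw [map_add, map_add]; ring
  | mul_X p n ih =>
    rw [map_mul, Derivation.leibniz, ih, act_X]
    have h1 : pderiv i (∑ j, C (A n j) * X j : MvPolynomial (Fin N) ℂ) = C (A n i) := by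
      rw [map_sum, Finset.sum_eq_single i]
      · simp [Derivation.leibniz]
      · intro j _ hj
        simp [Derivation.leibniz, pderiv_X, Pi.single_eq_of_ne hj]
      · simp
    rw [h1]
    have h2 : ∀ j, C (A j i) * act A (pderiv j (p * X n))
        = (∑ l, C (A n l) * X l) * (C (A j i) * act A (pderiv j p))
          + (if n = j then C (A j i) * act A p else 0) := by
      intro j
      rw [Derivation.leibniz]
      by_cases hj : n = j
      · subst hj
        rw [pderiv_X_self, if_pos rfl]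
        simp only [smul_eq_mul, mul_one, map_add, map_mul, act_X]
        ring
      · rw [pderiv_X_of_ne hj, if_neg hj]
        simp only [smul_eq_mul, mul_zero, zero_add, map_mul, act_X]
        ring
    rw [Finset.sum_congr rfl fun j _ => h2 j, Finset.sum_add_distrib, ← Finset.mul_sum,
      Finset.sum_ite_eq univ n, if_pos (Finset.mem_univ n)]
    simp only [smul_eq_mul]
    ring

lemma lap_act {N : ℕ} (A : Matrix (Fin N) (Fin N) ℂ) (hA : A * A.transpose = 1)
    (p : MvPolynomial (Fin N) ℂ) : lap N (act A p) = act A (lap N p) := by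
  rw [lap_apply, lap_apply, map_sum]
  have h1 : ∀ i, pderiv i (pderiv i (act A p))
      = ∑ j, ∑ l, C (A j i * A l i) * act A (pderiv l (pderiv j p)) := by
    intro i
    rw [pderiv_act, map_sum]
    refine Finset.sum_congr rfl fun j _ => ?_
    rw [Derivation.leibniz, pderiv_C, smul_zero, add_zero, pderiv_act, smul_eq_mul,
      Finset.mul_sum]
    refine Finset.sum_congr rfl fun l _ => ?_
    rw [C_mul]; ring
  rw [Finset.sum_congr rfl fun i _ => h1 i, Finset.sum_comm]
  refine Finset.sum_congr rfl fun j _ => ?_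
  rw [Finset.sum_comm]
  have h2 : ∀ l, ∑ i, C (A j i * A l i) * act A (pderiv l (pderiv j p))
      = if l = j then act A (pderiv l (pderiv j p)) else 0 := by
    intro l
    rw [← Finset.sum_mul, ← map_sum]
    have h3 : ∑ i, A j i * A l i = (1 : Matrix (Fin N) (Fin N) ℂ) j l := by
      rw [← hA, Matrix.mul_apply]; rfl
    rw [h3]
    by_cases hj : l = j
    · subst hj; simp
    · rw [Matrix.one_apply_ne (Ne.symm hj), if_neg hj]; simp
  rw [Finset.sum_congr rfl fun l _ => h2 l, Finset.sum_ite_eq' univ j,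
    if_pos (Finset.mem_univ j)]

lemma lap_homog {N k : ℕ} {p : MvPolynomial (Fin N) ℂ} (hp : p.IsHomogeneous (k + 2)) :
    (lap N p).IsHomogeneous k := by
  rw [lap_apply]
  refine IsHomogeneous.sum _ _ _ fun i _ => ?_
  have h1 : (pderiv i p).IsHomogeneous (k + 1) := hp.pderiv
  exact h1.pderiv

lemma lap_monomial {N : ℕ} (t : Fin N →₀ ℕ) :
    lap N (monomial t 1) = ∑ i, monomial (t - Finsupp.single i 1 - Finsupp.single i 1)
      ((t i : ℂ) * ((t i - 1 : ℕ) : ℂ)) := by
  rw [lap_apply]
  refine Finset.sum_congr rfl fun i _ => ?_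
  rw [pderiv_monomial, pderiv_monomial]
  simp

lemma lap_surj_aux {N k : ℕ} (i₀ : Fin N) : ∀ n : ℕ, ∀ s : Fin N →₀ ℕ,
    ∑ i ∈ univ.erase i₀, s i = n → s.degree = k →
    ∃ p : MvPolynomial (Fin N) ℂ, p.IsHomogeneous (k + 2) ∧ lap N p = monomial s 1 := by
  classical
  intro n
  induction n using Nat.strong_induction_on with
  | _ n ih =>
    intro s hs hk
    set t : Fin N →₀ ℕ := s + Finsupp.single i₀ 2 with ht
    have htdeg : t.degree = k + 2 := by
      rw [ht, map_add, hk, Finsupp.degree_single]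
    have hti₀ : t i₀ = s i₀ + 2 := by rw [ht]; simp
    have hti : ∀ i, i ≠ i₀ → t i = s i := by
      intro i hi
      rw [ht]; simp [Finsupp.single_eq_of_ne hi]
    -- the other terms
    have hterm : ∀ i ∈ univ.erase i₀, ∃ p : MvPolynomial (Fin N) ℂ, p.IsHomogeneous (k + 2) ∧
        lap N p = monomial (t - Finsupp.single i 1 - Finsupp.single i 1)
          ((t i : ℂ) * ((t i - 1 : ℕ) : ℂ)) := by
      intro i hi
      have hne : i ≠ i₀ := (Finset.mem_erase.mp hi).1
      by_cases h2 : t i < 2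
      · refine ⟨0, isHomogeneous_zero _ _ _, ?_⟩
        have h3 : (t i : ℂ) * ((t i - 1 : ℕ) : ℂ) = 0 := by
          have : t i = 0 ∨ t i = 1 := by omega
          rcases this with h | h <;> simp [h]
        rw [h3, map_zero, monomial_zero]
      · push Not at h2
        set s' : Fin N →₀ ℕ := t - Finsupp.single i 1 - Finsupp.single i 1 with hs'
        have hs'i : s' i = t i - 2 := by
          rw [hs']
          simp only [Finsupp.tsub_apply, Finsupp.single_eq_same]
          omega
        have hs'j : ∀ j, j ≠ i → s' j = t j := by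
          intro j hj
          rw [hs']
          simp [Finsupp.single_eq_of_ne hj]
        have h4 : ∑ j ∈ univ.erase i₀, s' j < n := by
          rw [← hs]
          refine Finset.sum_lt_sum (fun j hj => ?_) ⟨i, hi, ?_⟩
          · have hj0 := (Finset.mem_erase.mp hj).1
            by_cases hji : j = i
            · rw [hji, hs'i, hti i hne]; omega
            · rw [hs'j j hji, hti j hj0]
          · rw [hs'i, hti i hne]
            have := hti i hne
            omega
        have h5 : s'.degree = k := by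
          have h6 : s' + Finsupp.single i 2 = t := by
            ext j
            by_cases hji : j = i
            · rw [hji]; simp only [Finsupp.add_apply, Finsupp.single_eq_same, hs'i]; omega
            · simp only [Finsupp.add_apply, Finsupp.single_eq_of_ne hji, hs'j j hji, add_zero]
          have h7 := congrArg Finsupp.degree h6
          rw [map_add, htdeg, Finsupp.degree_single] at h7
          omega
        obtain ⟨p, hp1, hp2⟩ := ih _ h4 s' rfl h5
        refine ⟨((t i : ℂ) * ((t i - 1 : ℕ) : ℂ)) • p, ?_, ?_⟩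
        · rw [MvPolynomial.smul_eq_C_mul]; exact hp1.C_mul _
        · rw [map_smul, hp2, smul_monomial, smul_eq_mul, mul_one]
    have hex : ∀ i, ∃ p : MvPolynomial (Fin N) ℂ, i ∈ univ.erase i₀ → p.IsHomogeneous (k + 2) ∧
        lap N p = monomial (t - Finsupp.single i 1 - Finsupp.single i 1)
          ((t i : ℂ) * ((t i - 1 : ℕ) : ℂ)) := by
      intro i
      by_cases hi : i ∈ univ.erase i₀
      · obtain ⟨p, hp⟩ := hterm i hi
        exact ⟨p, fun _ => hp⟩
      · exact ⟨0, fun h => absurd h hi⟩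
    choose q hq using hex
    set a : ℂ := (t i₀ : ℂ) * ((t i₀ - 1 : ℕ) : ℂ) with ha
    have ha0 : a ≠ 0 := by
      rw [ha, hti₀]
      have h1 : ((s i₀ + 2 : ℕ) : ℂ) ≠ 0 := by
        exact_mod_cast (by omega : s i₀ + 2 ≠ 0)
      have h2 : ((s i₀ + 2 - 1 : ℕ) : ℂ) ≠ 0 := by
        exact_mod_cast (by omega : s i₀ + 2 - 1 ≠ 0)
      exact mul_ne_zero h1 h2
    refine ⟨a⁻¹ • (monomial t 1 - ∑ i ∈ univ.erase i₀, q i), ?_, ?_⟩
    · rw [MvPolynomial.smul_eq_C_mul]
      refine IsHomogeneous.C_mul ?_ _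
      refine IsHomogeneous.sub (isHomogeneous_monomial 1 htdeg) ?_
      exact IsHomogeneous.sum _ _ _ fun i hi => (hq i hi).1
    · rw [map_smul, map_sub, map_sum, lap_monomial,
        ← Finset.add_sum_erase univ _ (Finset.mem_univ i₀),
        Finset.sum_congr rfl fun i hi => (hq i hi).2, add_sub_cancel_right, ← ha,
        smul_monomial, smul_eq_mul, inv_mul_cancel₀ ha0]
      congr 1
      congr 1
      ext j
      by_cases hj : j = i₀
      · rw [hj]
        simp only [Finsupp.tsub_apply, Finsupp.single_eq_same, hti₀]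
        omega
      · simp only [Finsupp.tsub_apply, Finsupp.single_eq_of_ne hj, hti j hj]
        omega

/-- the Laplacian is surjective on homogeneous polynomials -/
theorem lap_surj {N k : ℕ} (hN : 0 < N) (q : MvPolynomial (Fin N) ℂ) (hq : q.IsHomogeneous k) :
    ∃ p : MvPolynomial (Fin N) ℂ, p.IsHomogeneous (k + 2) ∧ lap N p = q := by
  classical
  have h1 : ∀ s, ∃ p : MvPolynomial (Fin N) ℂ, s ∈ q.support → p.IsHomogeneous (k + 2) ∧
      lap N p = monomial s 1 := by
    intro s
    by_cases hs : s ∈ q.support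
    · have hdeg : s.degree = k := by
        by_contra hne
        exact (MvPolynomial.mem_support_iff.mp hs) (hq.coeff_eq_zero hne)
      obtain ⟨p, hp⟩ := lap_surj_aux (⟨0, hN⟩ : Fin N) _ s rfl hdeg
      exact ⟨p, fun _ => hp⟩
    · exact ⟨0, fun h => absurd h hs⟩
  choose p hp using h1
  refine ⟨∑ s ∈ q.support, q.coeff s • p s, ?_, ?_⟩
  · refine IsHomogeneous.sum _ _ _ fun s hs => ?_
    rw [MvPolynomial.smul_eq_C_mul]
    exact (hp s hs).1.C_mul _
  · rw [map_sum]
    conv_rhs => rw [MvPolynomial.as_sum q]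
    refine Finset.sum_congr rfl fun s hs => ?_
    rw [map_smul, (hp s hs).2, smul_monomial, smul_eq_mul, mul_one]

/-- invariant homogeneous polynomials -/
noncomputable def inv {N : ℕ} (Γ : Subgroup (Og N)) (k : ℕ) :
    Submodule ℂ (MvPolynomial (Fin N) ℂ) where
  carrier := {p | p.IsHomogeneous k ∧ ∀ g ∈ Γ, act (toC N g) p = p}
  add_mem' := by
    rintro p q ⟨h1, h2⟩ ⟨h3, h4⟩
    exact ⟨h1.add h3, fun g hg => by rw [map_add, h2 g hg, h4 g hg]⟩
  zero_mem' := ⟨isHomogeneous_zero _ _ _, fun g _ => map_zero _⟩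
  smul_mem' := by
    rintro c p ⟨h1, h2⟩
    refine ⟨?_, fun g hg => by rw [map_smul, h2 g hg]⟩
    rw [MvPolynomial.smul_eq_C_mul]; exact h1.C_mul _

lemma mem_inv {N : ℕ} {Γ : Subgroup (Og N)} {k : ℕ} {p : MvPolynomial (Fin N) ℂ} :
    p ∈ inv Γ k ↔ p.IsHomogeneous k ∧ ∀ g ∈ Γ, act (toC N g) p = p := Iff.rfl

/-- invariant harmonic polynomials -/
noncomputable def harmInv {N : ℕ} (Γ : Subgroup (Og N)) (k : ℕ) :
    Submodule ℂ (MvPolynomial (Fin N) ℂ) := inv Γ k ⊓ LinearMap.ker (lap N)

lemma inv_le {N : ℕ} (Γ : Subgroup (Og N)) (k : ℕ) :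
    inv Γ k ≤ homogeneousSubmodule (Fin N) ℂ k := fun _ hp => hp.1

instance {N : ℕ} (Γ : Subgroup (Og N)) (k : ℕ) : Module.Finite ℂ (inv Γ k) :=
  Submodule.finiteDimensional_of_le (inv_le Γ k)

lemma toC_mul_transpose {N : ℕ} (g : Og N) : toC N g * (toC N g).transpose = 1 := by
  have h1 : (g : Matrix (Fin N) (Fin N) ℝ) * (g : Matrix (Fin N) (Fin N) ℝ).transpose = 1 :=
    (Matrix.mem_orthogonalGroup_iff _ _).mp g.2
  have h2 : (toC N g).transpose
      = (Complex.ofRealHom.mapMatrix) (g : Matrix (Fin N) (Fin N) ℝ).transpose := by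
    ext i j
    rw [toC_eq]
    simp
  rw [h2]
  have h3 : toC N g = (Complex.ofRealHom.mapMatrix) (g : Matrix (Fin N) (Fin N) ℝ) := rfl
  rw [h3, ← map_mul, h1, map_one]

theorem finrank_inv {N : ℕ} (hN : 0 < N) (Γ : Subgroup (Og N)) [Finite Γ] (k : ℕ) :
    Module.finrank ℂ (inv Γ (k + 2))
      = Module.finrank ℂ (inv Γ k) + Module.finrank ℂ (harmInv Γ (k + 2)) := by
  classical
  have : Fintype Γ := Fintype.ofFinite Γ
  have hmap : ∀ p ∈ inv Γ (k + 2), lap N p ∈ inv Γ k := by
    rintro p ⟨h1, h2⟩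
    exact ⟨lap_homog h1, fun g hg => by
      rw [← lap_act _ (toC_mul_transpose g), h2 g hg]⟩
  let f : inv Γ (k + 2) →ₗ[ℂ] inv Γ k := (lap N).restrict hmap
  have hsurj : Function.Surjective f := by
    rintro ⟨q, hq1, hq2⟩
    obtain ⟨p, hp1, hp2⟩ := lap_surj hN q hq1
    have hn0 : (Fintype.card Γ : ℂ) ≠ 0 := by
      exact_mod_cast Fintype.card_ne_zero
    set p' : MvPolynomial (Fin N) ℂ :=
      (Fintype.card Γ : ℂ)⁻¹ • ∑ g : Γ, act (toC N (g : Og N)) p with hp'
    have hp'inv : p' ∈ inv Γ (k + 2) := by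
      refine ⟨?_, fun h hh => ?_⟩
      · rw [hp', MvPolynomial.smul_eq_C_mul]
        refine IsHomogeneous.C_mul ?_ _
        exact IsHomogeneous.sum _ _ _ fun g _ => act_homog _ hp1
      · have h4 : act (toC N h) (∑ g : Γ, act (toC N (g : Og N)) p)
            = ∑ g : Γ, act (toC N (g : Og N)) p := by
          rw [map_sum]
          refine Fintype.sum_equiv (Equiv.mulRight (⟨h, hh⟩ : Γ)) _ _ fun g => ?_
          have h5 : ((Equiv.mulRight (⟨h, hh⟩ : Γ) g : Γ) : Og N) = (g : Og N) * h := rfl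
          rw [h5, map_mul, act_mul]
          rfl
        rw [hp', map_smul, h4]
    refine ⟨⟨p', hp'inv⟩, ?_⟩
    apply Subtype.ext
    change lap N p' = q
    rw [hp', map_smul, map_sum]
    have h3 : ∀ g : Γ, lap N (act (toC N (g : Og N)) p) = q := by
      intro g
      rw [lap_act _ (toC_mul_transpose _), hp2, hq2 g g.2]
    rw [Finset.sum_congr rfl fun g _ => h3 g, Finset.sum_const, Finset.card_univ,
      ← Nat.cast_smul_eq_nsmul ℂ, smul_smul, inv_mul_cancel₀ hn0, one_smul]
  have h1 := LinearMap.finrank_range_add_finrank_ker f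
  rw [LinearMap.range_eq_top.mpr hsurj, finrank_top] at h1
  have h2 : Module.finrank ℂ (LinearMap.ker f) = Module.finrank ℂ (harmInv Γ (k + 2)) := by
    have h3 : (LinearMap.ker f).map (inv Γ (k + 2)).subtype = harmInv Γ (k + 2) := by
      ext p
      rw [Submodule.mem_map]
      constructor
      · rintro ⟨x, hx, rfl⟩
        refine ⟨x.2, ?_⟩
        have h4 := congrArg Subtype.val (LinearMap.mem_ker.mp hx)
        exact h4
      · rintro ⟨hp1, hp2⟩
        exact ⟨⟨p, hp1⟩, LinearMap.mem_ker.mpr (Subtype.ext hp2), rfl⟩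
    rw [← h3]
    exact (Submodule.equivMapOfInjective _ Subtype.val_injective _).finrank_eq
  rw [← h1, h2]

lemma harmInv_low {N : ℕ} (Γ : Subgroup (Og N)) (k : ℕ) (hk : k < 2) :
    harmInv Γ k = inv Γ k := by
  apply le_antisymm inf_le_left
  intro p hp
  refine ⟨hp, ?_⟩
  rw [SetLike.mem_coe, LinearMap.mem_ker, lap_apply]
  refine Finset.sum_eq_zero fun i _ => ?_
  obtain ⟨hp1, _⟩ := hp
  have h1 : (pderiv i p).IsHomogeneous (k - 1) := hp1.pderiv
  have h2 : k - 1 = 0 := by omega
  rw [h2] at h1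
  have h3 := (totalDegree_zero_iff_isHomogeneous _).mpr h1
  rw [totalDegree_eq_zero_iff_eq_C] at h3
  rw [h3, pderiv_C]

/-- Equality of the dimensions of harmonic invariants gives equality of the dimensions of all
homogeneous invariants. -/
theorem finrank_inv_eq {N : ℕ} (hN : 0 < N) (Γ Γ' : Subgroup (Og N)) [Finite Γ] [Finite Γ']
    (h : ∀ k, Module.finrank ℂ (harmInv Γ k) = Module.finrank ℂ (harmInv Γ' k)) (k : ℕ) :
    Module.finrank ℂ (inv Γ k) = Module.finrank ℂ (inv Γ' k) := by
  induction k using Nat.strong_induction_on with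
  | _ k ih =>
    by_cases hk : k < 2
    · rw [← harmInv_low Γ k hk, ← harmInv_low Γ' k hk, h k]
    · obtain ⟨l, rfl⟩ : ∃ l, k = l + 2 := ⟨k - 2, by omega⟩
      rw [finrank_inv hN, finrank_inv hN, ih l (by omega), h (l + 2)]

end Pool.Agent.Helper78.Harm
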