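import Mathlib
import Pool.Agent.Helper78.Harm

/-!
Molien's formula and the resulting identity of rational functions.
-/

namespace Pool.Agent.Helper78.Molien

open MvPolynomial Finset
open Pool.Agent.Helper78.Eigen Pool.Agent.Helper78.Act Pool.Agent.Helper78.Harm

/-- the representation on homogeneous polynomials of degree `k` -/
noncomputable def rho {N : ℕ} (Γ : Subgroup (Og N)) (k : ℕ) :
    Representation ℂ Γ (homogeneousSubmodule (Fin N) ℂ k) where
  toFun g := actW (toC N (g : Og N)⁻¹) k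
  map_one' := by
    rw [Subgroup.coe_one, inv_one, map_one, actW_one]
  map_mul' g h := by
    rw [Subgroup.coe_mul, mul_inv_rev, map_mul, actW_mul]

lemma rho_apply {N : ℕ} (Γ : Subgroup (Og N)) (k : ℕ) (g : Γ) :
    rho Γ k g = actW (toC N (g : Og N)⁻¹) k := rfl

lemma finrank_invariants {N : ℕ} (Γ : Subgroup (Og N)) (k : ℕ) :
    Module.finrank ℂ (Representation.invariants (rho Γ k)) = Module.finrank ℂ (inv Γ k) := by
  have h3 : (Representation.invariants (rho Γ k)).map (homogeneousSubmodule (Fin N) ℂ k).subtype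
      = inv Γ k := by
    ext p
    rw [Submodule.mem_map]
    constructor
    · rintro ⟨x, hx, rfl⟩
      refine ⟨x.2, fun g hg => ?_⟩
      rw [Representation.mem_invariants] at hx
      have h4 := congrArg Subtype.val (hx ⟨g, hg⟩⁻¹)
      rw [rho_apply, actW_coe] at h4
      simpa using h4
    · rintro ⟨hp1, hp2⟩
      refine ⟨⟨p, hp1⟩, ?_, rfl⟩
      rw [Representation.mem_invariants]
      intro g
      apply Subtype.ext
      rw [rho_apply, actW_coe]
      exact hp2 _ (inv_mem g.2)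
  rw [← h3]
  exact (Submodule.equivMapOfInjective _ Subtype.val_injective _).finrank_eq

/-- Molien's formula in degree `k` -/
theorem molien {N : ℕ} (Γ : Subgroup (Og N)) [Fintype Γ] (k : ℕ) :
    ∑ g : Γ, LinearMap.trace ℂ _ (actW (toC N (g : Og N)) k)
      = (Nat.card Γ : ℂ) * (Module.finrank ℂ (inv Γ k) : ℂ) := by
  have hn0 : (Nat.card Γ : ℂ) ≠ 0 := by
    exact_mod_cast Nat.card_pos.ne'
  have : Invertible (Nat.card Γ : ℂ) := invertibleOfNonzero hn0
  have h1 := Representation.card_inv_mul_sum_char_eq_finrank (rho Γ k)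
  rw [finrank_invariants] at h1
  rw [← h1, ← mul_assoc, mul_inv_cancel₀ hn0, one_mul]
  refine Fintype.sum_equiv (Equiv.inv Γ) _ _ fun g => ?_
  rw [Representation.character, rho_apply]
  simp

open PowerSeries in
/-- generating series of traces -/
noncomputable def ser {N : ℕ} (g : Og N) : ℂ⟦X⟧ :=
  PowerSeries.mk fun k => LinearMap.trace ℂ _ (actW (toC N g) k)

/-- the polynomial `det (1 - z g)` through the eigenvalues -/
noncomputable def pol {N : ℕ} (g : Og N) : Polynomial ℂ :=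
  ((ev g).map fun a => 1 - Polynomial.C a * Polynomial.X).prod

lemma geom_aux (a : ℂ) :
    ((1 - Polynomial.C a * Polynomial.X : Polynomial ℂ) : PowerSeries ℂ) *
      PowerSeries.mk (fun n => a ^ n) = 1 := by
  ext n
  rw [Polynomial.coe_sub, Polynomial.coe_one, Polynomial.coe_mul, Polynomial.coe_C,
    Polynomial.coe_X, sub_mul, one_mul, map_sub, PowerSeries.coeff_mk, mul_assoc,
    PowerSeries.coeff_C_mul]
  cases n with
  | zero => simp
  | succ n =>
    rw [PowerSeries.coeff_succ_X_mul, PowerSeries.coeff_mk, PowerSeries.coeff_one,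
      if_neg (Nat.succ_ne_zero n)]
    ring

lemma pol_mul_ser {N : ℕ} {g : Og N} (hg : IsOfFinOrder g) :
    ((pol g : Polynomial ℂ) : PowerSeries ℂ) * ser g = 1 := by
  classical
  obtain ⟨U, d, hU, h⟩ := exists_diag' g hg
  have h1 : ser g = ∏ i, PowerSeries.mk (fun n => d i ^ n) := by
    ext k
    rw [ser, PowerSeries.coeff_mk, trace_actW hU h, PowerSeries.coeff_prod, Sk]
    refine Finset.sum_congr rfl fun s _ => ?_
    refine Finset.prod_congr rfl fun i _ => ?_
    rw [PowerSeries.coeff_mk]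
  have h2 : pol g = ∏ i, (1 - Polynomial.C (d i) * Polynomial.X) := by
    rw [pol, ev_of_diag hU h, Multiset.map_map]
    rfl
  have h3 : ((∏ i, (1 - Polynomial.C (d i) * Polynomial.X) : Polynomial ℂ) : PowerSeries ℂ)
      = ∏ i, ((1 - Polynomial.C (d i) * Polynomial.X : Polynomial ℂ) : PowerSeries ℂ) := by
    rw [← Polynomial.coeToPowerSeries.ringHom_apply, map_prod]
    rfl
  rw [h1, h2, h3, ← Finset.prod_mul_distrib]
  exact Finset.prod_eq_one fun i _ => geom_aux (d i)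

section rational

variable {ι : Type*} [DecidableEq ι]

lemma prod_mul_sum (s : Finset ι) (p : ι → Polynomial ℂ) (H : ι → PowerSeries ℂ)
    (h : ∀ i ∈ s, (p i : PowerSeries ℂ) * H i = 1) :
    ((∏ i ∈ s, p i : Polynomial ℂ) : PowerSeries ℂ) * ∑ i ∈ s, H i
      = ((∑ i ∈ s, ∏ j ∈ s.erase i, p j : Polynomial ℂ) : PowerSeries ℂ) := by
  rw [Finset.mul_sum]
  have h2 : ((∑ i ∈ s, ∏ j ∈ s.erase i, p j : Polynomial ℂ) : PowerSeries ℂ)
      = ∑ i ∈ s, ((∏ j ∈ s.erase i, p j : Polynomial ℂ) : PowerSeries ℂ) := by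
    rw [← Polynomial.coeToPowerSeries.ringHom_apply, map_sum]
    rfl
  rw [h2]
  refine Finset.sum_congr rfl fun i hi => ?_
  rw [← Finset.mul_prod_erase s p hi, Polynomial.coe_mul]
  calc (p i : PowerSeries ℂ) * ((∏ j ∈ s.erase i, p j : Polynomial ℂ) : PowerSeries ℂ) * H i
      = ((p i : PowerSeries ℂ) * H i) * ((∏ j ∈ s.erase i, p j : Polynomial ℂ) : PowerSeries ℂ) := by
        ring
    _ = _ := by rw [h i hi, one_mul]

lemma sum_inv_eval (s : Finset ι) (p : ι → Polynomial ℂ) (z : ℂ)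
    (h : ∀ i ∈ s, (p i).eval z ≠ 0) :
    ∑ i ∈ s, ((p i).eval z)⁻¹
      = (∑ i ∈ s, ∏ j ∈ s.erase i, p j).eval z / (∏ i ∈ s, p i).eval z := by
  rw [Polynomial.eval_finsetSum, Polynomial.eval_prod, Finset.sum_div]
  refine Finset.sum_congr rfl fun i hi => ?_
  rw [Polynomial.eval_prod, ← Finset.mul_prod_erase s (fun i => (p i).eval z) hi,
    div_mul_eq_div_div_swap, div_self, one_div]
  exact Finset.prod_ne_zero_iff.mpr fun j hj => h j (Finset.mem_of_mem_erase hj)

/-- Equality of sums of inverse polynomials as power series gives equality of values. -/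
theorem eval_eq_of_series_eq {ι' : Type*} [DecidableEq ι'] (s : Finset ι) (s' : Finset ι')
    (p : ι → Polynomial ℂ) (p' : ι' → Polynomial ℂ) (H : ι → PowerSeries ℂ)
    (H' : ι' → PowerSeries ℂ) (h : ∀ i ∈ s, (p i : PowerSeries ℂ) * H i = 1)
    (h' : ∀ i ∈ s', (p' i : PowerSeries ℂ) * H' i = 1)
    (heq : ∑ i ∈ s, H i = ∑ i ∈ s', H' i) (z : ℂ)
    (hz : ∀ i ∈ s, (p i).eval z ≠ 0) (hz' : ∀ i ∈ s', (p' i).eval z ≠ 0) :
    ∑ i ∈ s, ((p i).eval z)⁻¹ = ∑ i ∈ s', ((p' i).eval z)⁻¹ := by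
  have h1 := prod_mul_sum s p H h
  have h2 := prod_mul_sum s' p' H' h'
  set D := ∏ i ∈ s, p i with hD
  set D' := ∏ i ∈ s', p' i with hD'
  set M := ∑ i ∈ s, ∏ j ∈ s.erase i, p j with hM
  set M' := ∑ i ∈ s', ∏ j ∈ s'.erase i, p' j with hM'
  have h3 : ((M * D' : Polynomial ℂ) : PowerSeries ℂ) = ((M' * D : Polynomial ℂ) : PowerSeries ℂ) := by
    rw [Polynomial.coe_mul, Polynomial.coe_mul, ← h1, ← h2, heq]
    ring
  have h4 : M * D' = M' * D := Polynomial.coe_injective ℂ h3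
  rw [sum_inv_eval s p z hz, sum_inv_eval s' p' z hz', div_eq_div_iff]
  · rw [← Polynomial.eval_mul, ← Polynomial.eval_mul]
    exact congrArg (Polynomial.eval z) h4
  · rw [Polynomial.eval_prod]; exact Finset.prod_ne_zero_iff.mpr hz
  · rw [Polynomial.eval_prod]; exact Finset.prod_ne_zero_iff.mpr hz'

end rational

/-- Isospectral groups have the same average of `1 / det (1 - z g)`. -/
theorem rational_identity {N : ℕ} (hN : 0 < N) (Γ Γ' : Subgroup (Og N)) [Fintype Γ] [Fintype Γ']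
    (h : ∀ k, Module.finrank ℂ (harmInv Γ k) = Module.finrank ℂ (harmInv Γ' k)) (z : ℂ)
    (hz : ∀ g : Γ, (pol (g : Og N)).eval z ≠ 0) (hz' : ∀ g : Γ', (pol (g : Og N)).eval z ≠ 0) :
    (Nat.card Γ : ℂ)⁻¹ * ∑ g : Γ, ((pol (g : Og N)).eval z)⁻¹
      = (Nat.card Γ' : ℂ)⁻¹ * ∑ g : Γ', ((pol (g : Og N)).eval z)⁻¹ := by
  classical
  have hfo : ∀ (Δ : Subgroup (Og N)) [Finite Δ] (g : Δ), IsOfFinOrder (g : Og N) := by
    intro Δ _ g
    exact MonoidHom.isOfFinOrder Δ.subtype (isOfFinOrder_of_finite g)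
  have hc : ∀ (Δ : Subgroup (Og N)) [Fintype Δ], (Nat.card Δ : ℂ) ≠ 0 := by
    intro Δ _
    exact_mod_cast Nat.card_pos.ne'
  have hps : ∀ (Δ : Subgroup (Og N)) [Fintype Δ] (g : Δ),
      ((Polynomial.C (Nat.card Δ : ℂ) * pol (g : Og N) : Polynomial ℂ) : PowerSeries ℂ) *
        (PowerSeries.C (Nat.card Δ : ℂ)⁻¹ * ser (g : Og N)) = 1 := by
    intro Δ _ g
    rw [Polynomial.coe_mul, Polynomial.coe_C]
    calc PowerSeries.C (Nat.card Δ : ℂ) * ((pol (g : Og N) : Polynomial ℂ) : PowerSeries ℂ) *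
          (PowerSeries.C (Nat.card Δ : ℂ)⁻¹ * ser (g : Og N))
        = (PowerSeries.C (Nat.card Δ : ℂ) * PowerSeries.C (Nat.card Δ : ℂ)⁻¹) *
          (((pol (g : Og N) : Polynomial ℂ) : PowerSeries ℂ) * ser (g : Og N)) := by ring
      _ = 1 := by
        rw [pol_mul_ser (hfo Δ g), mul_one, ← map_mul, mul_inv_cancel₀ (hc Δ), map_one]
  have key := eval_eq_of_series_eq univ univ
    (fun g : Γ => Polynomial.C (Nat.card Γ : ℂ) * pol (g : Og N))
    (fun g : Γ' => Polynomial.C (Nat.card Γ' : ℂ) * pol (g : Og N))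
    (fun g : Γ => PowerSeries.C (Nat.card Γ : ℂ)⁻¹ * ser (g : Og N))
    (fun g : Γ' => PowerSeries.C (Nat.card Γ' : ℂ)⁻¹ * ser (g : Og N))
    (fun g _ => hps Γ g) (fun g _ => hps Γ' g) (by
      rw [← Finset.mul_sum, ← Finset.mul_sum]
      ext k
      rw [PowerSeries.coeff_C_mul, PowerSeries.coeff_C_mul, map_sum, map_sum]
      simp only [ser, PowerSeries.coeff_mk]
      rw [molien, molien, finrank_inv_eq hN Γ Γ' h k, ← mul_assoc, ← mul_assoc,
        inv_mul_cancel₀ (hc Γ), inv_mul_cancel₀ (hc Γ')]) z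
    (fun g _ => by
      rw [Polynomial.eval_mul, Polynomial.eval_C]; exact mul_ne_zero (hc Γ) (hz g))
    (fun g _ => by
      rw [Polynomial.eval_mul, Polynomial.eval_C]; exact mul_ne_zero (hc Γ') (hz' g))
  simp only [Polynomial.eval_mul, Polynomial.eval_C, mul_inv] at key
  rw [← Finset.mul_sum, ← Finset.mul_sum] at key
  exact key

end Pool.Agent.Helper78.Molien
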