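import Mathlib
import Pool.Agent.Helper78.Molien
import Pool.Agent.Helper78.GroupBound

/-!
The leading coefficient at a pole of the Molien series of a group acting freely.
-/

namespace Pool.Agent.Helper78.Limit

open Finset Filter Topology
open Pool.Agent.Helper78.Eigen Pool.Agent.Helper78.Harm Pool.Agent.Helper78.Molien

lemma eval_pol {N : ℕ} (g : Og N) (z : ℂ) :
    (pol g).eval z = ((ev g).map fun a => 1 - a * z).prod := by
  rw [pol, Polynomial.eval_multiset_prod, Multiset.map_map]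
  congr 1
  refine Multiset.map_congr rfl fun a _ => ?_
  simp

lemma norm_ev {N : ℕ} {g : Og N} (hg : IsOfFinOrder g) {a : ℂ} (ha : a ∈ ev g) : ‖a‖ = 1 := by
  obtain ⟨U, d, hU, h⟩ := exists_diag' g hg
  rw [ev_of_diag hU h, Multiset.mem_map] at ha
  obtain ⟨i, _, rfl⟩ := ha
  have h1 := diag_pow h (orderOf g)
  rw [← map_pow, pow_orderOf_eq_one, map_one, one_mul] at h1
  obtain ⟨u, rfl⟩ := hU
  have h2 : (1 : Matrix (Fin N) (Fin N) ℂ) = Matrix.diagonal (fun i => d i ^ orderOf g) := by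
    apply u.mul_right_inj.mp
    rw [mul_one]
    exact h1
  have h3 := congrFun (congrFun h2 i) i
  rw [Matrix.one_apply_eq, Matrix.diagonal_apply_eq] at h3
  exact Complex.norm_eq_one_of_pow_eq_one h3.symm hg.orderOf_pos.ne'

lemma eval_pol_ne {N : ℕ} {g : Og N} (hg : IsOfFinOrder g) {z : ℂ} (hz : ‖z‖ < 1) :
    (pol g).eval z ≠ 0 := by
  rw [eval_pol]
  apply Multiset.prod_ne_zero
  intro h0
  rw [Multiset.mem_map] at h0
  obtain ⟨a, ha, h1⟩ := h0
  have h2 : a * z = 1 := (sub_eq_zero.mp h1).symm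
  have h3 := congrArg norm h2
  rw [norm_mul, norm_ev hg ha, one_mul, norm_one] at h3
  linarith

/-- product over the eigenvalues different from `ζ` -/
noncomputable def lead {N : ℕ} (g : Og N) (ζ : ℂ) : ℂ :=
  (((ev g).filter (fun a => a ≠ ζ)).map fun a => 1 - a * ζ⁻¹).prod

lemma lead_ne {N : ℕ} (g : Og N) (ζ : ℂ) (hζ : ζ ≠ 0) : lead g ζ ≠ 0 := by
  apply Multiset.prod_ne_zero
  intro h0
  rw [Multiset.mem_map] at h0
  obtain ⟨a, ha, h1⟩ := h0
  rw [Multiset.mem_filter] at ha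
  apply ha.2
  have h2 : a * ζ⁻¹ = 1 := (sub_eq_zero.mp h1).symm
  field_simp at h2
  exact h2

lemma ev_split {N : ℕ} (g : Og N) (ζ : ℂ) :
    ev g = Multiset.replicate ((ev g).count ζ) ζ + (ev g).filter (fun a => a ≠ ζ) := by
  have h := Multiset.filter_add_not (fun a => a = ζ) (ev g)
  rw [Multiset.filter_eq'] at h
  exact h.symm

lemma tendsto_lead {N : ℕ} {g : Og N} (ζ : ℂ) (hζ : ζ ≠ 0) (A : ℕ)
    (hA : (ev g).count ζ ≤ A) :
    Tendsto (fun r : ℝ => ((1 - r : ℝ) : ℂ) ^ A * ((pol g).eval ((r : ℂ) * ζ⁻¹))⁻¹) (𝓝[<] 1)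
      (𝓝 (if (ev g).count ζ = A then (lead g ζ)⁻¹ else 0)) := by
  set c := (ev g).count ζ with hc
  set m := (ev g).filter (fun a => a ≠ ζ) with hm
  -- the value of the polynomial
  have h1 : ∀ r : ℝ, (pol g).eval ((r : ℂ) * ζ⁻¹)
      = ((1 - r : ℝ) : ℂ) ^ c * (m.map fun a => 1 - a * ((r : ℂ) * ζ⁻¹)).prod := by
    intro r
    rw [eval_pol, ev_split g ζ, Multiset.map_add, Multiset.prod_add, Multiset.map_replicate,
      Multiset.prod_replicate]
    congr 2
    push_cast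
    field_simp
  have h2 : Tendsto (fun r : ℝ => (m.map fun a => 1 - a * ((r : ℂ) * ζ⁻¹)).prod) (𝓝[<] 1)
      (𝓝 (lead g ζ)) := by
    have h3 : lead g ζ = (m.map fun a => 1 - a * (((1 : ℝ) : ℂ) * ζ⁻¹)).prod := by
      simp only [Complex.ofReal_one, one_mul]
      rfl
    rw [h3]
    refine tendsto_multiset_prod m fun a _ => ?_
    have h4 : Continuous fun r : ℝ => 1 - a * ((r : ℂ) * ζ⁻¹) := by fun_prop
    exact (h4.tendsto 1).mono_left nhdsWithin_le_nhds
  have h3 : Tendsto (fun r : ℝ => ((1 - r : ℝ) : ℂ) ^ (A - c) *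
      ((m.map fun a => 1 - a * ((r : ℂ) * ζ⁻¹)).prod)⁻¹) (𝓝[<] 1)
      (𝓝 ((0 : ℂ) ^ (A - c) * (lead g ζ)⁻¹)) := by
    refine Tendsto.mul ?_ (h2.inv₀ (lead_ne g ζ hζ))
    have h4 : Continuous fun r : ℝ => ((1 - r : ℝ) : ℂ) ^ (A - c) := by fun_prop
    have h5 := (h4.tendsto 1).mono_left (nhdsWithin_le_nhds (s := Set.Iio (1 : ℝ)))
    simpa using h5
  have h4 : (if c = A then (lead g ζ)⁻¹ else 0) = (0 : ℂ) ^ (A - c) * (lead g ζ)⁻¹ := by
    split_ifs with h
    · rw [h, Nat.sub_self, pow_zero, one_mul]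
    · rw [zero_pow (by omega), zero_mul]
  rw [h4]
  refine h3.congr' ?_
  filter_upwards [self_mem_nhdsWithin] with r hr
  have hr1 : ((1 - r : ℝ) : ℂ) ≠ 0 := by
    have : (1 - r : ℝ) ≠ 0 := by
      have : r < 1 := hr
      linarith
    exact_mod_cast this
  rw [h1 r, mul_inv]
  have h5 : ((1 - r : ℝ) : ℂ) ^ A = ((1 - r : ℝ) : ℂ) ^ (A - c) * ((1 - r : ℝ) : ℂ) ^ c := by
    rw [← pow_add, Nat.sub_add_cancel hA]
  rw [h5]
  have h6 : ((1 - r : ℝ) : ℂ) ^ c ≠ 0 := pow_ne_zero _ hr1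
  rw [mul_assoc, ← mul_assoc (((1 - r : ℝ) : ℂ) ^ c), mul_inv_cancel₀ h6, one_mul]

/-- Equality of the averaged leading coefficients. -/
theorem lead_sum_eq' {N : ℕ} (hN : 0 < N) (Γ Γ' : Subgroup (Og N)) [Fintype Γ] [Fintype Γ']
    (h : ∀ k, Module.finrank ℂ (harmInv Γ k) = Module.finrank ℂ (harmInv Γ' k))
    (ζ : ℂ) (hζ : ‖ζ‖ = 1) (A : ℕ) (hA : ∀ g : Γ, (ev (g : Og N)).count ζ ≤ A)
    (hA' : ∀ g : Γ', (ev (g : Og N)).count ζ ≤ A) :
    (Nat.card Γ : ℂ)⁻¹ *
        ∑ g : Γ, (if (ev (g : Og N)).count ζ = A then (lead (g : Og N) ζ)⁻¹ else 0)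
      = (Nat.card Γ' : ℂ)⁻¹ *
        ∑ g : Γ', (if (ev (g : Og N)).count ζ = A then (lead (g : Og N) ζ)⁻¹ else 0) := by
  have hζ0 : ζ ≠ 0 := by
    intro h0; rw [h0, norm_zero] at hζ; exact zero_ne_one hζ
  have hT : ∀ (Δ : Subgroup (Og N)) [Fintype Δ], (∀ g : Δ, (ev (g : Og N)).count ζ ≤ A) →
      Tendsto (fun r : ℝ => (Nat.card Δ : ℂ)⁻¹ * ∑ g : Δ, ((1 - r : ℝ) : ℂ) ^ A *
      ((pol (g : Og N)).eval ((r : ℂ) * ζ⁻¹))⁻¹) (𝓝[<] 1)
      (𝓝 ((Nat.card Δ : ℂ)⁻¹ *
        ∑ g : Δ, (if (ev (g : Og N)).count ζ = A then (lead (g : Og N) ζ)⁻¹ else 0))) :=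
    fun Δ _ hΔ => (tendsto_finsetSum _ fun g _ => tendsto_lead ζ hζ0 A (hΔ g)).const_mul _
  refine tendsto_nhds_unique (hT Γ hA) ((hT Γ' hA').congr' ?_)
  filter_upwards [Ioo_mem_nhdsLT (show (0 : ℝ) < 1 by norm_num)] with r hr
  have hz : ‖(r : ℂ) * ζ⁻¹‖ < 1 := by
    rw [norm_mul, norm_inv, hζ, inv_one, mul_one, Complex.norm_real, Real.norm_eq_abs,
      abs_of_pos hr.1]
    exact hr.2
  rw [← Finset.mul_sum, ← Finset.mul_sum, mul_left_comm, mul_left_comm (Nat.card Γ : ℂ)⁻¹]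
  congr 1
  have hfo : ∀ (Δ : Subgroup (Og N)) [Finite Δ] (g : Δ), IsOfFinOrder (g : Og N) := by
    intro Δ _ g
    exact MonoidHom.isOfFinOrder Δ.subtype (isOfFinOrder_of_finite g)
  exact (rational_identity hN Γ Γ' h _ (fun g => eval_pol_ne (hfo Γ g) hz)
    (fun g => eval_pol_ne (hfo Γ' g) hz)).symm

lemma ev_one (N : ℕ) : ev (1 : Og N) = Multiset.replicate N 1 := by
  have h1 : toC N (1 : Og N) * 1 = 1 * Matrix.diagonal (fun _ => (1 : ℂ)) := by
    rw [map_one, Matrix.diagonal_one]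
  rw [ev_of_diag isUnit_one h1, Multiset.map_const']
  simp

/-- Isospectral spherical space forms have the same volume. -/
theorem card_eq {N : ℕ} (hN : 0 < N) (Γ Γ' : Subgroup (Og N)) [Finite Γ] [Finite Γ']
    (hfree : Free Γ) (hfree' : Free Γ')
    (h : ∀ k, Module.finrank ℂ (harmInv Γ k) = Module.finrank ℂ (harmInv Γ' k)) :
    Nat.card Γ = Nat.card Γ' := by
  classical
  have : Fintype Γ := Fintype.ofFinite _
  have : Fintype Γ' := Fintype.ofFinite _
  have key : ∀ (Δ : Subgroup (Og N)) [Fintype Δ], Free Δ →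
      (∀ g : Δ, (ev (g : Og N)).count 1 ≤ N) ∧
      ∑ g : Δ, (if (ev (g : Og N)).count 1 = N then (lead (g : Og N) 1)⁻¹ else 0) = 1 := by
    intro Δ _ hΔ
    have hfo : ∀ g : Δ, IsOfFinOrder (g : Og N) := fun g =>
      MonoidHom.isOfFinOrder Δ.subtype (isOfFinOrder_of_finite g)
    refine ⟨fun g => ?_, ?_⟩
    · calc (ev (g : Og N)).count 1 ≤ Multiset.card (ev (g : Og N)) := Multiset.count_le_card _ _
        _ = N := card_ev (hfo g)
    · rw [Finset.sum_eq_single (1 : Δ)]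
      · rw [Subgroup.coe_one, ev_one, Multiset.count_replicate_self, if_pos rfl, lead, ev_one]
        have h1 : (Multiset.replicate N (1 : ℂ)).filter (fun a => a ≠ 1) = 0 := by
          rw [Multiset.filter_eq_nil]
          intro a ha
          rw [Multiset.eq_of_mem_replicate ha]
          simp
        rw [h1]; simp
      · intro g _ hg
        rw [if_neg]
        intro hc
        have h1 : (1 : ℂ) ∈ ev (g : Og N) := by
          rw [← Multiset.count_pos, hc]; exact hN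
        have h2 := isPrimitiveRoot_of_mem_ev hΔ g.2 (hfo g) h1
        have h3 : orderOf (g : Og N) = 1 := h2.unique IsPrimitiveRoot.one
        apply hg
        apply Subtype.ext
        exact orderOf_eq_one_iff.mp h3
      · intro h; exact absurd (Finset.mem_univ _) h
  obtain ⟨h1, h2⟩ := key Γ hfree
  obtain ⟨h3, h4⟩ := key Γ' hfree'
  have h5 := lead_sum_eq' hN Γ Γ' h 1 (by simp) N h1 h3
  rw [h2, h4, mul_one, mul_one, inv_inj] at h5
  exact_mod_cast h5

/-- Equality of the leading coefficients. -/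
theorem lead_sum_eq {N : ℕ} (hN : 0 < N) (Γ Γ' : Subgroup (Og N)) [Fintype Γ] [Fintype Γ']
    (hcard : Nat.card Γ = Nat.card Γ')
    (h : ∀ k, Module.finrank ℂ (harmInv Γ k) = Module.finrank ℂ (harmInv Γ' k))
    (ζ : ℂ) (hζ : ‖ζ‖ = 1) (A : ℕ) (hA : ∀ g : Γ, (ev (g : Og N)).count ζ ≤ A)
    (hA' : ∀ g : Γ', (ev (g : Og N)).count ζ ≤ A) :
    ∑ g : Γ, (if (ev (g : Og N)).count ζ = A then (lead (g : Og N) ζ)⁻¹ else 0)
      = ∑ g : Γ', (if (ev (g : Og N)).count ζ = A then (lead (g : Og N) ζ)⁻¹ else 0) := by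
  have h1 := lead_sum_eq' hN Γ Γ' h ζ hζ A hA hA'
  rw [← hcard] at h1
  have h2 : (Nat.card Γ : ℂ)⁻¹ ≠ 0 := by
    apply inv_ne_zero
    exact_mod_cast Nat.card_pos.ne'
  exact mul_left_cancel₀ h2 h1

/-- eigenvalues in the upper half plane different from `ζ` -/
noncomputable def up {N : ℕ} (g : Og N) (ζ : ℂ) : Multiset ℂ :=
  (ev g).filter (fun a => 0 < a.im ∧ a ≠ ζ)

lemma im_ne_zero {a : ℂ} {e : ℕ} (he : 3 ≤ e) (ha : IsPrimitiveRoot a e) : a.im ≠ 0 := by
  intro h0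
  have hn : ‖a‖ = 1 := Complex.norm_eq_one_of_pow_eq_one ha.pow_eq_one (by omega)
  have h1 : a = (a.re : ℂ) := by
    apply Complex.ext
    · simp
    · simp [h0]
  have h2 : a ^ 2 = 1 := by
    rw [h1] at hn ⊢
    rw [Complex.norm_real, Real.norm_eq_abs] at hn
    have : a.re ^ 2 = 1 := by rw [← sq_abs, hn, one_pow]
    exact_mod_cast this
  have h3 := ha.dvd_of_pow_eq_one 2 h2
  have h4 := Nat.le_of_dvd (by norm_num) h3
  omega

/-- structure of the spectrum -/
lemma ev_struct {N : ℕ} {g : Og N} (hg : IsOfFinOrder g) {e : ℕ} (he : 3 ≤ e)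
    (hprim : ∀ a ∈ ev g, IsPrimitiveRoot a e) (ζ : ℂ) (hζ : 0 < ζ.im) :
    (ev g).filter (fun a => a ≠ ζ) = up g ζ + (Multiset.replicate ((ev g).count ζ)
      ((starRingEnd ℂ) ζ) + (up g ζ).map (starRingEnd ℂ)) ∧
    ev g = (Multiset.replicate ((ev g).count ζ) ζ + up g ζ) +
      (Multiset.replicate ((ev g).count ζ) ζ + up g ζ).map (starRingEnd ℂ) := by
  -- upper part
  have h1 : (ev g).filter (fun a => 0 < a.im) = Multiset.replicate ((ev g).count ζ) ζ + up g ζ := by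
    have h := Multiset.filter_add_not (fun a => a = ζ) ((ev g).filter (fun a => 0 < a.im))
    rw [Multiset.filter_eq', Multiset.filter_filter,
      Multiset.count_filter_of_pos (p := fun a : ℂ => 0 < a.im) hζ] at h
    rw [← h]
    congr 1
    rw [up]
    congr 1
    funext a
    exact propext and_comm
  -- lower part
  have h2 : (ev g).filter (fun a => ¬ 0 < a.im)
      = ((ev g).filter (fun a => 0 < a.im)).map (starRingEnd ℂ) := by
    have h3 : (ev g).filter (fun a => ¬ 0 < a.im) = (ev g).filter (fun a => a.im < 0) := by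
      refine Multiset.filter_congr fun a ha => ?_
      have := im_ne_zero he (hprim a ha)
      constructor
      · intro h; exact lt_of_le_of_ne (not_lt.mp h) this
      · intro h; exact not_lt.mpr h.le
    rw [h3]
    conv_lhs => rw [← map_conj_ev hg]
    rw [Multiset.filter_map]
    congr 1
    refine Multiset.filter_congr fun a _ => ?_
    simp
  have h4 := Multiset.filter_add_not (fun a : ℂ => 0 < a.im) (ev g)
  refine ⟨?_, ?_⟩
  · conv_lhs => rw [← h4]
    rw [Multiset.filter_add, h2, h1]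
    have h5 : ((Multiset.replicate ((ev g).count ζ) ζ + up g ζ).filter fun a => a ≠ ζ)
        = up g ζ := by
      rw [Multiset.filter_add]
      have h6 : (Multiset.replicate ((ev g).count ζ) ζ).filter (fun a => a ≠ ζ) = 0 := by
        rw [Multiset.filter_eq_nil]
        intro a ha
        rw [Multiset.eq_of_mem_replicate ha]
        simp
      rw [h6, zero_add, Multiset.filter_eq_self]
      intro a ha
      rw [up, Multiset.mem_filter] at ha
      exact ha.2.2
    rw [h5]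
    congr 1
    rw [← h1, ← h2]
    rw [Multiset.filter_eq_self.mpr]
    · rw [h2, h1, Multiset.map_add, Multiset.map_replicate]
    · intro a ha
      rw [Multiset.mem_filter] at ha
      rintro rfl
      exact ha.2 hζ
  · conv_lhs => rw [← h4]
    rw [h2, h1]

lemma card_up {N : ℕ} {g : Og N} (hg : IsOfFinOrder g) {e : ℕ} (he : 3 ≤ e)
    (hprim : ∀ a ∈ ev g, IsPrimitiveRoot a e) (ζ : ℂ) (hζ : 0 < ζ.im) :
    Multiset.card (up g ζ) = N / 2 - (ev g).count ζ := by
  have h1 := congrArg Multiset.card (ev_struct hg he hprim ζ hζ).2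
  rw [card_ev hg] at h1
  simp only [Multiset.card_add, Multiset.card_map, Multiset.card_replicate] at h1
  omega

lemma ev_eq_of_up {N : ℕ} {g g' : Og N} (hg : IsOfFinOrder g) (hg' : IsOfFinOrder g') {e : ℕ}
    (he : 3 ≤ e) (hprim : ∀ a ∈ ev g, IsPrimitiveRoot a e)
    (hprim' : ∀ a ∈ ev g', IsPrimitiveRoot a e) (ζ : ℂ) (hζ : 0 < ζ.im)
    (hc : (ev g).count ζ = (ev g').count ζ) (hup : up g ζ = up g' ζ) : ev g = ev g' := by
  rw [(ev_struct hg he hprim ζ hζ).2, (ev_struct hg' he hprim' ζ hζ).2, hc, hup]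

/-- Formula for the leading coefficient. -/
lemma lead_formula {N : ℕ} {g : Og N} (hg : IsOfFinOrder g) {e : ℕ} (he : 3 ≤ e)
    (hprim : ∀ a ∈ ev g, IsPrimitiveRoot a e) (ζ : ℂ) (hζ : 0 < ζ.im) :
    lead g ζ = ((1 - (starRingEnd ℂ) ζ * ζ⁻¹) ^ ((ev g).count ζ) *
      (ζ⁻¹) ^ (N / 2 - (ev g).count ζ)) *
      ((up g ζ).map fun a => ζ + ζ⁻¹ - a - a⁻¹).prod := by
  have hζ0 : ζ ≠ 0 := by rintro rfl; simp at hζ
  rw [lead, (ev_struct hg he hprim ζ hζ).1, Multiset.map_add, Multiset.map_add,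
    Multiset.prod_add, Multiset.prod_add, Multiset.map_replicate, Multiset.prod_replicate,
    Multiset.map_map, ← card_up hg he hprim ζ hζ]
  have h1 : ((up g ζ).map fun a => 1 - a * ζ⁻¹).prod *
      ((up g ζ).map ((fun a => 1 - a * ζ⁻¹) ∘ (starRingEnd ℂ))).prod
      = (ζ⁻¹) ^ (Multiset.card (up g ζ)) * ((up g ζ).map fun a => ζ + ζ⁻¹ - a - a⁻¹).prod := by
    rw [← Multiset.prod_map_mul]
    have h2 : (up g ζ).map (fun i => (1 - i * ζ⁻¹) *
        ((fun a => 1 - a * ζ⁻¹) ∘ (starRingEnd ℂ)) i)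
        = (up g ζ).map (fun i => ζ⁻¹ * (ζ + ζ⁻¹ - i - i⁻¹)) := by
      refine Multiset.map_congr rfl fun a ha => ?_
      have ha' : a ∈ ev g := by
        rw [up, Multiset.mem_filter] at ha; exact ha.1
      have hn := norm_ev hg ha'
      have ha0 : a ≠ 0 := by
        intro h0; rw [h0, norm_zero] at hn; exact zero_ne_one hn
      have hconj : (starRingEnd ℂ) a = a⁻¹ := by
        rw [Complex.inv_def, Complex.normSq_eq_norm_sq, hn]
        simp
      simp only [Function.comp_apply, hconj]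
      field_simp
      ring
    rw [h2, Multiset.prod_map_mul, Multiset.map_const', Multiset.prod_replicate]
  calc _ = (1 - (starRingEnd ℂ) ζ * ζ⁻¹) ^ ((ev g).count ζ) *
        (((up g ζ).map fun a => 1 - a * ζ⁻¹).prod *
        ((up g ζ).map ((fun a => 1 - a * ζ⁻¹) ∘ (starRingEnd ℂ))).prod) := by ring
    _ = _ := by rw [h1]; ring

/-- the `e`-th root of unity with the largest real part -/
noncomputable def zet (e : ℕ) : ℂ := Complex.exp (2 * Real.pi * Complex.I / e)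

lemma zet_prim {e : ℕ} (he : 0 < e) : IsPrimitiveRoot (zet e) e :=
  Complex.isPrimitiveRoot_exp e he.ne'

lemma zet_pow (e j : ℕ) : zet e ^ j = Complex.exp (((2 * Real.pi * j / e : ℝ) : ℂ) * Complex.I) := by
  rw [zet, ← Complex.exp_nat_mul]
  congr 1
  push_cast
  ring

lemma re_zet_pow (e j : ℕ) : (zet e ^ j).re = Real.cos (2 * Real.pi * j / e) := by
  rw [zet_pow, Complex.exp_ofReal_mul_I_re]

lemma im_zet_pow (e j : ℕ) : (zet e ^ j).im = Real.sin (2 * Real.pi * j / e) := by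
  rw [zet_pow, Complex.exp_ofReal_mul_I_im]

lemma im_zet_pos {e : ℕ} (he : 3 ≤ e) : 0 < (zet e).im := by
  have h := im_zet_pow e 1
  rw [pow_one] at h
  rw [h]
  have he' : (3 : ℝ) ≤ e := by exact_mod_cast he
  apply Real.sin_pos_of_pos_of_lt_pi
  · have := Real.pi_pos
    positivity
  · rw [div_lt_iff₀ (by linarith)]
    have := Real.pi_pos
    push_cast
    nlinarith

/-- the root `zet e` has maximal real part among the nonreal ones -/
lemma re_lt {e : ℕ} (he : 0 < e) {a : ℂ} (ha : a ^ e = 1) (him : 0 < a.im) (hne : a ≠ zet e) :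
    a.re < (zet e).re := by
  have : NeZero e := ⟨he.ne'⟩
  obtain ⟨j, hj, rfl⟩ := (zet_prim he).eq_pow_of_pow_eq_one ha
  have hpi := Real.pi_pos
  have he' : (0 : ℝ) < e := by exact_mod_cast he
  have hj' : (j : ℝ) < e := by exact_mod_cast hj
  have h1 := re_zet_pow e 1
  rw [pow_one] at h1
  rw [re_zet_pow, h1]
  rw [im_zet_pow] at him
  have hj1 : j ≠ 1 := by rintro rfl; exact hne (pow_one _)
  have hj0 : j ≠ 0 := by
    rintro rfl
    simp at him
  have hj2 : 2 ≤ j := by omega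
  have hj2' : (2 : ℝ) ≤ j := by exact_mod_cast hj2
  -- the angle is less than `π`
  have hlt : 2 * Real.pi * j / e < Real.pi := by
    by_contra hcon
    push Not at hcon
    have h3 : Real.sin (2 * Real.pi * j / e) ≤ 0 := by
      have h4 : Real.sin (2 * Real.pi * j / e) = - Real.sin (2 * Real.pi * j / e - Real.pi) := by
        rw [Real.sin_sub_pi]; ring
      rw [h4]
      have h5 : 0 ≤ Real.sin (2 * Real.pi * j / e - Real.pi) := by
        apply Real.sin_nonneg_of_nonneg_of_le_pi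
        · linarith
        · have h6 : 2 * Real.pi * j / e ≤ 2 * Real.pi := by
            rw [div_le_iff₀ he']
            nlinarith
          linarith
      linarith
    linarith
  apply Real.cos_lt_cos_of_nonneg_of_le_pi
  · positivity
  · exact hlt.le
  · push_cast
    apply div_lt_div_of_pos_right _ he'
    nlinarith

/-- The factors are positive real numbers. -/
lemma factor_eq {ζ a : ℂ} (hζ : ‖ζ‖ = 1) (ha : ‖a‖ = 1) :
    ζ + ζ⁻¹ - a - a⁻¹ = ((2 * ζ.re - 2 * a.re : ℝ) : ℂ) := by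
  have h : ∀ b : ℂ, ‖b‖ = 1 → b⁻¹ = (starRingEnd ℂ) b := by
    intro b hb
    rw [Complex.inv_def, Complex.normSq_eq_norm_sq, hb]
    simp
  rw [h ζ hζ, h a ha]
  apply Complex.ext
  · simp; ring
  · simp

end Pool.Agent.Helper78.Limit
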