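import Mathlib

/-!
A Mann type theorem on vanishing sums of roots of unity with rational coefficients:
if a sum of at most `M` terms vanishes, then so does the sum over each class of terms
having the same `M !`-th power.
-/

namespace Pool.Agent.Helper78.Mann

open Polynomial

/-- Galois conjugation of a rational relation between powers of a primitive root. -/
lemma galois_rel {q : ℕ} (hq : 0 < q) {ζ : ℂ} (hζ : IsPrimitiveRoot ζ q) {a : ℕ}
    (ha : Nat.Coprime a q) (f : ℚ[X]) (hf : aeval ζ f = 0) : aeval (ζ ^ a) f = 0 := by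
  have h1 : minpoly ℚ ζ ∣ f := minpoly.dvd ℚ ζ hf
  have h2 : cyclotomic q ℚ = minpoly ℚ ζ := cyclotomic_eq_minpoly_rat hζ hq
  have h3 : IsPrimitiveRoot (ζ ^ a) q := hζ.pow_of_coprime a ha
  have h4 : aeval (ζ ^ a) (cyclotomic q ℚ) = 0 := by
    rw [cyclotomic_eq_minpoly_rat h3 hq]; exact minpoly.aeval ℚ _
  rw [h2] at h4
  obtain ⟨g, rfl⟩ := h1
  rw [map_mul, h4, zero_mul]

lemma galois_sum {S : Type*} {q : ℕ} (hq : 0 < q) (s : Finset S) (c : S → ℚ) (ξ : S → ℂ)
    (hξ : ∀ i ∈ s, ξ i ^ q = 1) (h0 : ∑ i ∈ s, (c i : ℂ) * ξ i = 0) {a : ℕ}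
    (ha : Nat.Coprime a q) : ∑ i ∈ s, (c i : ℂ) * ξ i ^ a = 0 := by
  have hζ : IsPrimitiveRoot (Complex.exp (2 * Real.pi * Complex.I / q)) q :=
    Complex.isPrimitiveRoot_exp q hq.ne'
  set ζ := Complex.exp (2 * Real.pi * Complex.I / q)
  have hk : ∀ i, ∃ k : ℕ, i ∈ s → ζ ^ k = ξ i := by
    intro i
    by_cases hi : i ∈ s
    · have : NeZero q := ⟨hq.ne'⟩
      obtain ⟨k, _, hk⟩ := hζ.eq_pow_of_pow_eq_one (hξ i hi)
      exact ⟨k, fun _ => hk⟩
    · exact ⟨0, fun h => absurd h hi⟩
  choose k hk using hk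
  have h1 : aeval ζ (∑ i ∈ s, C (c i) * X ^ k i) = 0 := by
    rw [map_sum, ← h0]
    refine Finset.sum_congr rfl fun i hi => ?_
    rw [map_mul, map_pow, aeval_X, aeval_C, hk i hi]
    rfl
  have h2 := galois_rel hq hζ ha _ h1
  rw [map_sum] at h2
  rw [← h2]
  refine Finset.sum_congr rfl fun i hi => ?_
  rw [map_mul, map_pow, aeval_X, aeval_C, ← hk i hi, ← pow_mul, ← pow_mul, mul_comm (k i) a]
  rfl

lemma vander (Y : Finset ℂ) (A : ℂ → ℂ) (L : ℕ) (hL : Y.card ≤ L)
    (h : ∀ l < L, ∑ y ∈ Y, y ^ l * A y = 0) : ∀ y ∈ Y, A y = 0 := by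
  intro y hy
  have key : ∀ g : ℂ[X], g.natDegree < L → ∑ z ∈ Y, g.eval z * A z = 0 := by
    intro g hg
    have : ∀ z ∈ Y, g.eval z * A z = ∑ l ∈ Finset.range L, g.coeff l * (z ^ l * A z) := by
      intro z _
      rw [eval_eq_sum_range' hg, Finset.sum_mul]
      exact Finset.sum_congr rfl fun l _ => by ring
    rw [Finset.sum_congr rfl this, Finset.sum_comm]
    refine Finset.sum_eq_zero fun l hl => ?_
    rw [← Finset.mul_sum, h l (Finset.mem_range.mp hl), mul_zero]
  have hdeg : (∏ z ∈ Y.erase y, (X - C z)).natDegree < L := by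
    rw [natDegree_prod_of_monic _ _ fun z _ => monic_X_sub_C z]
    simp only [natDegree_X_sub_C, Finset.sum_const, smul_eq_mul, mul_one]
    rw [Finset.card_erase_of_mem hy]
    have : 0 < Y.card := Finset.card_pos.mpr ⟨y, hy⟩
    omega
  have h1 := key _ hdeg
  rw [Finset.sum_eq_single_of_mem y hy] at h1
  · rw [eval_prod] at h1
    rcases mul_eq_zero.mp h1 with h2 | h2
    · exfalso
      rw [Finset.prod_eq_zero_iff] at h2
      obtain ⟨z, hz, hz2⟩ := h2
      rw [Finset.mem_erase] at hz
      simp only [eval_sub, eval_X, eval_C] at hz2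
      exact hz.1 (sub_eq_zero.mp hz2).symm
    · exact h2
  · intro z hz hne
    rw [eval_prod, Finset.prod_eq_zero (Finset.mem_erase.mpr ⟨hne, hz⟩), zero_mul]
    simp

lemma coprime_aux {p Q j : ℕ} (hp : p.Prime) (h : ¬ p ∣ 1 + j * Q) :
    Nat.Coprime (1 + j * Q) (p * Q) := by
  apply Nat.Coprime.mul_right
  · exact ((Nat.Prime.coprime_iff_not_dvd hp).mpr h).symm
  · rw [Nat.coprime_comm]
    have : Nat.Coprime Q (1 + j * Q) := by
      simp
    exact this

lemma group_vanish {S : Type*} {p Q : ℕ} (hQ : 0 < Q) (hp : p.Prime) (s : Finset S)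
    (c : S → ℚ) (ξ : S → ℂ) (hξ : ∀ i ∈ s, ξ i ^ (p * Q) = 1)
    (h0 : ∑ i ∈ s, (c i : ℂ) * ξ i = 0) (hcase : p ∣ Q ∨ s.card < p) (y : ℂ) :
    ∑ i ∈ s.filter (fun i => ξ i ^ Q = y), (c i : ℂ) * ξ i = 0 := by
  classical
  set Y := s.image (fun i => ξ i ^ Q) with hY
  set A : ℂ → ℂ := fun y => ∑ i ∈ s.filter (fun i => ξ i ^ Q = y), (c i : ℂ) * ξ i with hA
  have hpq : 0 < p * Q := Nat.mul_pos hp.pos hQ
  have key : ∀ j : ℕ, ¬ p ∣ 1 + j * Q → ∑ y ∈ Y, y ^ j * A y = 0 := by
    intro j hj
    have h1 := galois_sum hpq s c ξ hξ h0 (coprime_aux hp hj)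
    rw [← h1]
    have h2 : ∀ i ∈ s, ξ i ^ Q ∈ Y := fun i hi => Finset.mem_image_of_mem _ hi
    rw [← Finset.sum_fiberwise_of_maps_to h2]
    refine Finset.sum_congr rfl fun y _ => ?_
    rw [hA]
    simp only
    rw [Finset.mul_sum]
    refine Finset.sum_congr rfl fun i hi => ?_
    rw [Finset.mem_filter] at hi
    rw [← hi.2, pow_add, pow_one, mul_comm j Q, pow_mul]
    ring
  have hfin : ∀ y ∈ Y, A y = 0 := by
    by_cases hpQ : p ∣ Q
    · refine vander Y A Y.card le_rfl fun l _ => key l ?_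
      intro hd
      have h3 : p ∣ l * Q := Dvd.dvd.mul_left hpQ l
      have h4 : p ∣ 1 := (Nat.dvd_add_left h3).mp hd
      exact hp.one_lt.ne' (Nat.dvd_one.mp h4)
    · have hs : s.card < p := by
        rcases hcase with h | h
        · exact absurd h hpQ
        · exact h
      have hcop : Nat.Coprime p Q := (Nat.Prime.coprime_iff_not_dvd hp).mpr hpQ
      -- find `j₀` with `p ∣ 1 + j₀ * Q`
      obtain ⟨j₀, hj₀⟩ : ∃ j₀ : ℕ, p ∣ 1 + j₀ * Q := by
        have : Fact p.Prime := ⟨hp⟩
        refine ⟨(-(Q : ZMod p)⁻¹).val, ?_⟩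
        rw [← ZMod.natCast_eq_zero_iff]
        push_cast
        rw [ZMod.natCast_val, ZMod.cast_id]
        have hQ0 : (Q : ZMod p) ≠ 0 := by
          rw [Ne, ZMod.natCast_eq_zero_iff]; exact hpQ
        field_simp
        ring
      have h5 : ∀ y ∈ Y, y ^ (j₀ + 1) * A y = 0 := by
        refine vander Y (fun y => y ^ (j₀ + 1) * A y) (p - 1) ?_ fun l hl => ?_
        · have : Y.card ≤ s.card := Finset.card_image_le
          omega
        · rw [← key (j₀ + 1 + l)]
          · refine Finset.sum_congr rfl fun y _ => ?_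
            ring
          · intro hd
            have h6 : 1 + (j₀ + 1 + l) * Q = (1 + j₀ * Q) + (l + 1) * Q := by ring
            rw [h6] at hd
            have h7 : p ∣ (l + 1) * Q := (Nat.dvd_add_right hj₀).mp hd
            rcases (Nat.Prime.dvd_mul hp).mp h7 with h8 | h8
            · have := Nat.le_of_dvd (by omega) h8
              omega
            · exact hpQ h8
      intro y hy
      rcases mul_eq_zero.mp (h5 y hy) with h6 | h6
      · exfalso
        have h7 : y = 0 := by
          by_contra hne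
          exact pow_ne_zero _ hne h6
        obtain ⟨i, hi, hiy⟩ := Finset.mem_image.mp hy
        have h8 := hξ i hi
        rw [mul_comm, pow_mul, hiy, h7, zero_pow hp.ne_zero] at h8
        exact zero_ne_one h8
      · exact h6
  by_cases hy : y ∈ Y
  · exact hfin y hy
  · rw [Finset.filter_false_of_mem, Finset.sum_empty]
    intro i hi heq
    exact hy (Finset.mem_image.mpr ⟨i, hi, heq⟩)

open scoped Nat in
/-- If a rational combination of at most `M` roots of unity vanishes, then it vanishes on each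
class of terms with a given `M !`-th power. -/
theorem mann {S : Type*} (M : ℕ) (q : ℕ) (hq : 0 < q) (s : Finset S) (c : S → ℚ) (ξ : S → ℂ)
    (hM : s.card ≤ M) (hξ : ∀ i ∈ s, ξ i ^ q = 1)
    (h0 : ∑ i ∈ s, (c i : ℂ) * ξ i = 0) (x : ℂ) :
    ∑ i ∈ s.filter (fun i => ξ i ^ (M !) = x), (c i : ℂ) * ξ i = 0 := by
  classical
  induction q using Nat.strong_induction_on generalizing s ξ x with
  | _ q ih =>
    by_cases hex : ∃ p : ℕ, p.Prime ∧ p ∣ q ∧ (p ∣ q / p ∨ M < p)
    · obtain ⟨p, hp, ⟨Q, rfl⟩, hcase⟩ := hex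
      rw [Nat.mul_div_cancel_left _ hp.pos] at hcase
      have hQ : 0 < Q := Nat.pos_of_mul_pos_left hq |> fun h => by
        rcases Nat.eq_zero_or_pos Q with h | h
        · subst h; simp at hq
        · exact h
      have hlt : Q < p * Q := by
        have := hp.two_le
        nlinarith
      have hg := group_vanish hQ hp s c ξ hξ h0 (hcase.imp id fun h => lt_of_le_of_lt hM h)
      set Y := s.image (fun i => ξ i ^ Q) with hY
      have h2 : ∀ i ∈ s.filter (fun i => ξ i ^ (M !) = x), ξ i ^ Q ∈ Y := fun i hi =>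
        Finset.mem_image_of_mem _ (Finset.mem_filter.mp hi).1
      rw [← Finset.sum_fiberwise_of_maps_to h2]
      refine Finset.sum_eq_zero fun y _ => ?_
      rw [Finset.filter_comm]
      set T := s.filter (fun i => ξ i ^ Q = y) with hT
      rcases T.eq_empty_or_nonempty with he | ⟨i₀, hi₀⟩
      · rw [he]; simp
      have hi₀' := Finset.mem_filter.mp hi₀
      have hξ0 : ξ i₀ ≠ 0 := by
        intro h
        have := hξ i₀ hi₀'.1
        rw [h, zero_pow hq.ne'] at this
        exact zero_ne_one this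
      have hy0 : y ≠ 0 := by
        rw [← hi₀'.2]; exact pow_ne_zero _ hξ0
      have h3 := ih Q hlt hQ T (fun i => ξ i / ξ i₀)
        (le_trans (Finset.card_le_card (Finset.filter_subset _ _)) hM) (by
          intro i hi
          have := (Finset.mem_filter.mp hi).2
          rw [div_pow, this, hi₀'.2, div_self hy0]) (by
          have h4 : ∑ i ∈ T, (c i : ℂ) * (ξ i / ξ i₀) = (∑ i ∈ T, (c i : ℂ) * ξ i) / ξ i₀ := by
            rw [Finset.sum_div]
            exact Finset.sum_congr rfl fun i _ => by ring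
          rw [h4, hg y, zero_div]) (x / ξ i₀ ^ (M !))
      have h5 : T.filter (fun i => (ξ i / ξ i₀) ^ (M !) = x / ξ i₀ ^ (M !))
          = T.filter (fun i => ξ i ^ (M !) = x) := by
        refine Finset.filter_congr fun i _ => ?_
        rw [div_pow, div_left_inj' (pow_ne_zero _ hξ0)]
      rw [h5] at h3
      have h6 : ∑ i ∈ T.filter (fun i => ξ i ^ (M !) = x), (c i : ℂ) * (ξ i / ξ i₀)
          = (∑ i ∈ T.filter (fun i => ξ i ^ (M !) = x), (c i : ℂ) * ξ i) / ξ i₀ := by
        rw [Finset.sum_div]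
        exact Finset.sum_congr rfl fun i _ => by ring
      rw [h6, div_eq_zero_iff] at h3
      exact h3.resolve_right hξ0
    · push Not at hex
      have hsq : Squarefree q := by
        rw [Nat.squarefree_iff_prime_squarefree]
        intro p hp hpp
        have h1 : p ∣ q := dvd_trans (Dvd.intro p rfl) hpp
        have h2 := (hex p hp h1).1
        apply h2
        obtain ⟨r, hr⟩ := hpp
        rw [hr, mul_assoc, Nat.mul_div_cancel_left _ hp.pos]
        exact Dvd.intro r rfl
      have hdvd : q ∣ M ! := by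
        rw [← Nat.prod_primeFactors_of_squarefree hsq]
        refine Finset.prod_primes_dvd _ (fun p hp => (Nat.prime_of_mem_primeFactors hp).prime)
          fun p hp => ?_
        have h1 := Nat.prime_of_mem_primeFactors hp
        have h2 := (hex p h1 (Nat.dvd_of_mem_primeFactors hp)).2
        exact (Nat.Prime.dvd_factorial h1).mpr h2
      obtain ⟨r, hr⟩ := hdvd
      have h1 : ∀ i ∈ s, ξ i ^ (M !) = 1 := by
        intro i hi
        rw [hr, pow_mul, hξ i hi, one_pow]
      by_cases hx : x = 1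
      · rw [Finset.filter_true_of_mem, h0]
        intro i hi
        rw [h1 i hi, hx]
      · rw [Finset.filter_false_of_mem, Finset.sum_empty]
        intro i hi h
        rw [h1 i hi] at h
        exact hx h.symm

end Pool.Agent.Helper78.Mann
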