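import Mathlib
import Pool.Agent.Helper78.Mann

/-!
The kernel lemma: a large set of solutions in roots of unity of a fixed exponential
polynomial equation contains two members which are linked by a one parameter family
of (complex) solutions moving every coordinate in which they differ.
-/

namespace Pool.Agent.Helper78.Kernel

open Finset

lemma clear_den {ι : Type*} [Fintype ι] (q : ι → ℚ) :
    ∃ D : ℕ, 0 < D ∧ ∃ n : ι → ℤ, ∀ i, (n i : ℚ) = D * q i := by
  classical
  refine ⟨∏ i, (q i).den, Finset.prod_pos fun i _ => (q i).den_pos,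
    fun i => (∏ j ∈ univ.erase i, ((q j).den : ℤ)) * (q i).num, fun i => ?_⟩
  have h1 : (∏ j, (q j).den) = (∏ j ∈ univ.erase i, (q j).den) * (q i).den := by
    rw [mul_comm]
    exact (Finset.mul_prod_erase univ (fun j => (q j).den) (Finset.mem_univ i)).symm
  rw [h1]
  push_cast
  have h2 : ((q i).den : ℚ) * q i = (q i).num := by
    rw [mul_comm]; exact Rat.mul_den_eq_num (q i)
  rw [mul_assoc, h2]

/-- The second alternative: some positive multiple of a coordinate functional is an integral
combination of the given functionals. -/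
def Alt {ι V : Type*} [Fintype ι] [DecidableEq V] (l : ι → V → ℤ) (v : V) (N : ℕ) : Prop :=
  0 < N ∧ ∃ n : ι → ℤ, ∀ w, ∑ i, n i * l i w = if w = v then (N : ℤ) else 0

lemma dichotomy {ι V : Type*} [Fintype ι] [Fintype V] [DecidableEq V] (l : ι → V → ℤ) (v : V) :
    (∃ h : V → ℤ, (∀ i, ∑ w, l i w * h w = 0) ∧ h v ≠ 0) ∨ ∃ N : ℕ, Alt l v N := by
  classical
  let L : ι → ((V → ℚ) →ₗ[ℚ] ℚ) := fun i => ∑ w, (l i w : ℚ) • LinearMap.proj w
  have hL : ∀ i h, L i h = ∑ w, (l i w : ℚ) * h w := by
    intro i h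
    simp [L]
  let K : (V → ℚ) →ₗ[ℚ] ℚ := LinearMap.proj v
  by_cases hle : (⨅ i, LinearMap.ker (L i)) ≤ LinearMap.ker K
  · right
    have h1 : K ∈ Submodule.span ℚ (Set.range L) := mem_span_of_iInf_ker_le_ker hle
    rw [Submodule.mem_span_range_iff_exists_fun] at h1
    obtain ⟨q, hq⟩ := h1
    obtain ⟨D, hD, n, hn⟩ := clear_den q
    refine ⟨D, hD, n, fun w => ?_⟩
    have h2 := congrArg (fun f : (V → ℚ) →ₗ[ℚ] ℚ => f (Pi.single w 1)) hq
    simp only [LinearMap.coe_sum, Finset.sum_apply, LinearMap.smul_apply, smul_eq_mul] at h2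
    have h3 : ∀ i, L i (Pi.single w 1) = l i w := by
      intro i
      rw [hL, Finset.sum_eq_single w]
      · simp
      · intro b _ hb
        simp [Pi.single_eq_of_ne hb]
      · simp
    simp only [h3] at h2
    have h4 : K (Pi.single w 1) = if w = v then 1 else 0 := by
      simp only [K, LinearMap.coe_proj, Function.eval]
      by_cases hwv : w = v
      · subst hwv; simp
      · rw [if_neg hwv, Pi.single_eq_of_ne (Ne.symm hwv)]
    rw [h4] at h2
    have h5 : ((∑ i, n i * l i w : ℤ) : ℚ) = ((if w = v then (D : ℤ) else 0 : ℤ) : ℚ) := by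
      push_cast
      have : ∀ i, (n i : ℚ) * (l i w : ℚ) = D * (q i * l i w) := by
        intro i; rw [hn i]; ring
      simp only [this]
      rw [← Finset.mul_sum, h2]
      split_ifs <;> simp
    exact_mod_cast h5
  · left
    rw [SetLike.not_le_iff_exists] at hle
    obtain ⟨h, hh1, hh2⟩ := hle
    rw [Submodule.mem_iInf] at hh1
    rw [LinearMap.mem_ker] at hh2
    obtain ⟨D, hD, n, hn⟩ := clear_den h
    refine ⟨n, fun i => ?_, ?_⟩
    · have h1 := hh1 i
      rw [LinearMap.mem_ker, hL] at h1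
      have h2 : ((∑ w, l i w * n w : ℤ) : ℚ) = 0 := by
        push_cast
        have : ∀ w, (l i w : ℚ) * (n w : ℚ) = D * (l i w * h w) := by
          intro w; rw [hn w]; ring
        simp only [this]
        rw [← Finset.mul_sum, h1, mul_zero]
      exact_mod_cast h2
    · intro h0
      have h1 := hn v
      rw [h0] at h1
      have hD' : (D : ℚ) ≠ 0 := by positivity
      rcases mul_eq_zero.mp (h1.symm.trans (by simp : ((0 : ℤ) : ℚ) = 0)) with h2 | h2
      · exact hD' h2
      · exact hh2 h2

lemma generic {ι V : Type*} [Fintype ι] [Fintype V] [DecidableEq V] (l : ι → V → ℤ) :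
    ∃ h : V → ℤ, (∀ i, ∑ w, l i w * h w = 0) ∧ ∀ v, h v = 0 → ∃ N : ℕ, Alt l v N := by
  classical
  have key : ∀ T : Finset V, ∃ h : V → ℤ, (∀ i, ∑ w, l i w * h w = 0) ∧
      ∀ v ∈ T, h v = 0 → ∃ N : ℕ, Alt l v N := by
    intro T
    induction T using Finset.induction_on with
    | empty => exact ⟨fun _ => 0, by simp, by simp⟩
    | insert v₀ T _ ih =>
      obtain ⟨h, h1, h2⟩ := ih
      rcases dichotomy l v₀ with ⟨h', h1', h2'⟩ | halt
      · set x : ℤ := 1 + ∑ v, |h v| with hx
        have hxv : ∀ v, |h v| < x := by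
          intro v
          have : |h v| ≤ ∑ v, |h v| :=
            Finset.single_le_sum (f := fun v => |h v|) (fun _ _ => abs_nonneg _)
              (Finset.mem_univ v)
          omega
        have hne : ∀ v, h' v ≠ 0 → h v + x * h' v ≠ 0 := by
          intro v hv h0
          have h3 : |x * h' v| = |h v| := by
            have : x * h' v = - h v := by linarith
            rw [this, abs_neg]
          rw [abs_mul] at h3
          have h4 : 1 ≤ |h' v| := Int.one_le_abs hv
          have h5 : x ≤ |x| := le_abs_self x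
          have h6 := hxv v
          have h7 : |x| ≤ |x| * |h' v| := by
            have := abs_nonneg x
            nlinarith
          linarith
        refine ⟨fun v => h v + x * h' v, fun i => ?_, fun v hv h0 => ?_⟩
        · have : ∀ w, l i w * (h w + x * h' w) = l i w * h w + x * (l i w * h' w) := by
            intro w; ring
          simp only [this]
          rw [Finset.sum_add_distrib, ← Finset.mul_sum, h1 i, h1' i]
          simp
        · by_cases hv' : h' v = 0
          · simp only [hv', mul_zero, add_zero] at h0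
            rcases Finset.mem_insert.mp hv with rfl | hv
            · exact absurd hv' h2'
            · exact h2 v hv h0
          · exact absurd h0 (hne v hv')
      · refine ⟨h, h1, fun v hv h0 => ?_⟩
        rcases Finset.mem_insert.mp hv with rfl | hv
        · exact halt
        · exact h2 v hv h0
  obtain ⟨h, h1, h2⟩ := key univ
  exact ⟨h, h1, fun v => h2 v (Finset.mem_univ v)⟩

lemma prod_zpow_zero {V : Type*} [Fintype V] (w : V → ℂ) (hw : ∀ v, w v ≠ 0)
    {ι : Type*} [Fintype ι] [DecidableEq V] (l : ι → V → ℤ) (v : V) (N : ℕ) (hN : Alt l v N)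
    (h : ∀ i, ∏ x, w x ^ l i x = 1) : w v ^ N = 1 := by
  obtain ⟨_, n, hn⟩ := hN
  have h1 : ∏ i, (∏ x, w x ^ l i x) ^ n i = 1 :=
    Finset.prod_eq_one fun i _ => by rw [h i, one_zpow]
  have h2 : ∏ i, (∏ x, w x ^ l i x) ^ n i = ∏ x, w x ^ (∑ i, n i * l i x) := by
    have : ∀ i, (∏ x, w x ^ l i x) ^ n i = ∏ x, w x ^ (n i * l i x) := by
      intro i
      rw [← Finset.prod_zpow]
      refine Finset.prod_congr rfl fun x _ => ?_
      rw [← zpow_mul, mul_comm]
    simp only [this]
    rw [Finset.prod_comm]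
    refine Finset.prod_congr rfl fun x _ => ?_
    have hx := hw x
    induction (univ : Finset ι) using Finset.cons_induction with
    | empty => simp
    | cons a s ha ih => rw [Finset.prod_cons, Finset.sum_cons, zpow_add₀ hx, ih]
  rw [h2] at h1
  simp only [hn] at h1
  rw [Finset.prod_eq_single v] at h1
  · simpa using h1
  · intro b _ hb
    simp [hb]
  · simp

open scoped Nat in
/-- The kernel lemma. -/
theorem kernel {S V : Type*} [Fintype S] [Fintype V] (c : S → ℚ) (α : S → V → ℤ) :
    ∃ B : ℕ, ∀ (e : ℕ) (β : S → ℂ) (U : Finset (V → ℂ)), 0 < e → (∀ s, β s ^ e = 1) →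
      (∀ u ∈ U, ∀ v, u v ^ e = 1) → B < U.card →
      (∀ u ∈ U, ∑ s, (c s : ℂ) * (β s * ∏ v, u v ^ α s v) = 0) →
      ∃ u ∈ U, ∃ u' ∈ U, u ≠ u' ∧ ∃ h : V → ℤ, (∀ v, h v = 0 → u v = u' v) ∧
        ∀ t : ℂ, t ≠ 0 → ∑ s, (c s : ℂ) * (β s * ∏ v, (u v * t ^ h v) ^ α s v) = 0 := by
  classical
  -- linear algebra data for every relation
  let l : ∀ R : Finset (S × S), R → V → ℤ := fun R i v => α i.1.1 v - α i.1.2 v
  have hgen := fun R : Finset (S × S) => generic (l R)
  choose h hh1 hh2 using hgen
  have hN : ∀ R : Finset (S × S), ∀ v, ∃ N : ℕ, 0 < N ∧ (h R v = 0 → Alt (l R) v N) := by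
    intro R v
    by_cases h0 : h R v = 0
    · obtain ⟨N, hN⟩ := hh2 R v h0
      exact ⟨N, hN.1, fun _ => hN⟩
    · exact ⟨1, one_pos, fun h => absurd h h0⟩
  choose N hNpos hN using hN
  set P := (Fintype.card S)! with hP
  have hPpos : 0 < P := Nat.factorial_pos _
  set Lab : Finset (S × S → ℂ) :=
    Fintype.piFinset fun _ => insert (0 : ℂ) (Polynomial.nthRootsFinset P (1 : ℂ)) with hLab
  set NN : ℕ := ∑ R : Finset (S × S), ∏ v, N R v with hNN
  refine ⟨Lab.card * NN, ?_⟩
  intro e β U he hβ hU hB hrel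
  have hβ0 : ∀ s, β s ≠ 0 := by
    intro s h0
    have := hβ s
    rw [h0, zero_pow he.ne'] at this
    exact zero_ne_one this
  have hU0 : ∀ u ∈ U, ∀ v, u v ≠ 0 := by
    intro u hu v h0
    have := hU u hu v
    rw [h0, zero_pow he.ne'] at this
    exact zero_ne_one this
  let ξ : (V → ℂ) → S → ℂ := fun u s => β s * ∏ v, u v ^ α s v
  have hξe : ∀ u ∈ U, ∀ s, ξ u s ^ e = 1 := by
    intro u hu s
    simp only [ξ]
    rw [mul_pow, hβ s, one_mul, ← Finset.prod_pow]
    refine Finset.prod_eq_one fun v _ => ?_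
    rw [← zpow_natCast, ← zpow_mul, mul_comm, zpow_mul, zpow_natCast, hU u hu v, one_zpow]
  have hξ0 : ∀ u ∈ U, ∀ s, ξ u s ≠ 0 := by
    intro u hu s h0
    have := hξe u hu s
    rw [h0, zero_pow he.ne'] at this
    exact zero_ne_one this
  let lab : (V → ℂ) → (S × S → ℂ) := fun u p =>
    if (ξ u p.1 / ξ u p.2) ^ P = 1 then ξ u p.1 / ξ u p.2 else 0
  have hlab : ∀ u ∈ U, lab u ∈ Lab := by
    intro u _
    rw [hLab, Fintype.mem_piFinset]
    intro p
    simp only [lab]
    split_ifs with h1
    · apply Finset.mem_insert_of_mem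
      rw [Polynomial.mem_nthRootsFinset hPpos]
      exact h1
    · exact Finset.mem_insert_self _ _
  obtain ⟨b, hb, hcard⟩ := Finset.exists_lt_card_fiber_of_mul_lt_card_of_maps_to hlab hB
  set F := U.filter (fun u => lab u = b) with hF
  set R : Finset (S × S) := univ.filter (fun p => b p ≠ 0) with hR
  have hNR : ∏ v, N R v ≤ NN := by
    rw [hNN]
    exact Finset.single_le_sum (f := fun R => ∏ v, N R v) (fun _ _ => Nat.zero_le _)
      (Finset.mem_univ R)
  have hcard' : ∏ v, N R v < F.card := lt_of_le_of_lt hNR hcard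
  have hFne : F.Nonempty := Finset.card_pos.mp (by omega)
  obtain ⟨u₀, hu₀⟩ := hFne
  have hu₀U := (Finset.mem_filter.mp hu₀).1
  -- members of the fibre: relation
  have hmemR : ∀ u ∈ F, ∀ s t, (s, t) ∈ R ↔ ξ u s ^ P = ξ u t ^ P := by
    intro u hu s t
    obtain ⟨huU, hub⟩ := Finset.mem_filter.mp hu
    rw [hR, Finset.mem_filter, ← hub]
    simp only [Finset.mem_univ, true_and, lab]
    have h1 : (ξ u s / ξ u t) ^ P = 1 ↔ ξ u s ^ P = ξ u t ^ P := by
      rw [div_pow, div_eq_one_iff_eq (pow_ne_zero _ (hξ0 u huU t))]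
    rw [← h1]
    constructor
    · intro h2
      by_contra h3
      rw [if_neg h3] at h2
      exact h2 rfl
    · intro h2
      rw [if_pos h2]
      exact div_ne_zero (hξ0 u huU s) (hξ0 u huU t)
  have hratio : ∀ u ∈ F, ∀ s t, (s, t) ∈ R → ξ u s / ξ u t = b (s, t) := by
    intro u hu s t hst
    obtain ⟨huU, hub⟩ := Finset.mem_filter.mp hu
    have h1 := (hmemR u hu s t).mp hst
    have h2 : (ξ u s / ξ u t) ^ P = 1 := by
      rw [div_pow, h1, div_self (pow_ne_zero _ (hξ0 u huU t))]
    rw [← hub]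
    simp only [lab]
    rw [if_pos h2]
  have hdiff : ∀ u ∈ F, ∀ u' ∈ F, ∀ v, h R v = 0 → (u v / u' v) ^ N R v = 1 := by
    intro u hu u' hu' v hv
    have huU := (Finset.mem_filter.mp hu).1
    have huU' := (Finset.mem_filter.mp hu').1
    refine prod_zpow_zero (fun v => u v / u' v) (fun v => div_ne_zero (hU0 u huU v)
      (hU0 u' huU' v)) (l R) v (N R v) (hN R v hv) ?_
    rintro ⟨⟨s, t⟩, hst⟩
    have h1 := hratio u hu s t hst
    have h2 := hratio u' hu' s t hst
    have h3 : ξ u s / ξ u t = ξ u' s / ξ u' t := h1.trans h2.symm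
    have h4 : ∀ u ∈ U, ξ u s / ξ u t = β s / β t * ∏ v, u v ^ l R ⟨(s, t), hst⟩ v := by
      intro u hu
      simp only [ξ, l]
      have : ∀ v, u v ^ (α s v - α t v) = u v ^ α s v / u v ^ α t v := fun v =>
        zpow_sub₀ (hU0 u hu v) _ _
      simp only [this]
      rw [Finset.prod_div_distrib, mul_div_mul_comm]
    rw [h4 u huU, h4 u' huU'] at h3
    have h5 : β s / β t ≠ 0 := div_ne_zero (hβ0 s) (hβ0 t)
    have h6 := mul_left_cancel₀ h5 h3
    simp only [div_zpow]
    rw [Finset.prod_div_distrib, h6, div_self]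
    exact Finset.prod_ne_zero_iff.mpr fun v _ => zpow_ne_zero _ (hU0 u' huU' v)
  -- second pigeonhole
  let g : (V → ℂ) → (V → ℂ) := fun u v => if h R v = 0 then u v / u₀ v else 1
  have hg : ∀ u ∈ F, g u ∈ Fintype.piFinset fun v => Polynomial.nthRootsFinset (N R v) (1 : ℂ) := by
    intro u hu
    rw [Fintype.mem_piFinset]
    intro v
    rw [Polynomial.mem_nthRootsFinset (hNpos R v)]
    simp only [g]
    split_ifs with h1
    · exact hdiff u hu u₀ hu₀ v h1
    · exact one_pow _
  have hgc : (Fintype.piFinset fun v => Polynomial.nthRootsFinset (N R v) (1 : ℂ)).card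
      < F.card := by
    rw [Fintype.card_piFinset]
    refine lt_of_le_of_lt (Finset.prod_le_prod' fun v _ => ?_) hcard'
    calc (Polynomial.nthRootsFinset (N R v) (1 : ℂ)).card
        ≤ Multiset.card (Polynomial.nthRoots (N R v) (1 : ℂ)) := by
          rw [Polynomial.nthRootsFinset_def]
          exact Multiset.toFinset_card_le _
      _ ≤ N R v := Polynomial.card_nthRoots _ _
  obtain ⟨u, hu, u', hu', hne, hgeq⟩ := Finset.exists_ne_map_eq_of_card_lt_of_maps_to hgc hg
  have huU := (Finset.mem_filter.mp hu).1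
  have huU' := (Finset.mem_filter.mp hu').1
  refine ⟨u, huU, u', huU', hne, h R, ?_, ?_⟩
  · intro v hv
    have h1 := congrFun hgeq v
    simp only [g, hv, if_true] at h1
    exact (div_left_inj' (hU0 u₀ hu₀U v)).mp h1
  · intro t ht
    -- group by the `P`-th powers
    have h1 : ∀ s, (c s : ℂ) * (β s * ∏ v, (u v * t ^ h R v) ^ α s v)
        = (c s : ℂ) * ξ u s * t ^ (∑ v, α s v * h R v) := by
      intro s
      simp only [ξ, mul_zpow]
      rw [Finset.prod_mul_distrib]
      have : ∏ v, (t ^ h R v) ^ α s v = t ^ (∑ v, α s v * h R v) := by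
        induction (univ : Finset V) using Finset.cons_induction with
        | empty => simp
        | cons a s ha ih =>
          rw [Finset.prod_cons, Finset.sum_cons, zpow_add₀ ht, ih, ← zpow_mul,
            mul_comm (h R a)]
      rw [this]
      ring
    simp only [h1]
    have h2 : ∀ s ∈ (univ : Finset S), ξ u s ^ P ∈ (univ : Finset S).image fun s => ξ u s ^ P :=
      fun s _ => Finset.mem_image_of_mem _ (Finset.mem_univ s)
    rw [← Finset.sum_fiberwise_of_maps_to h2]
    refine Finset.sum_eq_zero fun x hx => ?_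
    obtain ⟨s₀, _, hs₀⟩ := Finset.mem_image.mp hx
    have h3 : ∀ s ∈ univ.filter (fun s => ξ u s ^ P = x),
        (c s : ℂ) * ξ u s * t ^ (∑ v, α s v * h R v)
        = ((c s : ℂ) * ξ u s) * t ^ (∑ v, α s₀ v * h R v) := by
      intro s hs
      have hs' := (Finset.mem_filter.mp hs).2
      have hmem : (s, s₀) ∈ R := (hmemR u hu s s₀).mpr (hs'.trans hs₀.symm)
      have h4 := hh1 R ⟨(s, s₀), hmem⟩
      simp only [l] at h4
      have h5 : ∑ v, α s v * h R v = ∑ v, α s₀ v * h R v := by
        have : ∑ v, (α s v - α s₀ v) * h R v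
            = ∑ v, α s v * h R v - ∑ v, α s₀ v * h R v := by
          rw [← Finset.sum_sub_distrib]
          exact Finset.sum_congr rfl fun v _ => by ring
        rw [this] at h4
        linarith
      rw [h5]
    rw [Finset.sum_congr rfl h3, ← Finset.sum_mul]
    have h6 := Mann.mann (Fintype.card S) e he univ c (ξ u) (by simp) (fun s _ => hξe u huU s)
      (hrel u huU) x
    rw [h6, zero_mul]

end Pool.Agent.Helper78.Kernel
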