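import Mathlib
import Pool.Agent.Helper78.Kernel

/-!
Rigidity of sums of products of the reciprocals `(ζ + ζ⁻¹ - u - u⁻¹)⁻¹` at roots of unity `u`.
-/

namespace Pool.Agent.Helper78.TheoremA

open Finset Filter Topology

/-- The kernel lemma for a polynomial in fixed roots of unity, varying roots of unity and the
inverses of the latter. -/
theorem kernel_poly {I V : Type*} [Fintype I] [Fintype V]
    (Ψ : MvPolynomial (I ⊕ (V ⊕ V)) ℚ) :
    ∃ B : ℕ, ∀ (e : ℕ) (ε : I → ℂ) (U : Finset (V → ℂ)), 0 < e → (∀ s, ε s ^ e = 1) →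
      (∀ u ∈ U, ∀ v, u v ^ e = 1) → B < U.card →
      (∀ u ∈ U, MvPolynomial.aeval (Sum.elim ε (Sum.elim u fun v => (u v)⁻¹)) Ψ = 0) →
      ∃ u ∈ U, ∃ u' ∈ U, u ≠ u' ∧ ∃ h : V → ℤ, (∀ v, h v = 0 → u v = u' v) ∧
        ∀ t : ℂ, t ≠ 0 → MvPolynomial.aeval
          (Sum.elim ε (Sum.elim (fun v => u v * t ^ h v) fun v => (u v * t ^ h v)⁻¹)) Ψ = 0 := by
  classical
  obtain ⟨B, hB⟩ := Kernel.kernel (S := Ψ.support) (V := V) (fun m => Ψ.coeff m)
    (fun m v => (m.1 (Sum.inr (Sum.inl v)) : ℤ) - (m.1 (Sum.inr (Sum.inr v)) : ℤ))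
  refine ⟨B, ?_⟩
  intro e ε U he hε hU hcard hrel
  -- evaluation formula
  have heval : ∀ w : V → ℂ, (∀ v, w v ≠ 0) →
      MvPolynomial.aeval (Sum.elim ε (Sum.elim w fun v => (w v)⁻¹)) Ψ
      = ∑ m : Ψ.support, ((Ψ.coeff m.1 : ℚ) : ℂ) * ((∏ i, ε i ^ m.1 (Sum.inl i)) *
        ∏ v, w v ^ ((m.1 (Sum.inr (Sum.inl v)) : ℤ) - (m.1 (Sum.inr (Sum.inr v)) : ℤ))) := by
    intro w hw
    rw [MvPolynomial.aeval_def, MvPolynomial.eval₂_eq']
    rw [← Finset.sum_coe_sort]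
    refine Finset.sum_congr rfl fun m _ => ?_
    rw [Fintype.prod_sum_type, Fintype.prod_sum_type]
    simp only [Sum.elim_inl, Sum.elim_inr]
    rw [← Finset.prod_mul_distrib]
    congr 1
    congr 1
    refine Finset.prod_congr rfl fun v _ => ?_
    rw [zpow_sub₀ (hw v), zpow_natCast, zpow_natCast, inv_pow, div_eq_mul_inv]
  have hU0 : ∀ u ∈ U, ∀ v, u v ≠ 0 := by
    intro u hu v h0
    have := hU u hu v
    rw [h0, zero_pow he.ne'] at this
    exact zero_ne_one this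
  obtain ⟨u, hu, u', hu', hne, h, h1, h2⟩ := hB e
    (fun m => ∏ i, ε i ^ m.1 (Sum.inl i)) U he (by
      intro m
      rw [← Finset.prod_pow]
      refine Finset.prod_eq_one fun i _ => ?_
      rw [← pow_mul, mul_comm, pow_mul, hε i, one_pow]) hU hcard (by
      intro u hu
      rw [← heval u (hU0 u hu)]
      exact hrel u hu)
  refine ⟨u, hu, u', hu', hne, h, h1, fun t ht => ?_⟩
  rw [heval _ fun v => mul_ne_zero (hU0 u hu v) (zpow_ne_zero _ ht)]
  exact h2 t ht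

section defs
variable {R : Type*} [CommRing R] {K n : ℕ}

/-- product over a row -/
def rowP (F : Fin K × Fin n → R) (i : Fin K) : R := ∏ j, F (i, j)

/-- common denominator -/
def den (F : Fin K × Fin n → R) : R := ∏ i, rowP F i

/-- numerator -/
def num (F : Fin K × Fin n → R) : R := ∑ i, ∏ i' ∈ univ.erase i, rowP F i'

lemma map_den {R' : Type*} [CommRing R'] (φ : R →+* R') (F : Fin K × Fin n → R) :
    φ (den F) = den (fun v => φ (F v)) := by
  simp [den, rowP, map_prod]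

lemma map_num {R' : Type*} [CommRing R'] (φ : R →+* R') (F : Fin K × Fin n → R) :
    φ (num F) = num (fun v => φ (F v)) := by
  simp [num, rowP, map_prod, map_sum]

end defs

lemma sum_inv_eq {K n : ℕ} (F : Fin K × Fin n → ℂ) (hF : ∀ v, F v ≠ 0) :
    ∑ i, (rowP F i)⁻¹ = num F / den F := by
  have hrow : ∀ i, rowP F i ≠ 0 := fun i => Finset.prod_ne_zero_iff.mpr fun j _ => hF (i, j)
  rw [num, Finset.sum_div]
  refine Finset.sum_congr rfl fun i _ => ?_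
  rw [den, ← Finset.mul_prod_erase univ (rowP F) (Finset.mem_univ i), div_mul_eq_div_div_swap,
    div_self, one_div]
  exact Finset.prod_ne_zero_iff.mpr fun j _ => hrow j

lemma den_ne_zero {K n : ℕ} (F : Fin K × Fin n → ℂ) (hF : ∀ v, F v ≠ 0) : den F ≠ 0 :=
  Finset.prod_ne_zero_iff.mpr fun i _ => Finset.prod_ne_zero_iff.mpr fun j _ => hF (i, j)

lemma tendsto_aux {l : Filter ℝ} (c : ℂ) (w : ℝ → ℂ)
    (hw : Tendsto (fun t => ‖w t‖) l atTop) :
    Tendsto (fun t => ‖c - w t - (w t)⁻¹‖) l atTop := by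
  have h1 : Tendsto (fun t => ‖(w t)⁻¹‖) l (𝓝 0) := by
    simp only [norm_inv]
    exact tendsto_inv_atTop_zero.comp hw
  have h2 : Tendsto (fun t => ‖w t‖ + -(‖c‖ + ‖(w t)⁻¹‖)) l atTop := by
    exact Tendsto.atTop_add (C := -(‖c‖ + 0)) hw (h1.const_add ‖c‖).neg
  refine tendsto_atTop_mono (fun t => ?_) h2
  have h4 : ‖w t‖ ≤ ‖c - w t - (w t)⁻¹‖ + (‖c‖ + ‖(w t)⁻¹‖) := by
    calc ‖w t‖ = ‖c - (w t)⁻¹ - (c - w t - (w t)⁻¹)‖ := by congr 1; ring
      _ ≤ ‖c - (w t)⁻¹‖ + ‖c - w t - (w t)⁻¹‖ := norm_sub_le _ _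
      _ ≤ (‖c‖ + ‖(w t)⁻¹‖) + ‖c - w t - (w t)⁻¹‖ := by
          gcongr
          exact norm_sub_le _ _
      _ = _ := by ring
  linarith

lemma tendsto_inv_zero {l : Filter ℝ} (w : ℝ → ℂ) (hw : Tendsto (fun t => ‖w t‖) l atTop) :
    Tendsto (fun t => (w t)⁻¹) l (𝓝 0) := by
  rw [tendsto_zero_iff_norm_tendsto_zero]
  simp only [norm_inv]
  exact tendsto_inv_atTop_zero.comp hw

lemma tendsto_factor (c u : ℂ) (hu : ‖u‖ = 1) (h : ℤ) (hh : h ≠ 0) :
    Tendsto (fun t : ℝ => ‖c - u * (t : ℂ) ^ h - (u * (t : ℂ) ^ h)⁻¹‖) atTop atTop := by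
  have hu0 : u ≠ 0 := by
    intro h0
    rw [h0, norm_zero] at hu
    exact zero_ne_one hu
  rcases lt_or_gt_of_ne hh with hneg | hpos
  · -- negative exponent: use the inverse
    have h1 : Tendsto (fun t : ℝ => ‖(u * (t : ℂ) ^ h)⁻¹‖) atTop atTop := by
      have h2 : ∀ t : ℝ, ‖(u * (t : ℂ) ^ h)⁻¹‖ = |t| ^ ((-h).toNat) := by
        intro t
        rw [norm_inv, norm_mul, hu, one_mul, norm_zpow, Complex.norm_real, Real.norm_eq_abs,
          ← zpow_neg, ← zpow_natCast]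
        congr 1
        omega
      simp only [h2]
      refine (tendsto_pow_atTop (by omega)).comp tendsto_abs_atTop_atTop
    have h3 := tendsto_aux c (fun t : ℝ => (u * (t : ℂ) ^ h)⁻¹) h1
    refine h3.congr fun t => ?_
    simp only [inv_inv]
    congr 1
    ring
  · have h1 : Tendsto (fun t : ℝ => ‖u * (t : ℂ) ^ h‖) atTop atTop := by
      have h2 : ∀ t : ℝ, ‖u * (t : ℂ) ^ h‖ = |t| ^ (h.toNat) := by
        intro t
        rw [norm_mul, hu, one_mul, norm_zpow, Complex.norm_real, Real.norm_eq_abs,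
          ← zpow_natCast]
        congr 1
        omega
      simp only [h2]
      refine (tendsto_pow_atTop (by omega)).comp tendsto_abs_atTop_atTop
    exact tendsto_aux c (fun t : ℝ => u * (t : ℂ) ^ h) h1

/-- Rigidity theorem: many arrays of roots of unity with the same nonzero sum of products of
`(ζ + ζ⁻¹ - u - u⁻¹)⁻¹` contain two arrays which share a full row. -/
theorem theoremA (K n : ℕ) : ∃ B : ℕ, ∀ (e : ℕ) (ζ G : ℂ) (U : Finset (Fin K × Fin n → ℂ)),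
    0 < e → ζ ^ e = 1 → G ≠ 0 → (∀ u ∈ U, ∀ v, u v ^ e = 1) →
    (∀ u ∈ U, ∀ v, ζ + ζ⁻¹ - u v - (u v)⁻¹ ≠ 0) →
    (∀ u ∈ U, ∑ i, ∏ j, (ζ + ζ⁻¹ - u (i, j) - (u (i, j))⁻¹)⁻¹ = G) → B < U.card →
    ∃ u ∈ U, ∃ u' ∈ U, u ≠ u' ∧ ∃ i, ∀ j, u (i, j) = u' (i, j) := by
  classical
  let V := Fin K × Fin n
  let I := Bool ⊕ (V ⊕ V)
  let z : MvPolynomial (I ⊕ (V ⊕ V)) ℚ := MvPolynomial.X (Sum.inl (Sum.inl true))
  let z' : MvPolynomial (I ⊕ (V ⊕ V)) ℚ := MvPolynomial.X (Sum.inl (Sum.inl false))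
  let F0 : V → MvPolynomial (I ⊕ (V ⊕ V)) ℚ := fun v =>
    z + z' - MvPolynomial.X (Sum.inl (Sum.inr (Sum.inl v)))
      - MvPolynomial.X (Sum.inl (Sum.inr (Sum.inr v)))
  let F1 : V → MvPolynomial (I ⊕ (V ⊕ V)) ℚ := fun v =>
    z + z' - MvPolynomial.X (Sum.inr (Sum.inl v)) - MvPolynomial.X (Sum.inr (Sum.inr v))
  obtain ⟨B, hB⟩ := kernel_poly (num F1 * den F0 - num F0 * den F1)
  refine ⟨B, ?_⟩
  intro e ζ G U he hζ hG hU hf hsum hcard
  have hne : U.Nonempty := Finset.card_pos.mp (by omega)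
  obtain ⟨u₀, hu₀⟩ := hne
  let f0 : V → ℂ := fun v => ζ + ζ⁻¹ - u₀ v - (u₀ v)⁻¹
  let ε : I → ℂ := Sum.elim (fun b => if b then ζ else ζ⁻¹) (Sum.elim u₀ fun v => (u₀ v)⁻¹)
  have heval : ∀ w : V → ℂ, MvPolynomial.aeval (Sum.elim ε (Sum.elim w fun v => (w v)⁻¹))
      (num F1 * den F0 - num F0 * den F1)
      = num (fun v => ζ + ζ⁻¹ - w v - (w v)⁻¹) * den f0
        - num f0 * den (fun v => ζ + ζ⁻¹ - w v - (w v)⁻¹) := by
    intro w
    rw [← AlgHom.coe_toRingHom]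
    rw [map_sub, map_mul, map_mul, map_num, map_num, map_den, map_den]
    have hF0 : (fun v => (MvPolynomial.aeval (R := ℚ)
        (Sum.elim ε (Sum.elim w fun v => (w v)⁻¹)) : _ →+* ℂ) (F0 v)) = f0 := by
      funext v
      simp [F0, f0, z, z', ε]
    have hF1 : (fun v => (MvPolynomial.aeval (R := ℚ)
        (Sum.elim ε (Sum.elim w fun v => (w v)⁻¹)) : _ →+* ℂ) (F1 v))
        = fun v => ζ + ζ⁻¹ - w v - (w v)⁻¹ := by
      funext v
      simp [F1, z, z', ε]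
    rw [hF0, hF1]
  have hG0 : num f0 / den f0 = G := by
    rw [← sum_inv_eq f0 (hf u₀ hu₀), ← hsum u₀ hu₀]
    refine Finset.sum_congr rfl fun i _ => ?_
    rw [rowP, Finset.prod_inv_distrib]
  have hd0 : den f0 ≠ 0 := den_ne_zero f0 (hf u₀ hu₀)
  obtain ⟨u, hu, u', hu', hne, h, h1, h2⟩ := hB e ε U he (by
    intro s
    rcases s with b | (v | v)
    · cases b <;> simp [ε, hζ]
    · simp only [ε, Sum.elim_inr, Sum.elim_inl]
      exact hU u₀ hu₀ v
    · simp only [ε, Sum.elim_inr, inv_pow]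
      rw [hU u₀ hu₀ v, inv_one]) hU hcard (by
    intro u hu
    rw [heval]
    have h3 := sum_inv_eq _ (hf u hu)
    have h4 : ∑ i, (rowP (fun v => ζ + ζ⁻¹ - u v - (u v)⁻¹) i)⁻¹ = G := by
      rw [← hsum u hu]
      refine Finset.sum_congr rfl fun i _ => ?_
      rw [rowP, Finset.prod_inv_distrib]
    have h5 := den_ne_zero _ (hf u hu)
    rw [h4, ← hG0, div_eq_div_iff hd0 h5] at h3
    rw [h3]; ring)
  refine ⟨u, hu, u', hu', hne, ?_⟩
  by_contra hcon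
  push Not at hcon
  have hmove : ∀ i, ∃ j, h (i, j) ≠ 0 := by
    intro i
    obtain ⟨j, hj⟩ := hcon i
    exact ⟨j, fun h0 => hj (h1 (i, j) h0)⟩
  have hnorm : ∀ v, ‖u v‖ = 1 := fun v => Complex.norm_eq_one_of_pow_eq_one (hU u hu v) he.ne'
  -- the factors along the curve
  let Ft : ℝ → V → ℂ := fun t v => ζ + ζ⁻¹ - u v * (t : ℂ) ^ h v - (u v * (t : ℂ) ^ h v)⁻¹
  have hFt : ∀ v, Tendsto (fun t => (Ft t v)⁻¹) atTop
      (𝓝 (if h v = 0 then (ζ + ζ⁻¹ - u v - (u v)⁻¹)⁻¹ else 0)) := by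
    intro v
    by_cases hv : h v = 0
    · simp only [Ft, hv, zpow_zero, mul_one, if_true]
      exact tendsto_const_nhds
    · rw [if_neg hv]
      exact tendsto_inv_zero _ (tendsto_factor (ζ + ζ⁻¹) (u v) (hnorm v) (h v) hv)
  have hsum0 : Tendsto (fun t => ∑ i, (rowP (Ft t) i)⁻¹) atTop (𝓝 0) := by
    have h3 : Tendsto (fun t => ∑ i, ∏ j, (Ft t (i, j))⁻¹) atTop
        (𝓝 (∑ i : Fin K, ∏ j : Fin n, (if h (i, j) = 0 then
          (ζ + ζ⁻¹ - u (i, j) - (u (i, j))⁻¹)⁻¹ else 0))) := by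
      refine tendsto_finsetSum _ fun i _ => ?_
      refine tendsto_finsetProd _ fun j _ => ?_
      exact hFt (i, j)
    have h4 : (∑ i : Fin K, ∏ j : Fin n, (if h (i, j) = 0 then
          (ζ + ζ⁻¹ - u (i, j) - (u (i, j))⁻¹)⁻¹ else (0 : ℂ))) = 0 := by
      refine Finset.sum_eq_zero fun i _ => ?_
      obtain ⟨j, hj⟩ := hmove i
      refine Finset.prod_eq_zero (Finset.mem_univ j) ?_
      rw [if_neg hj]
    rw [h4] at h3
    refine h3.congr fun t => ?_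
    refine Finset.sum_congr rfl fun i _ => ?_
    rw [rowP, Finset.prod_inv_distrib]
  have hev : ∀ᶠ t : ℝ in atTop, ∀ v, Ft t v ≠ 0 := by
    rw [eventually_all]
    intro v
    by_cases hv : h v = 0
    · refine Eventually.of_forall fun t => ?_
      simp only [Ft, hv, zpow_zero, mul_one]
      exact hf u hu v
    · filter_upwards [(tendsto_factor (ζ + ζ⁻¹) (u v) (hnorm v) (h v) hv).eventually_gt_atTop 0]
        with t ht
      exact norm_pos_iff.mp ht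
  have hconst : ∀ᶠ t : ℝ in atTop, ∑ i, (rowP (Ft t) i)⁻¹ = G := by
    filter_upwards [hev, eventually_gt_atTop 0] with t ht htpos
    rw [sum_inv_eq _ ht, ← hG0]
    have h3 := h2 (t : ℂ) (by exact_mod_cast htpos.ne')
    rw [heval] at h3
    have h5 : den (Ft t) ≠ 0 := den_ne_zero _ ht
    rw [div_eq_div_iff h5 hd0]
    linear_combination h3
  have hlim : Tendsto (fun t => ∑ i, (rowP (Ft t) i)⁻¹) atTop (𝓝 G) :=
    tendsto_const_nhds.congr' (hconst.mono fun t ht => ht.symm)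
  exact hG (tendsto_nhds_unique hlim hsum0)

end Pool.Agent.Helper78.TheoremA
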