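import Mathlib
import Pool.Agent.Helper78.TheoremA
import Pool.Agent.Helper78.Limit
import Pool.Agent.Helper78.Extension
import Pool.Agent.Helper78.GroupBound

/-!
Finiteness of isospectral sets of spherical space forms: assembly of the proof.
-/

namespace Pool.Agent.Helper78.Assembly

open Finset
open Pool.Agent.Helper78.Eigen Pool.Agent.Helper78.Harm Pool.Agent.Helper78.Molien
open Pool.Agent.Helper78.Limit

/-- `Γ'` is conjugate to `Γ` in the orthogonal group -/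
def Conj {N : ℕ} (Γ Γ' : Subgroup (Og N)) : Prop := ∃ Q : Og N, ∀ z, z ∈ Γ' ↔ Q⁻¹ * z * Q ∈ Γ

/-- the conclusion of the extension theorem with bound `B` -/
def ExtBound (N m B : ℕ) : Prop := ∀ (c : Og N) (F : Type) [Fintype F]
    (G : F → Subgroup (Og N)), IsOfFinOrder c →
    (∀ Γ : F, c ∈ G Γ ∧ Free (G Γ) ∧ (∀ γ ∈ G Γ, γ * c * γ⁻¹ ∈ Subgroup.zpowers c) ∧
      Nat.card (G Γ) = m * orderOf c) → B < Fintype.card F →
    ∃ Γ Γ' : F, Γ ≠ Γ' ∧ ∃ Q : Og N, ∀ z, z ∈ G Γ' ↔ Q⁻¹ * z * Q ∈ G Γ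

/-- the conclusion of the rigidity theorem with bound `B` -/
def RowBound (K n B : ℕ) : Prop := ∀ (e : ℕ) (ζ G : ℂ) (U : Finset (Fin K × Fin n → ℂ)),
    0 < e → ζ ^ e = 1 → G ≠ 0 → (∀ u ∈ U, ∀ v, u v ^ e = 1) →
    (∀ u ∈ U, ∀ v, ζ + ζ⁻¹ - u v - (u v)⁻¹ ≠ 0) →
    (∀ u ∈ U, ∑ i, ∏ j, (ζ + ζ⁻¹ - u (i, j) - (u (i, j))⁻¹)⁻¹ = G) → B < U.card →
    ∃ u ∈ U, ∃ u' ∈ U, u ≠ u' ∧ ∃ i, ∀ j, u (i, j) = u' (i, j)

lemma fn_of_multiset {n : ℕ} (m : Multiset ℂ) (h : Multiset.card m = n) :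
    ∃ w : Fin n → ℂ, (univ : Finset (Fin n)).val.map w = m := by
  induction m using Quotient.inductionOn with
  | _ l =>
    have hl : l.length = n := h
    subst hl
    refine ⟨fun i => l.get i, ?_⟩
    rw [Fin.univ_val_map]
    congr 1
    exact List.ofFn_get l

/-- elements with maximal multiplicity of the eigenvalue -/
noncomputable def top {N : ℕ} (Γ : Subgroup (Og N)) [Finite Γ] (ζ : ℂ) (A : ℕ) :
    Finset (Og N) :=
  (Set.toFinite (Γ : Set (Og N))).toFinset.filter fun g => (ev g).count ζ = A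

lemma mem_top {N : ℕ} {Γ : Subgroup (Og N)} [Finite Γ] {ζ : ℂ} {A : ℕ} {g : Og N} :
    g ∈ top Γ ζ A ↔ g ∈ Γ ∧ (ev g).count ζ = A := by
  rw [top, mem_filter, Set.Finite.mem_toFinset, SetLike.mem_coe]

lemma sum_top {N : ℕ} (Γ : Subgroup (Og N)) [Finite Γ] [Fintype Γ] (ζ : ℂ) (A : ℕ) (f : Og N → ℂ) :
    ∑ g : Γ, (if (ev (g : Og N)).count ζ = A then f g else 0) = ∑ g ∈ top Γ ζ A, f g := by
  rw [top, Finset.sum_filter]
  exact (Finset.sum_subtype ((Set.toFinite (Γ : Set (Og N))).toFinset) (p := fun x => x ∈ Γ)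
    (fun x => by rw [Set.Finite.mem_toFinset, SetLike.mem_coe])
    (fun g => if (ev g).count ζ = A then f g else 0)).symm

/-- freeness is invariant under conjugation -/
lemma free_conj {N : ℕ} {Γ Γ' : Subgroup (Og N)} (hfree : Free Γ) (q : Og N)
    (h : ∀ z, z ∈ Γ' ↔ q⁻¹ * z * q ∈ Γ) : Free Γ' := by
  intro z hz hz1 v hv
  rw [h] at hz
  have hne : q⁻¹ * z * q ≠ 1 := by
    intro h
    apply hz1
    have : z = q * (q⁻¹ * z * q) * q⁻¹ := by group
    rw [this, h]; group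
  have h1 : ((q⁻¹ * z * q : Og N) : Matrix (Fin N) (Fin N) ℝ).mulVec
      (((q⁻¹ : Og N) : Matrix (Fin N) (Fin N) ℝ).mulVec v)
      = ((q⁻¹ : Og N) : Matrix (Fin N) (Fin N) ℝ).mulVec v := by
    rw [Matrix.mulVec_mulVec]
    have h2 : ((q⁻¹ * z * q : Og N) : Matrix (Fin N) (Fin N) ℝ) *
        ((q⁻¹ : Og N) : Matrix (Fin N) (Fin N) ℝ)
        = ((q⁻¹ : Og N) : Matrix (Fin N) (Fin N) ℝ) * (z : Matrix (Fin N) (Fin N) ℝ) := by
      have h3 : (q⁻¹ * z * q) * q⁻¹ = q⁻¹ * z := by group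
      exact congrArg (fun g : Og N => (g : Matrix (Fin N) (Fin N) ℝ)) h3
    rw [h2, ← Matrix.mulVec_mulVec, hv]
  have h4 := hfree _ hz hne _ h1
  have h5 : (q : Matrix (Fin N) (Fin N) ℝ) * ((q⁻¹ : Og N) : Matrix (Fin N) (Fin N) ℝ) = 1 := by
    have h6 : q * q⁻¹ = 1 := by group
    exact congrArg (fun g : Og N => (g : Matrix (Fin N) (Fin N) ℝ)) h6
  calc v = ((q : Matrix (Fin N) (Fin N) ℝ) *
        ((q⁻¹ : Og N) : Matrix (Fin N) (Fin N) ℝ)).mulVec v := by rw [h5, Matrix.one_mulVec]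
    _ = (q : Matrix (Fin N) (Fin N) ℝ).mulVec
        (((q⁻¹ : Og N) : Matrix (Fin N) (Fin N) ℝ).mulVec v) := (Matrix.mulVec_mulVec _ _ _).symm
    _ = 0 := by rw [h4, Matrix.mulVec_zero]

/-- the main step when the cyclic part has order at least `3` -/
lemma core (N k e A K B₁ B₂ : ℕ) (hN : 0 < N) (hk : 0 < k) (he : 3 ≤ e) (hA1 : 1 ≤ A) (hK : 0 < K)
    (hext : ExtBound N (k * Nat.gcd e k) B₁) (hrow : RowBound K (N / 2 - A) B₂)
    (ι : Type) [Fintype ι] (G : ι → Subgroup (Og N)) [∀ i, Finite (G i)]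
    (hfree : ∀ i, Free (G i)) (hcard : ∀ i, Nat.card (G i) = k * e)
    (hiso : ∀ i j k, Module.finrank ℂ (harmInv (G i) k) = Module.finrank ℂ (harmInv (G j) k))
    (hA : ∀ i, ∀ g ∈ G i, (ev g).count (zet e) ≤ A)
    (hKc : ∀ i, (top (G i) (zet e) A).card = K)
    (hnorm : ∀ i, ∀ g ∈ G i, zet e ∈ ev g → orderOf g = e ∧
      ∀ γ ∈ G i, γ * g ^ k * γ⁻¹ ∈ Subgroup.zpowers (g ^ k))
    (hbig : B₂ * K * B₁ < Fintype.card ι) :
    ∃ i j, i ≠ j ∧ Conj (G i) (G j) := by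
  classical
  have : ∀ i, Fintype (G i) := fun i => Fintype.ofFinite _
  have he0 : 0 < e := by omega
  set ζ := zet e with hζdef
  have hζp : IsPrimitiveRoot ζ e := zet_prim he0
  have hζim : 0 < ζ.im := im_zet_pos he
  have hζn : ‖ζ‖ = 1 := Complex.norm_eq_one_of_pow_eq_one hζp.pow_eq_one (by omega)
  have hζ0 : ζ ≠ 0 := hζp.ne_zero he0.ne'
  set n := N / 2 - A with hn
  have hfo : ∀ i, ∀ g ∈ G i, IsOfFinOrder g := fun i g hg => GroupBound.isOfFinOrder_of_mem hg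
  have hmemζ : ∀ i, ∀ g ∈ top (G i) ζ A, ζ ∈ ev g := by
    intro i g hg
    rw [mem_top] at hg
    rw [← Multiset.count_pos, hg.2]
    exact hA1
  have hprim : ∀ i, ∀ g ∈ top (G i) ζ A, ∀ a ∈ ev g, IsPrimitiveRoot a e := by
    intro i g hg a ha
    have hgG := (mem_top.mp hg).1
    have h1 := isPrimitiveRoot_of_mem_ev (hfree i) hgG (hfo i g hgG) ha
    rwa [(hnorm i g hgG (hmemζ i g hg)).1] at h1
  have hcu : ∀ i, ∀ g ∈ top (G i) ζ A, Multiset.card (up g ζ) = n := by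
    intro i g hg
    rw [card_up (hfo i g (mem_top.mp hg).1) he (hprim i g hg) ζ hζim, (mem_top.mp hg).2]
  -- enumeration
  let en : ∀ i, Fin K ≃ top (G i) ζ A := fun i => ((top (G i) ζ A).equivFinOfCardEq (hKc i)).symm
  let g : ι → Fin K → Og N := fun i a => (en i a).1
  have hg : ∀ i a, g i a ∈ top (G i) ζ A := fun i a => (en i a).2
  have hw : ∀ i a, ∃ w : Fin n → ℂ, (univ : Finset (Fin n)).val.map w = up (g i a) ζ :=
    fun i a => fn_of_multiset _ (hcu i _ (hg i a))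
  choose w hw using hw
  have hwmem : ∀ i a j, w i a j ∈ up (g i a) ζ := by
    intro i a j
    rw [← hw i a, Multiset.mem_map]
    exact ⟨j, Finset.mem_univ j, rfl⟩
  have hwev : ∀ i a j, w i a j ∈ ev (g i a) ∧ 0 < (w i a j).im ∧ w i a j ≠ ζ := by
    intro i a j
    have := hwmem i a j
    rw [up, Multiset.mem_filter] at this
    exact this
  have hwpow : ∀ i a j, w i a j ^ e = 1 := fun i a j =>
    (hprim i _ (hg i a) _ (hwev i a j).1).pow_eq_one
  have hwn : ∀ i a j, ‖w i a j‖ = 1 := fun i a j =>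
    Complex.norm_eq_one_of_pow_eq_one (hwpow i a j) he0.ne'
  have hwre : ∀ i a j, 0 < 2 * ζ.re - 2 * (w i a j).re := by
    intro i a j
    have := re_lt he0 (hwpow i a j) (hwev i a j).2.1 (hwev i a j).2.2
    linarith
  have hfac : ∀ i a j, ζ + ζ⁻¹ - w i a j - (w i a j)⁻¹
      = ((2 * ζ.re - 2 * (w i a j).re : ℝ) : ℂ) := fun i a j => factor_eq hζn (hwn i a j)
  have hfac0 : ∀ i a j, ζ + ζ⁻¹ - w i a j - (w i a j)⁻¹ ≠ 0 := by
    intro i a j
    rw [hfac]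
    exact_mod_cast (hwre i a j).ne'
  let u : ι → (Fin K × Fin n → ℂ) := fun i v => w i v.1 v.2
  let val : ι → ℂ := fun i => ∑ a, ∏ j, (ζ + ζ⁻¹ - u i (a, j) - (u i (a, j))⁻¹)⁻¹
  have hval0 : ∀ i, val i ≠ 0 := by
    intro i
    have h1 : val i = ((∑ a : Fin K, ∏ j : Fin n, (2 * ζ.re - 2 * (w i a j).re)⁻¹ : ℝ) : ℂ) := by
      simp only [val, u]
      push_cast
      refine Finset.sum_congr rfl fun a _ => Finset.prod_congr rfl fun j _ => ?_
      rw [hfac]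
      push_cast
      rfl
    rw [h1]
    have h2 : (0 : ℝ) < ∑ a : Fin K, ∏ j : Fin n, (2 * ζ.re - 2 * (w i a j).re)⁻¹ := by
      refine Finset.sum_pos (fun a _ => Finset.prod_pos fun j _ => inv_pos.mpr (hwre i a j)) ?_
      exact ⟨⟨0, hK⟩, Finset.mem_univ _⟩
    exact_mod_cast h2.ne'
  -- relation with the leading coefficients
  set c₀ : ℂ := (1 - (starRingEnd ℂ) ζ * ζ⁻¹) ^ A * (ζ⁻¹) ^ (N / 2 - A) with hc₀
  have hlead : ∀ i, ∀ x ∈ top (G i) ζ A, lead x ζ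
      = c₀ * ((up x ζ).map fun a => ζ + ζ⁻¹ - a - a⁻¹).prod := by
    intro i x hx
    have h1 := lead_formula (hfo i x (mem_top.mp hx).1) he (hprim i x hx) ζ hζim
    rw [(mem_top.mp hx).2] at h1
    exact h1
  have hvalsum : ∀ i, val i = c₀ * ∑ x ∈ top (G i) ζ A, (lead x ζ)⁻¹ := by
    intro i
    have h1 : ∑ x ∈ top (G i) ζ A, (lead x ζ)⁻¹ = ∑ a : Fin K, (lead (g i a) ζ)⁻¹ := by
      rw [← Finset.sum_coe_sort]
      exact (Equiv.sum_comp (en i) (fun x : top (G i) ζ A => (lead (x : Og N) ζ)⁻¹)).symm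
    rw [h1, Finset.mul_sum]
    refine Finset.sum_congr rfl fun a _ => ?_
    have h2 := hlead i _ (hg i a)
    have h3 := lead_ne (g i a) ζ hζ0
    rw [h2] at h3 ⊢
    have h4 : c₀ ≠ 0 := left_ne_zero_of_mul h3
    have h5 : ((up (g i a) ζ).map fun a => ζ + ζ⁻¹ - a - a⁻¹).prod
        = ∏ j, (ζ + ζ⁻¹ - w i a j - (w i a j)⁻¹) := by
      rw [← hw i a, Multiset.map_map]
      rfl
    rw [h5, Finset.prod_inv_distrib, mul_inv, ← mul_assoc, mul_inv_cancel₀ h4, one_mul]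
  have hvaleq : ∀ i j, val i = val j := by
    intro i j
    rw [hvalsum, hvalsum]
    congr 1
    rw [← sum_top (G i) ζ A (fun x => (lead x ζ)⁻¹), ← sum_top (G j) ζ A (fun x => (lead x ζ)⁻¹)]
    exact lead_sum_eq hN (G i) (G j) (by rw [hcard, hcard]) (hiso i j) ζ hζn A
      (fun x => hA i x x.2) (fun x => hA j x x.2)
  -- maximal family without shared rows
  let Share : ι → ι → Prop := fun i j => ∃ a, ∀ b, u i (a, b) = u j (a, b)
  have hShareSymm : ∀ i j, Share i j → Share j i := fun i j ⟨a, h⟩ => ⟨a, fun b => (h b).symm⟩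
  have hShareRefl : ∀ i, Share i i := fun i => ⟨⟨0, hK⟩, fun b => rfl⟩
  let fam : Finset (Finset ι) := univ.filter fun T => ∀ i ∈ T, ∀ j ∈ T, i ≠ j → ¬ Share i j
  have hfam : fam.Nonempty := ⟨∅, by simp [fam]⟩
  obtain ⟨T, hT, hTmax⟩ := Finset.exists_max_image fam Finset.card hfam
  have hT' : ∀ i ∈ T, ∀ j ∈ T, i ≠ j → ¬ Share i j := (Finset.mem_filter.mp hT).2
  have hTshare : ∀ i, ∃ j ∈ T, Share i j := by
    intro i
    by_cases hi : i ∈ T
    · exact ⟨i, hi, hShareRefl i⟩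
    · by_contra hcon
      push Not at hcon
      have h1 : insert i T ∈ fam := by
        rw [Finset.mem_filter]
        refine ⟨Finset.mem_univ _, ?_⟩
        intro x hx y hy hxy
        rcases Finset.mem_insert.mp hx with rfl | hx'
        · rcases Finset.mem_insert.mp hy with rfl | hy'
          · exact absurd rfl hxy
          · exact hcon y hy'
        · rcases Finset.mem_insert.mp hy with rfl | hy'
          · exact fun h => hcon x hx' (hShareSymm _ _ h)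
          · exact hT' x hx' y hy' hxy
      have h2 := hTmax _ h1
      rw [Finset.card_insert_of_notMem hi] at h2
      omega
  have hTcard : T.card ≤ B₂ := by
    by_contra hcon
    push Not at hcon
    have hinj : Set.InjOn u T := by
      intro i hi j hj hij
      by_contra hne
      exact hT' i hi j hj hne ⟨⟨0, hK⟩, fun b => by rw [hij]⟩
    have hTne : T.Nonempty := Finset.card_pos.mp (by omega)
    obtain ⟨i₀, _⟩ := hTne
    obtain ⟨x, hx, y, hy, hxy, a, hab⟩ := hrow e ζ (val i₀) (T.image u) he0 hζp.pow_eq_one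
      (hval0 i₀) (by
        intro x hx v
        obtain ⟨i, _, rfl⟩ := Finset.mem_image.mp hx
        exact hwpow i v.1 v.2) (by
        intro x hx v
        obtain ⟨i, _, rfl⟩ := Finset.mem_image.mp hx
        exact hfac0 i v.1 v.2) (by
        intro x hx
        obtain ⟨i, _, rfl⟩ := Finset.mem_image.mp hx
        exact hvaleq i i₀) (by rw [Finset.card_image_of_injOn hinj]; exact hcon)
    obtain ⟨i, hi, rfl⟩ := Finset.mem_image.mp hx
    obtain ⟨j, hj, rfl⟩ := Finset.mem_image.mp hy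
    exact hT' i hi j hj (fun h => hxy (by rw [h])) ⟨a, hab⟩
  -- pigeonhole
  choose f hfT a hfa using hTshare
  have hmaps : ∀ i ∈ (univ : Finset ι), (f i, a i) ∈ T ×ˢ (univ : Finset (Fin K)) := fun i _ =>
    Finset.mk_mem_product (hfT i) (Finset.mem_univ _)
  have hlt : (T ×ˢ (univ : Finset (Fin K))).card * B₁ < (univ : Finset ι).card := by
    rw [Finset.card_product, Finset.card_univ, Fintype.card_fin, Finset.card_univ]
    refine lt_of_le_of_lt ?_ hbig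
    gcongr
  obtain ⟨⟨i₀, a₀⟩, _, hfib⟩ := Finset.exists_lt_card_fiber_of_mul_lt_card_of_maps_to hmaps hlt
  set F₁ := univ.filter (fun i => (f i, a i) = (i₀, a₀)) with hF₁
  have hF₁mem : ∀ i : F₁, f i = i₀ ∧ a i = a₀ := by
    intro i
    have := (Finset.mem_filter.mp i.2).2
    exact ⟨congrArg Prod.fst this, congrArg Prod.snd this⟩
  -- the common element
  set g₀ := g i₀ a₀ with hg₀
  have hev : ∀ i : F₁, ev (g i a₀) = ev g₀ := by
    intro i
    obtain ⟨h1, h2⟩ := hF₁mem i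
    have h3 := hfa i
    rw [h1, h2] at h3
    have h4 : w i a₀ = w i₀ a₀ := funext h3
    have h5 : up (g i a₀) ζ = up g₀ ζ := by rw [← hw i a₀, ← hw i₀ a₀, h4]
    refine ev_eq_of_up (hfo _ _ (mem_top.mp (hg i a₀)).1) (hfo _ _ (mem_top.mp (hg i₀ a₀)).1) he
      (hprim _ _ (hg i a₀)) (hprim _ _ (hg i₀ a₀)) ζ hζim ?_ h5
    rw [(mem_top.mp (hg i a₀)).2, (mem_top.mp (hg i₀ a₀)).2]
  have hconj : ∀ i : F₁, ∃ Q : Og N, Q * g i a₀ * Q⁻¹ = g₀ := fun i =>
    conj_of_ev_eq (hfo _ _ (mem_top.mp (hg i a₀)).1) (hfo _ _ (mem_top.mp (hg i₀ a₀)).1) (hev i)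
  choose Q hQ using hconj
  -- conjugated groups
  let G' : F₁ → Subgroup (Og N) := fun i => (G i).map (MulAut.conj (Q i)).toMonoidHom
  have hG' : ∀ (i : F₁) (z : Og N), z ∈ G' i ↔ (Q i)⁻¹ * z * Q i ∈ G i := by
    intro i z
    simp only [G', Subgroup.mem_map]
    constructor
    · rintro ⟨x, hx, rfl⟩
      have : (Q i)⁻¹ * (MulAut.conj (Q i)).toMonoidHom x * Q i = x := by
        change (Q i)⁻¹ * (Q i * x * (Q i)⁻¹) * Q i = x
        group
      rw [this]; exact hx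
    · intro h
      refine ⟨_, h, ?_⟩
      change Q i * ((Q i)⁻¹ * z * Q i) * (Q i)⁻¹ = z
      group
  have hg₀fo : IsOfFinOrder g₀ := hfo _ _ (mem_top.mp (hg i₀ a₀)).1
  have hg₀o : orderOf g₀ = e :=
    (hnorm i₀ g₀ (mem_top.mp (hg i₀ a₀)).1 (hmemζ _ _ (hg i₀ a₀))).1
  obtain ⟨i, j, hij, P, hP⟩ := hext (g₀ ^ k) F₁ G' (hg₀fo.pow) (by
    intro i
    have hgi := hg i a₀
    have hgiG := (mem_top.mp hgi).1
    have hno := hnorm i _ hgiG (hmemζ _ _ hgi)
    have hconjpow : (Q i)⁻¹ * g₀ ^ k * Q i = (g i a₀) ^ k := by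
      rw [← hQ i, conj_pow]; group
    refine ⟨?_, ?_, ?_, ?_⟩
    · rw [hG', hconjpow]; exact pow_mem hgiG k
    · exact free_conj (hfree i) (Q i) (hG' i)
    · intro γ hγ
      rw [hG'] at hγ
      obtain ⟨r, hr⟩ := hno.2 _ hγ
      refine ⟨r, ?_⟩
      simp only at hr ⊢
      have h1 : g₀ ^ k = Q i * (g i a₀) ^ k * (Q i)⁻¹ := by rw [← hconjpow]; group
      rw [h1, conj_zpow, hr]
      group
    · have h1 : Nat.card (G' i) = Nat.card (G i) := by
        refine Nat.card_congr ((G i).equivMapOfInjective _ ?_).symm.toEquiv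
        exact (MulAut.conj (Q i)).injective
      rw [h1, hcard, orderOf_pow' g₀ hk.ne', hg₀o, mul_assoc]
      congr 1
      rw [Nat.mul_div_cancel' (Nat.gcd_dvd_left e k)]) (by
    rw [Fintype.card_coe]; exact hfib)
  refine ⟨i, j, fun h => hij (Subtype.ext h), (Q j)⁻¹ * P * Q i, fun z => ?_⟩
  have h1 := hP (Q j * z * (Q j)⁻¹)
  rw [hG', hG'] at h1
  have h2 : (Q j)⁻¹ * (Q j * z * (Q j)⁻¹) * Q j = z := by group
  have h3 : (Q i)⁻¹ * (P⁻¹ * (Q j * z * (Q j)⁻¹) * P) * Q i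
      = ((Q j)⁻¹ * P * Q i)⁻¹ * z * ((Q j)⁻¹ * P * Q i) := by group
  rw [h2, h3] at h1
  exact h1

end Pool.Agent.Helper78.Assembly
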