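import Mathlib
import Pool.Agent.Helper78.Main

/-!
Spherical space forms as metric spaces; conjugate groups give isometric space forms.
-/

namespace Pool.Agent.Helper78.Geom

open Pool.Agent.Helper78.Eigen Pool.Agent.Helper78.Assembly

/-- The Euclidean space `ℝ^(d+1)`. -/
abbrev E (d : ℕ) := EuclideanSpace ℝ (Fin (d + 1))

/-- The unit sphere `S^d` of `ℝ^(d+1)`. -/
abbrev S (d : ℕ) := Metric.sphere (0 : E d) 1

/-- The orthogonal group `O(d+1)`. -/
abbrev O (d : ℕ) := Matrix.orthogonalGroup (Fin (d + 1)) ℝ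

/-- The action of `O(d+1)` on `ℝ^(d+1)` by matrix-vector multiplication. -/
def app {d : ℕ} (g : O d) (x : E d) : E d :=
  WithLp.toLp 2 ((g : Matrix (Fin (d + 1)) (Fin (d + 1)) ℝ).mulVec (WithLp.ofLp x))

/-- `Γ` is a finite subgroup of `O(d+1)` which acts freely on the sphere `S^d`. -/
def IsSpaceFormGroup {d : ℕ} (Γ : Subgroup (O d)) : Prop :=
  Finite Γ ∧ ∀ g ∈ Γ, g ≠ 1 → ∀ x : S d, app g x ≠ x

/-- The spherical space form `S^d / Γ` (the set of orbits). -/
def SpaceForm {d : ℕ} (Γ : Subgroup (O d)) : Type :=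
  Quot fun x y : S d => ∃ g ∈ Γ, app g x = y

/-- The orbit of a point of the sphere. -/
def orb {d : ℕ} (Γ : Subgroup (O d)) (x : S d) : SpaceForm Γ := Quot.mk _ x

/-- The distance of the quotient metric on `S^d / Γ`: the least angle between representatives. -/
noncomputable def qdist {d : ℕ} (Γ : Subgroup (O d)) (p q : SpaceForm Γ) : ℝ :=
  sInf {a : ℝ | ∃ x y : S d, orb Γ x = p ∧ orb Γ y = q ∧
    a = InnerProductGeometry.angle (x : E d) (y : E d)}

/-- `S^d / Γ` and `S^d / Γ'` are isometric. -/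
def Isometric {d : ℕ} (Γ Γ' : Subgroup (O d)) : Prop :=
  ∃ φ : SpaceForm Γ ≃ SpaceForm Γ', ∀ p q, qdist Γ' (φ p) (φ q) = qdist Γ p q

lemma app_mul {d : ℕ} (g h : O d) (x : E d) : app (g * h) x = app g (app h x) := by
  unfold app
  rw [WithLp.ofLp_toLp, Matrix.mulVec_mulVec]
  rfl

lemma app_one {d : ℕ} (x : E d) : app (1 : O d) x = x := by
  unfold app
  have : ((1 : O d) : Matrix (Fin (d + 1)) (Fin (d + 1)) ℝ) = 1 := rfl
  rw [this, Matrix.one_mulVec]

lemma inner_app {d : ℕ} (g : O d) (x y : E d) : inner ℝ (app g x) (app g y) = inner ℝ x y := by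
  have h1 : (g : Matrix (Fin (d + 1)) (Fin (d + 1)) ℝ).transpose *
      (g : Matrix (Fin (d + 1)) (Fin (d + 1)) ℝ) = 1 :=
    (Matrix.mem_orthogonalGroup_iff' _ _).mp g.2
  simp only [EuclideanSpace.inner_eq_star_dotProduct, app, star_trivial]
  rw [Matrix.dotProduct_mulVec, Matrix.vecMul_mulVec, h1]
  simp

lemma norm_app {d : ℕ} (g : O d) (x : E d) : ‖app g x‖ = ‖x‖ := by
  rw [norm_eq_sqrt_real_inner, norm_eq_sqrt_real_inner, inner_app]

lemma angle_app {d : ℕ} (g : O d) (x y : E d) :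
    InnerProductGeometry.angle (app g x) (app g y) = InnerProductGeometry.angle x y := by
  unfold InnerProductGeometry.angle
  rw [inner_app, norm_app, norm_app]

/-- the action on the sphere -/
def appS {d : ℕ} (g : O d) (x : S d) : S d := ⟨app g x, by
  rw [mem_sphere_zero_iff_norm, norm_app]
  exact mem_sphere_zero_iff_norm.mp x.2⟩

lemma appS_mul {d : ℕ} (g h : O d) (x : S d) : appS (g * h) x = appS g (appS h x) :=
  Subtype.ext (app_mul g h x)

lemma appS_one {d : ℕ} (x : S d) : appS (1 : O d) x = x :=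
  Subtype.ext (app_one (x : E d))

lemma orb_eq_of {d : ℕ} {Γ : Subgroup (O d)} {x y : S d} (h : ∃ g ∈ Γ, app g x = y) :
    orb Γ x = orb Γ y := Quot.sound h

/-- the map of space forms induced by an orthogonal map -/
def mapForm {d : ℕ} {Γ Γ' : Subgroup (O d)} (Q : O d) (h : ∀ z, z ∈ Γ' ↔ Q⁻¹ * z * Q ∈ Γ) :
    SpaceForm Γ → SpaceForm Γ' :=
  Quot.lift (fun x => orb Γ' (appS Q x)) (by
    rintro x y ⟨g, hg, hgy⟩
    apply orb_eq_of
    refine ⟨Q * g * Q⁻¹, ?_, ?_⟩
    · rw [h]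
      have : Q⁻¹ * (Q * g * Q⁻¹) * Q = g := by group
      rw [this]; exact hg
    · change app (Q * g * Q⁻¹) (app Q x) = app Q y
      rw [← hgy, ← app_mul, ← app_mul]
      congr 1
      group)

lemma mapForm_orb {d : ℕ} {Γ Γ' : Subgroup (O d)} (Q : O d)
    (h : ∀ z, z ∈ Γ' ↔ Q⁻¹ * z * Q ∈ Γ) (x : S d) :
    mapForm Q h (orb Γ x) = orb Γ' (appS Q x) := rfl

/-- Conjugate groups have isometric space forms. -/
theorem isometric_of_conj {d : ℕ} {Γ Γ' : Subgroup (O d)} (h : Conj Γ Γ') : Isometric Γ Γ' := by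
  obtain ⟨Q, hQ⟩ := h
  have hQ' : ∀ z, z ∈ Γ ↔ (Q⁻¹)⁻¹ * z * Q⁻¹ ∈ Γ' := by
    intro z
    rw [hQ]
    have : Q⁻¹ * ((Q⁻¹)⁻¹ * z * Q⁻¹) * Q = z := by group
    rw [this]
  have hinv1 : ∀ x : S d, appS Q⁻¹ (appS Q x) = x := by
    intro x
    rw [← appS_mul, inv_mul_cancel, appS_one]
  have hinv2 : ∀ x : S d, appS Q (appS Q⁻¹ x) = x := by
    intro x
    rw [← appS_mul, mul_inv_cancel, appS_one]
  let φ : SpaceForm Γ ≃ SpaceForm Γ' :=
    { toFun := mapForm Q hQ
      invFun := mapForm Q⁻¹ hQ'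
      left_inv := by
        intro p
        induction p using Quot.ind with
        | _ x =>
          change mapForm Q⁻¹ hQ' (mapForm Q hQ (orb Γ x)) = orb Γ x
          rw [mapForm_orb, mapForm_orb, hinv1]
      right_inv := by
        intro p
        induction p using Quot.ind with
        | _ x =>
          change mapForm Q hQ (mapForm Q⁻¹ hQ' (orb Γ' x)) = orb Γ' x
          rw [mapForm_orb, mapForm_orb, hinv2] }
  refine ⟨φ, fun p q => ?_⟩
  unfold qdist
  congr 1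
  ext a
  constructor
  · rintro ⟨x, y, hx, hy, rfl⟩
    refine ⟨appS Q⁻¹ x, appS Q⁻¹ y, ?_, ?_, ?_⟩
    · rw [← φ.symm_apply_apply p, ← hx]; rfl
    · rw [← φ.symm_apply_apply q, ← hy]; rfl
    · exact (angle_app Q⁻¹ x y).symm
  · rintro ⟨x, y, rfl, rfl, rfl⟩
    exact ⟨appS Q x, appS Q y, rfl, rfl, (angle_app Q x y).symm⟩

/-- freeness on the sphere gives freeness on nonzero vectors -/
lemma free_of_isSpaceFormGroup {d : ℕ} {Γ : Subgroup (O d)} (h : IsSpaceFormGroup Γ) :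
    Free Γ := by
  intro g hg hg1 v hv
  by_contra hv0
  set x : E d := WithLp.toLp 2 v with hx
  have hx0 : x ≠ 0 := by
    intro h0
    apply hv0
    have := congrArg WithLp.ofLp h0
    simpa [hx] using this
  have hgx : app g x = x := by
    unfold app
    rw [hx, WithLp.ofLp_toLp, hv]
  have hn : ‖x‖ ≠ 0 := norm_ne_zero_iff.mpr hx0
  have hy : ‖x‖⁻¹ • x ∈ S d := by
    rw [mem_sphere_zero_iff_norm, norm_smul, norm_inv, norm_norm, inv_mul_cancel₀ hn]
  refine h.2 g hg hg1 ⟨‖x‖⁻¹ • x, hy⟩ ?_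
  change app g (‖x‖⁻¹ • x) = ‖x‖⁻¹ • x
  have h2 : app g (‖x‖⁻¹ • x) = ‖x‖⁻¹ • app g x := by
    unfold app
    rw [WithLp.ofLp_smul, Matrix.mulVec_smul, WithLp.toLp_smul]
  rw [h2, hgx]

/-- From finite families to arbitrary sets. -/
theorem encard_le_of_finite {α : Type} (S : Set α) (C : ℕ)
    (h : ∀ T : Finset α, (T : Set α) ⊆ S → T.card ≤ C) : S.encard ≤ C := by
  by_contra hcon
  push Not at hcon
  obtain ⟨T, hTS, hT⟩ := Set.exists_subset_encard_eq (Order.add_one_le_of_lt hcon)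
  have hfin : T.Finite := by
    apply Set.finite_of_encard_eq_coe (k := C + 1)
    rw [hT]; rfl
  have h1 := h hfin.toFinset (by simpa using hTS)
  have h2 : (hfin.toFinset.card : ℕ∞) = (C : ℕ∞) + 1 := by
    rw [← hT, ← hfin.encard_eq_coe_toFinset_card]
  have h3 : hfin.toFinset.card = C + 1 := by exact_mod_cast h2
  omega

end Pool.Agent.Helper78.Geom
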