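import Mathlib
import Pool.Agent.Helper78.Geom
import Pool.Agent.Helper78.Sph.Alg
import Pool.Agent.Helper82.ZS.Num9
import Pool.Agent.Helper82.ZS.Final

/-!
For every dimension `d ≥ 1` the cardinality of isospectral sets of spherical space forms of
dimension `d` is at most `2 ^ (10 ^ 18 * (d + 1) ^ 9)`.  In particular `sup_x N_d(x)` is finite.
-/

namespace Pool.Agent.Helper78.FIS

open Laplacian Filter Topology
open scoped ContDiff
open Pool.Agent.Helper78.Geom Pool.Agent.Helper78.Sph Pool.Agent.Helper78.Harm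
  Pool.Agent.Helper78.Act Pool.Agent.Helper78.Eigen

/-- The point `x / ‖x‖` of the sphere. -/
noncomputable def dir {d : ℕ} (x : E d) (hx : x ≠ 0) : S d :=
  ⟨‖x‖⁻¹ • x, mem_sphere_zero_iff_norm.mpr (norm_unit hx)⟩

open Classical in
/-- The function `x ↦ f([x / ‖x‖])` on `ℝ^(d+1) ∖ {0}` given by a function `f` on `S^d / Γ`
(with value `0` at the origin). -/
noncomputable def lift {d : ℕ} {Γ : Subgroup (O d)} (f : SpaceForm Γ → ℂ) (x : E d) : ℂ :=
  if hx : x = 0 then 0 else f (orb Γ (dir x hx))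

/-- `f` is a smooth complex-valued function on `S^d / Γ` with `Δ f = -lam f`, where `Δ` is the
Laplace-Beltrami operator.  Here `f` is smooth if `x ↦ f([x / ‖x‖])` is smooth on
`ℝ^(d+1) ∖ {0}`, and `Δ f` at `[x]` is the Euclidean Laplacian of this function at the point `x`
of the unit sphere. -/
def IsEigenfunction {d : ℕ} {Γ : Subgroup (O d)} (lam : ℝ) (f : SpaceForm Γ → ℂ) : Prop :=
  ContDiffOn ℝ ∞ (lift f) {0}ᶜ ∧
    ∀ x : S d, Laplacian.laplacian (lift f) (x : E d) = -(lam : ℂ) * f (orb Γ x)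

lemma lift_ne {d : ℕ} {Γ : Subgroup (O d)} (f : SpaceForm Γ → ℂ) {x : E d} (hx : x ≠ 0) :
    lift f x = f (orb Γ (dir x hx)) := by
  rw [lift, dif_neg hx]

lemma lift_zero {d : ℕ} {Γ : Subgroup (O d)} (f : SpaceForm Γ → ℂ) :
    lift f (0 : E d) = 0 := by
  rw [lift, dif_pos rfl]

lemma S_ne {d : ℕ} (x : S d) : (x : E d) ≠ 0 := by
  intro h
  have h1 : ‖(x : E d)‖ = 1 := mem_sphere_zero_iff_norm.mp x.2
  rw [h, norm_zero] at h1
  exact zero_ne_one h1

lemma dir_S {d : ℕ} (x : S d) : dir (x : E d) (S_ne x) = x := by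
  apply Subtype.ext
  have h1 : ‖(x : E d)‖ = 1 := mem_sphere_zero_iff_norm.mp x.2
  simp [dir, h1]

lemma lift_S {d : ℕ} {Γ : Subgroup (O d)} (f : SpaceForm Γ → ℂ) (x : S d) :
    lift f (x : E d) = f (orb Γ x) := by
  rw [lift_ne f (S_ne x), dir_S]

lemma lift_hom {d : ℕ} {Γ : Subgroup (O d)} (f : SpaceForm Γ → ℂ) {t : ℝ} (ht : 0 < t)
    (x : E d) : lift f (t • x) = lift f x := by
  by_cases hx : x = 0
  · rw [hx, smul_zero]
  · have hx' : t • x ≠ 0 := smul_ne_zero ht.ne' hx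
    rw [lift_ne f hx, lift_ne f hx']
    congr 2
    apply Subtype.ext
    change ‖t • x‖⁻¹ • (t • x) = ‖x‖⁻¹ • x
    rw [norm_smul, Real.norm_of_nonneg ht.le, smul_smul]
    congr 1
    rw [mul_inv, mul_comm t⁻¹, mul_assoc, inv_mul_cancel₀ ht.ne', mul_one]

lemma isEigenfunction_iff {d : ℕ} {Γ : Subgroup (O d)} (lam : ℝ) (f : SpaceForm Γ → ℂ) :
    IsEigenfunction lam f ↔ Eig lam (lift f) := by
  constructor
  · rintro ⟨h1, h2⟩
    refine ⟨fun t ht x => lift_hom f ht x, h1, fun x hx => ?_⟩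
    have h3 := h2 ⟨x, mem_sphere_zero_iff_norm.mpr hx⟩
    rw [← lift_S f] at h3
    exact h3
  · rintro h
    refine ⟨h.smooth, fun x => ?_⟩
    rw [← lift_S f]
    exact h.eig x (mem_sphere_zero_iff_norm.mp x.2)

lemma lift_add {d : ℕ} {Γ : Subgroup (O d)} (f g : SpaceForm Γ → ℂ) :
    lift (f + g) = fun x => lift f x + lift g x := by
  funext x
  by_cases hx : x = 0
  · rw [hx, lift_zero, lift_zero, lift_zero, add_zero]
  · rw [lift_ne _ hx, lift_ne _ hx, lift_ne _ hx]; rfl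

lemma lift_smul {d : ℕ} {Γ : Subgroup (O d)} (c : ℂ) (f : SpaceForm Γ → ℂ) :
    lift (c • f) = fun x => c * lift f x := by
  funext x
  by_cases hx : x = 0
  · rw [hx, lift_zero, lift_zero, mul_zero]
  · rw [lift_ne _ hx, lift_ne _ hx]; rfl

/-- The eigenspace of the Laplace-Beltrami operator of `S^d / Γ` for the eigenvalue `lam`. -/
def eigenspace {d : ℕ} (Γ : Subgroup (O d)) (lam : ℝ) : Submodule ℂ (SpaceForm Γ → ℂ) where
  carrier := {f | IsEigenfunction lam f}
  add_mem' := by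
    intro f g hf hg
    change IsEigenfunction lam (f + g)
    rw [isEigenfunction_iff, lift_add]
    exact ((isEigenfunction_iff lam f).mp hf).add ((isEigenfunction_iff lam g).mp hg)
  zero_mem' := by
    change IsEigenfunction lam 0
    have h : lift (0 : SpaceForm Γ → ℂ) = fun _ => 0 := by
      funext x
      by_cases hx : x = 0
      · rw [hx, lift_zero]
      · rw [lift_ne _ hx]; rfl
    rw [isEigenfunction_iff, h]
    exact Eig.zero lam
  smul_mem' := by
    intro c f hf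
    change IsEigenfunction lam (c • f)
    rw [isEigenfunction_iff, lift_smul]
    exact ((isEigenfunction_iff lam f).mp hf).smul c

/-- The multiplicity of `lam` as an eigenvalue of the Laplace-Beltrami operator of `S^d / Γ`. -/
noncomputable def mult {d : ℕ} (Γ : Subgroup (O d)) (lam : ℝ) : ℕ :=
  Module.finrank ℂ (eigenspace Γ lam)

/-- `S^d / Γ` and `S^d / Γ'` are isospectral. -/
def Isospectral {d : ℕ} (Γ Γ' : Subgroup (O d)) : Prop := ∀ lam : ℝ, mult Γ lam = mult Γ' lam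

lemma mem_eigenspace {d : ℕ} {Γ : Subgroup (O d)} {lam : ℝ} {f : SpaceForm Γ → ℂ} :
    f ∈ eigenspace Γ lam ↔ Eig lam (lift f) := isEigenfunction_iff lam f

/-- the function on `S^d / Γ` given by an invariant polynomial -/
noncomputable def pfun {d k : ℕ} {Γ : Subgroup (O d)} (P : harmInv Γ k) : SpaceForm Γ → ℂ :=
  Quot.lift (fun x : S d => pev P.1 (x : E d)) (by
    rintro x y ⟨g, hg, hgy⟩
    have h1 := P.2.1.2 g hg
    change pev P.1 (x : E d) = pev P.1 (y : E d)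
    rw [← hgy, ← pev_act, h1])

lemma pfun_orb {d k : ℕ} {Γ : Subgroup (O d)} (P : harmInv Γ k) (x : S d) :
    pfun P (orb Γ x) = pev P.1 (x : E d) := rfl

lemma lift_pfun {d k : ℕ} {Γ : Subgroup (O d)} (P : harmInv Γ k) {x : E d} (hx : x ≠ 0) :
    lift (pfun P) x = pun P.1 x := by
  rw [lift_ne _ hx, pfun_orb]; rfl

lemma pfun_mem {d k : ℕ} {Γ : Subgroup (O d)} (P : harmInv Γ k) :
    pfun P ∈ eigenspace Γ (lam (d + 1) k) := by
  rw [mem_eigenspace]
  exact (eig_pun P.2.1.1 (LinearMap.mem_ker.mp P.2.2)).congr (fun x hx => lift_pfun P hx)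
    fun t ht x => lift_hom _ ht x

/-- the linear map from invariant harmonic polynomials to eigenfunctions -/
noncomputable def toEig {d : ℕ} (Γ : Subgroup (O d)) (k : ℕ) :
    harmInv Γ k →ₗ[ℂ] eigenspace Γ (lam (d + 1) k) where
  toFun P := ⟨pfun P, pfun_mem P⟩
  map_add' P Q := by
    apply Subtype.ext
    funext p
    induction p using Quot.ind with
    | _ x =>
      change pev (P.1 + Q.1) (x : E d) = pev P.1 (x : E d) + pev Q.1 (x : E d)
      rw [pev_add]
  map_smul' c P := by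
    apply Subtype.ext
    funext p
    induction p using Quot.ind with
    | _ x =>
      change pev (c • P.1) (x : E d) = c * pev P.1 (x : E d)
      rw [pev_smul]

lemma toEig_bijective {d : ℕ} (hd : 1 ≤ d) (Γ : Subgroup (O d)) (k : ℕ) :
    Function.Bijective (toEig Γ k) := by
  constructor
  · rw [injective_iff_map_eq_zero]
    intro P hP
    apply Subtype.ext
    refine pev_of_unit (Nat.succ_pos d) P.2.1.1 fun x hx => ?_
    have h1 := congrArg (fun f : eigenspace Γ (lam (d + 1) k) =>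
      f.1 (orb Γ ⟨x, mem_sphere_zero_iff_norm.mpr hx⟩)) hP
    exact h1
  · rintro ⟨f, hf⟩
    obtain ⟨P, hP1, hP2, hP3⟩ := exists_harm (by omega) (mem_eigenspace.mp hf)
    have hval : ∀ x : S d, f (orb Γ x) = pev P (x : E d) := by
      intro x
      rw [← lift_S f, hP3 _ (S_ne x), pun]
      have h1 : ‖(x : E d)‖ = 1 := mem_sphere_zero_iff_norm.mp x.2
      rw [h1, inv_one, one_smul]
    have hinv : ∀ g ∈ Γ, act (toC (d + 1) g) P = P := by
      intro g hg
      refine pev_sub_unit (Nat.succ_pos d) (act_homog _ hP1) hP1 fun x hx => ?_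
      rw [pev_act]
      have h1 := hval ⟨x, mem_sphere_zero_iff_norm.mpr hx⟩
      have h2 := hval (appS g ⟨x, mem_sphere_zero_iff_norm.mpr hx⟩)
      have h3 : orb Γ ⟨x, mem_sphere_zero_iff_norm.mpr hx⟩
          = orb Γ (appS g ⟨x, mem_sphere_zero_iff_norm.mpr hx⟩) := orb_eq_of ⟨g, hg, rfl⟩
      rw [← h3, h1] at h2
      exact h2.symm
    refine ⟨⟨P, ⟨hP1, hinv⟩, LinearMap.mem_ker.mpr hP2⟩, ?_⟩
    apply Subtype.ext
    funext p
    induction p using Quot.ind with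
    | _ x => exact (hval x).symm

/-- the multiplicity of the `k`-th eigenvalue -/
lemma mult_lam {d : ℕ} (hd : 1 ≤ d) (Γ : Subgroup (O d)) (k : ℕ) :
    mult Γ (lam (d + 1) k) = Module.finrank ℂ (harmInv Γ k) :=
  (LinearEquiv.ofBijective (toEig Γ k) (toEig_bijective hd Γ k)).finrank_eq.symm

/-- For every `d ≥ 1` every set of pairwise isospectral and pairwise non-isometric
`d`-dimensional spherical space forms has at most `2 ^ (10 ^ 18 * (d + 1) ^ 9)` members. -/
theorem main (d : ℕ) (hd : 1 ≤ d) : ∀ F : Set (Subgroup (O d)),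
    (∀ Γ ∈ F, IsSpaceFormGroup Γ) →
    (∀ Γ ∈ F, ∀ Γ' ∈ F, Γ ≠ Γ' → Isospectral Γ Γ' ∧ ¬ Isometric Γ Γ') →
    F.encard ≤ (2 ^ (10 ^ 18 * (d + 1) ^ 9) : ℕ) := by
  intro F hF hiso
  refine encard_le_of_finite F _ fun T hT => ?_
  by_contra hcon
  push Not at hcon
  have hκ : 1 ≤ 8000 * (d + 1) := by omega
  obtain ⟨i, j, hij, hconj⟩ := Pool.Agent.Helper82.EB.gen_main (d + 1)
    (8000 * (d + 1)) (Nat.succ_pos d) T
    (fun Γ => Γ.1) (fun Γ => (hF _ (hT Γ.2)).1)
    (fun Γ => free_of_isSpaceFormGroup (hF _ (hT Γ.2)))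
    (fun Γ => by
      have : Finite Γ.1 := (hF _ (hT Γ.2)).1
      exact Pool.Agent.Helper82.ZS.hasCN_final (Nat.succ_pos d) Γ.1
        (free_of_isSpaceFormGroup (hF _ (hT Γ.2)))) (by
      intro i j k
      by_cases h : i = j
      · rw [h]
      · have h1 := (hiso _ (hT i.2) _ (hT j.2) (fun h' => h (Subtype.ext h'))).1
          (lam (d + 1) k)
        rwa [mult_lam hd, mult_lam hd] at h1) (by
      rw [Fintype.card_coe]
      refine lt_of_le_of_lt ((Pool.Agent.Helper82.EB.BG_le9 (by omega) hκ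
        (Pool.Agent.Helper82.EB.hyp9 (by omega))).trans ?_) hcon
      refine Nat.pow_le_pow_right (by norm_num) ?_
      have h1 : 36 * ((d + 1) ^ 5 * (8000 * (d + 1)) ^ 4)
          = 147456000000000000 * (d + 1) ^ 9 := by ring
      rw [h1]
      exact Nat.mul_le_mul_right _ (by norm_num))
  exact (hiso _ (hT i.2) _ (hT j.2) (fun h' => hij (Subtype.ext h'))).2
    (isometric_of_conj hconj)

/-- `f` is a smooth complex-valued function on `S^d / Γ` with `Δ f = -lam f`, in terms of a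
function `F` on `ℝ^(d+1)` -/
def IsEf {d : ℕ} {Γ : Subgroup (O d)} (lam : ℝ) (f : SpaceForm Γ → ℂ) : Prop :=
  ∃ F : E d → ℂ, ContDiffOn ℝ ∞ F {0}ᶜ ∧ ∀ x : S d,
    (∀ t : ℝ, 0 < t → F (t • (x : E d)) = f (orb Γ x)) ∧
      Laplacian.laplacian F (x : E d) = -(lam : ℂ) * f (orb Γ x)

lemma smul_dir {d : ℕ} (x : E d) (hx : x ≠ 0) : ‖x‖ • (dir x hx : E d) = x := by
  change ‖x‖ • (‖x‖⁻¹ • x) = x
  rw [smul_smul, mul_inv_cancel₀ (norm_ne_zero_iff.mpr hx), one_smul]

lemma isEf_iff {d : ℕ} {Γ : Subgroup (O d)} (lam : ℝ) (f : SpaceForm Γ → ℂ) :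
    IsEf lam f ↔ IsEigenfunction lam f := by
  constructor
  · rintro ⟨F, h1, h2⟩
    have h3 : ∀ x : E d, x ≠ 0 → lift f x = F x := by
      intro x hx
      rw [lift_ne f hx, ← (h2 (dir x hx)).1 ‖x‖ (norm_pos_iff.mpr hx), smul_dir]
    refine ⟨h1.congr fun x hx => h3 x hx, fun x => ?_⟩
    rw [← (h2 x).2]
    refine (InnerProductSpace.laplacian_congr_nhds ?_).self_of_nhds
    filter_upwards [isOpen_compl_singleton.mem_nhds (S_ne x)] with y hy
    exact h3 y hy
  · rintro ⟨h1, h2⟩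
    refine ⟨lift f, h1, fun x => ⟨fun t ht => ?_, h2 x⟩⟩
    rw [lift_hom f ht, lift_S]

/-- the multiplicity of `lam` -/
noncomputable def mul' {d : ℕ} (Γ : Subgroup (O d)) (lam : ℝ) : ℕ :=
  Module.finrank ℂ (Submodule.span ℂ {f : SpaceForm Γ → ℂ | IsEf lam f})

lemma mul'_eq {d : ℕ} (Γ : Subgroup (O d)) (lam : ℝ) : mul' Γ lam = mult Γ lam := by
  have h : {f : SpaceForm Γ → ℂ | IsEf lam f} = (eigenspace Γ lam : Set (SpaceForm Γ → ℂ)) := by
    ext f
    exact isEf_iff lam f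
  rw [mul', mult, h, Submodule.span_eq]

/-- The main theorem for the multiplicities `mul'`. -/
theorem main' (d : ℕ) (hd : 1 ≤ d) (F : Set (Subgroup (O d)))
    (hF : ∀ Γ ∈ F, IsSpaceFormGroup Γ)
    (h : ∀ Γ ∈ F, ∀ Γ' ∈ F, Γ ≠ Γ' → (∀ lam : ℝ, mul' Γ lam = mul' Γ' lam) ∧ ¬ Isometric Γ Γ') :
    F.encard ≤ (2 ^ (10 ^ 18 * (d + 1) ^ 9) : ℕ) := by
  refine main d hd F hF fun Γ hΓ Γ' hΓ' hne => ⟨fun lam => ?_, (h Γ hΓ Γ' hΓ' hne).2⟩
  rw [← mul'_eq, ← mul'_eq]
  exact (h Γ hΓ Γ' hΓ' hne).1 lam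

end Pool.Agent.Helper78.FIS

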