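import Mathlib
import Pool.Agent.Helper92.HRT.Defs

/-!
# From decay of the cocycle to an L² function (piece O5 of the HRT disproof)
-/

set_option autoImplicit false

namespace Pool.Agent.Helper92.HRT

open MeasureTheory Finset

namespace ExistsFun

/-- the cocycle -/
noncomputable def Phi (P Q : ℝ → ℂ) : ℤ → ℝ → ℂ
  | Int.ofNat n, x => ∏ ν ∈ range n, P (x + ν) / Q (x + ν)
  | Int.negSucc n, x => ∏ ν ∈ range (n + 1), Q (x - ν - 1) / P (x - ν - 1)

theorem Phi_zero (P Q : ℝ → ℂ) (x : ℝ) : Phi P Q 0 x = 1 := by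
  show Phi P Q (Int.ofNat 0) x = 1
  simp [Phi]

theorem Phi_succ (P Q : ℝ → ℂ) (x : ℝ) (N : ℤ) (hQ : Q (x + N) ≠ 0) (hP : P (x + N) ≠ 0) :
    P (x + N) * Phi P Q N x = Q (x + N) * Phi P Q (N + 1) x := by
  cases N with
  | ofNat n =>
    have h1 : (Int.ofNat n + 1 : ℤ) = Int.ofNat (n + 1) := rfl
    rw [h1]
    simp only [Phi, prod_range_succ]
    have h2 : ((Int.ofNat n : ℤ) : ℝ) = (n : ℝ) := by simp
    rw [h2] at hQ hP ⊢
    field_simp
  | negSucc n =>
    have h2 : ((Int.negSucc n : ℤ) : ℝ) = -(n : ℝ) - 1 := by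
      rw [Int.cast_negSucc]; push_cast; ring
    rw [h2] at hQ hP ⊢
    have h3 : x + (-(n : ℝ) - 1) = x - n - 1 := by ring
    rw [h3] at hQ hP ⊢
    cases n with
    | zero =>
      have h1 : (Int.negSucc 0 + 1 : ℤ) = Int.ofNat 0 := rfl
      rw [h1]
      simp only [Phi, range_zero, prod_empty, zero_add, range_one, prod_singleton]
      simp only [Nat.cast_zero, sub_zero] at hP hQ ⊢
      field_simp
    | succ m =>
      have h1 : (Int.negSucc (m + 1) + 1 : ℤ) = Int.negSucc m := by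
        simp [Int.negSucc_eq]
      rw [h1]
      simp only [Phi]
      rw [prod_range_succ _ (m + 1)]
      field_simp

theorem norm_Phi_le (P Q : ℝ → ℂ) (hPQ : ∀ x, ‖Q x‖ = ‖P (-1 - x)‖) (x C : ℝ)
    (hnz : ∀ ν : ℤ, P (x + ν) ≠ 0 ∧ Q (x + ν) ≠ 0)
    (h1 : ∀ N : ℕ, ((N : ℝ) + 1) * ∏ ν ∈ range N, ‖P (x + ν)‖ ≤ C * ∏ ν ∈ range N, ‖Q (x + ν)‖)
    (h2 : ∀ N : ℕ, ((N : ℝ) + 1) * ∏ ν ∈ range N, ‖P (-x + ν)‖ ≤
      C * ∏ ν ∈ range N, ‖Q (-x + ν)‖) (N : ℤ) :
    ‖Phi P Q N x‖ ≤ C / (|(N : ℝ)| + 1) := by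
  cases N with
  | ofNat n =>
    have h3 : ((Int.ofNat n : ℤ) : ℝ) = (n : ℝ) := by simp
    rw [h3]
    simp only [Phi, norm_prod, norm_div, prod_div_distrib]
    have hpos : 0 < ∏ ν ∈ range n, ‖Q (x + ν)‖ := by
      apply prod_pos
      intro ν _
      have := (hnz ν).2
      simpa using this
    rw [div_le_div_iff₀ hpos (by positivity), abs_of_nonneg (by positivity)]
    have := h1 n
    linarith [this, mul_comm (∏ ν ∈ range n, ‖P (x + ν)‖) ((n : ℝ) + 1)]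
  | negSucc n =>
    have h3 : ((Int.negSucc n : ℤ) : ℝ) = -((n : ℝ) + 1) := by
      rw [Int.cast_negSucc]; push_cast; ring
    rw [h3, abs_neg, abs_of_nonneg (by positivity)]
    simp only [Phi, norm_prod, norm_div, prod_div_distrib]
    have e1 : ∀ ν : ℕ, ‖Q (x - ν - 1)‖ = ‖P (-x + ν)‖ := by
      intro ν; rw [hPQ]; congr 2; ring
    have e2 : ∀ ν : ℕ, ‖P (x - ν - 1)‖ = ‖Q (-x + ν)‖ := by
      intro ν; rw [hPQ]; congr 2; ring
    simp only [e1, e2]
    have hpos : 0 < ∏ ν ∈ range (n + 1), ‖Q (-x + ν)‖ := by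
      apply prod_pos
      intro ν _
      rw [← e2]
      have := (hnz (-(ν : ℤ) - 1)).1
      push_cast at this
      have e3 : x + (-(ν : ℝ) - 1) = x - ν - 1 := by ring
      rw [e3] at this
      simpa using this
    rw [div_le_div_iff₀ hpos (by positivity)]
    have := h2 (n + 1)
    push_cast at this
    linarith [this, mul_comm (∏ ν ∈ range (n + 1), ‖P (-x + ν)‖) ((n : ℝ) + 1 + 1)]

theorem measurable_Phi (P Q : ℝ → ℂ) (hP : Continuous P) (hQ : Continuous Q) (N : ℤ) :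
    Measurable (Phi P Q N) := by
  have hPm := hP.measurable
  have hQm := hQ.measurable
  cases N with
  | ofNat n =>
    have : Phi P Q (Int.ofNat n) = fun x => ∏ ν ∈ range n, P (x + ν) / Q (x + ν) := by
      funext x; simp [Phi]
    rw [this]
    refine Finset.measurable_prod _ ?_
    intro ν _
    exact (hPm.comp (measurable_id.add_const _)).div (hQm.comp (measurable_id.add_const _))
  | negSucc n =>
    have : Phi P Q (Int.negSucc n) =
        fun x => ∏ ν ∈ range (n + 1), Q (x - ν - 1) / P (x - ν - 1) := by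
      funext x; simp [Phi]
    rw [this]
    refine Finset.measurable_prod _ ?_
    intro ν _
    exact (hQm.comp ((measurable_id.sub_const _).sub_const _)).div
      (hPm.comp ((measurable_id.sub_const _).sub_const _))

/-- the good set -/
def A (P Q : ℝ → ℂ) (C : ℕ) : Set ℝ :=
  {x | x ∈ Set.Ico (-(1 / 2) : ℝ) (1 / 2) ∧
    (∀ N : ℕ, ((N : ℝ) + 1) * ∏ ν ∈ range N, ‖P (x + ν)‖ ≤ C * ∏ ν ∈ range N, ‖Q (x + ν)‖) ∧
    (∀ N : ℕ, ((N : ℝ) + 1) * ∏ ν ∈ range N, ‖P (-x + ν)‖ ≤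
      C * ∏ ν ∈ range N, ‖Q (-x + ν)‖) ∧
    (∀ ν : ℤ, P (x + ν) ≠ 0 ∧ Q (x + ν) ≠ 0)}

theorem measurableSet_A (P Q : ℝ → ℂ) (hP : Continuous P) (hQ : Continuous Q) (C : ℕ) :
    MeasurableSet (A P Q C) := by
  have e : A P Q C = Set.Ico (-(1 / 2) : ℝ) (1 / 2) ∩
      ((⋂ N : ℕ, {x : ℝ | ((N : ℝ) + 1) * ∏ ν ∈ range N, ‖P (x + ν)‖ ≤
        C * ∏ ν ∈ range N, ‖Q (x + ν)‖}) ∩
      ((⋂ N : ℕ, {x : ℝ | ((N : ℝ) + 1) * ∏ ν ∈ range N, ‖P (-x + ν)‖ ≤
        C * ∏ ν ∈ range N, ‖Q (-x + ν)‖}) ∩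
      (⋂ ν : ℤ, {x : ℝ | P (x + ν) ≠ 0} ∩ {x : ℝ | Q (x + ν) ≠ 0}))) := by
    ext x
    simp only [A, Set.mem_ofPred_eq, Set.mem_inter_iff, Set.mem_iInter]
  rw [e]
  refine measurableSet_Ico.inter (MeasurableSet.inter ?_ (MeasurableSet.inter ?_ ?_))
  · refine MeasurableSet.iInter fun N => (isClosed_le ?_ ?_).measurableSet <;> fun_prop
  · refine MeasurableSet.iInter fun N => (isClosed_le ?_ ?_).measurableSet <;> fun_prop
  · refine MeasurableSet.iInter fun ν => MeasurableSet.inter ?_ ?_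
    · exact (isOpen_ne_fun (by fun_prop) continuous_const).measurableSet
    · exact (isOpen_ne_fun (by fun_prop) continuous_const).measurableSet

theorem exists_A_pos (P Q : ℝ → ℂ)
    (hPQ : ∀ x, ‖Q x‖ = ‖P (-1 - x)‖)
    (h0 : ∀ᵐ x : ℝ, P x ≠ 0)
    (hdec : ∀ᵐ x ∂(volume.restrict (Set.Icc (-(1 / 2) : ℝ) (1 / 2))), ∃ C : ℝ, ∀ N : ℕ,
      ((N : ℝ) + 1) * ∏ ν ∈ range N, ‖P (x + ν)‖ ≤ C * ∏ ν ∈ range N, ‖Q (x + ν)‖) :
    ∃ C : ℕ, volume (A P Q C) ≠ 0 := by
  by_contra hcon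
  push Not at hcon
  have hU : volume (⋃ C, A P Q C) = 0 := measure_iUnion_null hcon
  have hdec1 := (ae_restrict_iff' (measurableSet_Icc)).1 hdec
  have hdec2 := (Measure.measurePreserving_neg (volume : Measure ℝ)).quasiMeasurePreserving.ae hdec1
  have hP' : ∀ᵐ x : ℝ, ∀ ν : ℤ, P (x + ν) ≠ 0 := by
    rw [ae_all_iff]
    intro ν
    exact (measurePreserving_add_right (volume : Measure ℝ) (ν : ℝ)).quasiMeasurePreserving.ae h0
  have hQ' : ∀ᵐ x : ℝ, ∀ ν : ℤ, Q (x + ν) ≠ 0 := by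
    rw [ae_all_iff]
    intro ν
    have := ((Measure.measurePreserving_sub_left (volume : Measure ℝ)
      (-1 - (ν : ℝ))).quasiMeasurePreserving).ae h0
    filter_upwards [this] with x hx
    rw [← norm_ne_zero_iff, hPQ]
    rw [norm_ne_zero_iff]
    have e : -1 - (x + ν) = -1 - (ν : ℝ) - x := by ring
    rw [e]; exact hx
  have hall : ∀ᵐ x : ℝ, x ∉ Set.Ico (-(1 / 2) : ℝ) (1 / 2) := by
    have hU' : ∀ᵐ x : ℝ, x ∉ ⋃ C, A P Q C := measure_eq_zero_iff_ae_notMem.1 hU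
    filter_upwards [hU', hdec1, hdec2, hP', hQ'] with x hx h1 h2 h3 h4 hmem
    apply hx
    have hx1 : x ∈ Set.Icc (-(1 / 2) : ℝ) (1 / 2) := ⟨hmem.1, hmem.2.le⟩
    have hx2 : -x ∈ Set.Icc (-(1 / 2) : ℝ) (1 / 2) := ⟨by linarith [hmem.2], by linarith [hmem.1]⟩
    obtain ⟨C1, hC1⟩ := h1 hx1
    obtain ⟨C2, hC2⟩ := h2 hx2
    refine Set.mem_iUnion.2 ⟨⌈max C1 C2⌉₊, hmem, ?_, ?_, fun ν => ⟨h3 ν, h4 ν⟩⟩
    · intro N
      refine (hC1 N).trans ?_
      refine mul_le_mul_of_nonneg_right ?_ (prod_nonneg fun _ _ => norm_nonneg _)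
      exact (le_max_left _ _).trans (Nat.le_ceil _)
    · intro N
      refine (hC2 N).trans ?_
      refine mul_le_mul_of_nonneg_right ?_ (prod_nonneg fun _ _ => norm_nonneg _)
      exact (le_max_right _ _).trans (Nat.le_ceil _)
  have hzero : volume (Set.Ico (-(1 / 2) : ℝ) (1 / 2)) = 0 :=
    measure_eq_zero_iff_ae_notMem.2 hall
  rw [Real.volume_Ico] at hzero
  norm_num at hzero

end ExistsFun

open ExistsFun in
theorem exists_fun (P Q : ℝ → ℂ) (hP : Continuous P) (hQ : Continuous Q)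
    (hPQ : ∀ x, ‖Q x‖ = ‖P (-1 - x)‖)
    (h0 : ∀ᵐ x : ℝ, P x ≠ 0)
    (hdec : ∀ᵐ x ∂(volume.restrict (Set.Icc (-(1 / 2) : ℝ) (1 / 2))), ∃ C : ℝ, ∀ N : ℕ,
      ((N : ℝ) + 1) * ∏ ν ∈ range N, ‖P (x + ν)‖ ≤ C * ∏ ν ∈ range N, ‖Q (x + ν)‖) :
    ∃ f : ℝ → ℂ, MemLp f 2 volume ∧ ¬ (f =ᵐ[volume] 0) ∧
      ∀ᵐ x : ℝ, P x * f x = Q x * f (x + 1) := by
  classical
  obtain ⟨C, hC⟩ := exists_A_pos P Q hPQ h0 hdec
  set G : ℤ × ℝ → ℂ := fun p => (A P Q C).indicator (Phi P Q p.1) p.2 with hG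
  have hGm : Measurable G := by
    refine measurable_from_prod_countable_right ?_
    intro N
    exact (measurable_Phi P Q hP hQ N).indicator (measurableSet_A P Q hP hQ C)
  set f : ℝ → ℂ := fun y => G (⌊y + 1 / 2⌋, y - ⌊y + 1 / 2⌋) with hf
  have hfm : Measurable f := by
    refine hGm.comp ?_
    have h1 : Measurable fun y : ℝ => ⌊y + 1 / 2⌋ :=
      Int.measurable_floor.comp (measurable_id.add_const _)
    refine h1.prodMk ?_
    refine measurable_id.sub ?_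
    exact (measurable_from_top (f := fun n : ℤ => (n : ℝ))).comp h1
  have hbound : ∀ y, ‖f y‖ ≤ 2 * C / (1 + |y|) := by
    intro y
    set N : ℤ := ⌊y + 1 / 2⌋ with hN
    by_cases hx : y - N ∈ A P Q C
    · have hfy : f y = Phi P Q N (y - N) := by
        simp only [hf, hG]
        rw [← hN, Set.indicator_of_mem hx]
      rw [hfy]
      have hb := norm_Phi_le P Q hPQ (y - N) C hx.2.2.2 hx.2.1 hx.2.2.1 N
      refine hb.trans ?_
      have h1 : (N : ℝ) ≤ y + 1 / 2 := Int.floor_le _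
      have h2 : y + 1 / 2 < N + 1 := Int.lt_floor_add_one _
      have h3 : |y| ≤ |(N : ℝ)| + 1 / 2 := by
        rw [abs_le]
        constructor
        · have := neg_abs_le (N : ℝ); linarith
        · have := le_abs_self (N : ℝ); linarith
      rw [div_le_div_iff₀ (by positivity) (by positivity)]
      have hC0 : (0 : ℝ) ≤ C := Nat.cast_nonneg C
      nlinarith [abs_nonneg y]
    · have hfy : f y = 0 := by
        simp only [hf, hG]
        rw [← hN, Set.indicator_of_notMem hx]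
      rw [hfy, norm_zero]
      positivity
  refine ⟨f, ?_, ?_, ?_⟩
  · rw [memLp_two_iff_integrable_sq_norm hfm.aestronglyMeasurable]
    have hint : Integrable (fun y : ℝ => (1 + ‖y‖) ^ (-(2 : ℝ))) volume := by
      refine integrable_one_add_norm ?_
      simp
    have hint2 : Integrable (fun y : ℝ => (2 * (C : ℝ)) ^ 2 * (1 + ‖y‖) ^ (-(2 : ℝ))) volume :=
      hint.const_mul _
    refine hint2.mono' ((hfm.norm.pow_const 2).aestronglyMeasurable) ?_
    refine Filter.Eventually.of_forall fun y => ?_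
    have hb := hbound y
    rw [Real.norm_eq_abs, abs_of_nonneg (by positivity), Real.norm_eq_abs,
      Real.rpow_neg (by positivity)]
    have e : (1 + |y|) ^ (2 : ℝ) = (1 + |y|) ^ 2 := by
      rw [show (2 : ℝ) = ((2 : ℕ) : ℝ) by norm_num, Real.rpow_natCast]
    rw [e]
    calc ‖f y‖ ^ 2 ≤ (2 * C / (1 + |y|)) ^ 2 := by gcongr
      _ = (2 * (C : ℝ)) ^ 2 * ((1 + |y|) ^ 2)⁻¹ := by rw [div_pow]; rfl
  · intro hzero
    apply hC
    have : ∀ᵐ x : ℝ, x ∉ A P Q C := by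
      filter_upwards [hzero] with x hx hmem
      have hN : ⌊x + 1 / 2⌋ = 0 := by
        rw [Int.floor_eq_zero_iff]
        exact ⟨by linarith [hmem.1.1], by linarith [hmem.1.2]⟩
      have : f x = 1 := by
        simp only [hf, hG, hN, Int.cast_zero, sub_zero]
        rw [Set.indicator_of_mem hmem, Phi_zero]
      rw [this] at hx
      simp at hx
    exact measure_eq_zero_iff_ae_notMem.2 this
  · refine Filter.Eventually.of_forall fun y => ?_
    set N : ℤ := ⌊y + 1 / 2⌋ with hN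
    have hN1 : ⌊y + 1 + 1 / 2⌋ = N + 1 := by
      rw [hN, ← Int.floor_add_one]; congr 1; ring
    have e1 : f y = (A P Q C).indicator (Phi P Q N) (y - N) := by
      simp only [hf, hG]; rw [← hN]
    have e2 : f (y + 1) = (A P Q C).indicator (Phi P Q (N + 1)) (y - N) := by
      simp only [hf, hG]; rw [hN1]; congr 1; push_cast; ring
    rw [e1, e2]
    by_cases hx : y - N ∈ A P Q C
    · rw [Set.indicator_of_mem hx, Set.indicator_of_mem hx]
      have := Phi_succ P Q (y - N) N (hx.2.2.2 N).2 (hx.2.2.2 N).1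
      simpa using this
    · rw [Set.indicator_of_notMem hx, Set.indicator_of_notMem hx]; simp

end Pool.Agent.Helper92.HRT
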