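import Mathlib
import Pool.Agent.Helper92.HRT.Defs

/-!
# The weight K (piece O1 of the HRT disproof)
-/

set_option autoImplicit false

namespace Pool.Agent.Helper92.HRT

open MeasureTheory Finset

theorem K_measurable : Measurable K := by
  unfold K
  exact (ENNReal.measurable_ofReal.comp
    ((Real.continuous_sin.comp (continuous_const.mul continuous_id)).abs.measurable)).pow_const _

theorem one_le_K (t : ℝ) : 1 ≤ K t := by
  unfold K
  rw [ENNReal.rpow_neg, ENNReal.one_le_inv]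
  have h : ENNReal.ofReal |Real.sin (Real.pi * t)| ≤ 1 := by
    rw [ENNReal.ofReal_le_one]
    exact Real.abs_sin_le_one _
  calc ENNReal.ofReal |Real.sin (Real.pi * t)| ^ (9 / 10 : ℝ)
      ≤ 1 ^ (9 / 10 : ℝ) := ENNReal.rpow_le_rpow h (by norm_num)
    _ = 1 := ENNReal.one_rpow _

theorem K_neg (t : ℝ) : K (-t) = K t := by
  unfold K
  rw [mul_neg, Real.sin_neg, abs_neg]

theorem K_add_one (t : ℝ) : K (t + 1) = K t := by
  unfold K
  rw [mul_add, mul_one, Real.sin_add_pi, abs_neg]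

theorem K_one_sub (t : ℝ) : K (1 - t) = K t := by
  have := K_add_one (-t)
  rw [K_neg] at this
  rw [← this]; congr 1; ring

theorem K_le_of_mem {t : ℝ} (h0 : 0 < t) (h1 : t ≤ 1 / 2) :
    K t ≤ ENNReal.ofReal (t ^ (-(9 / 10) : ℝ)) := by
  unfold K
  rw [ENNReal.rpow_neg, ← ENNReal.ofReal_rpow_of_pos h0, ENNReal.rpow_neg]
  refine ENNReal.inv_le_inv.2 (ENNReal.rpow_le_rpow ?_ (by norm_num))
  apply ENNReal.ofReal_le_ofReal
  have hs : 2 / Real.pi * (Real.pi * t) ≤ Real.sin (Real.pi * t) := by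
    apply Real.mul_le_sin
    · positivity
    · nlinarith [Real.pi_pos]
  have e : 2 / Real.pi * (Real.pi * t) = 2 * t := by
    field_simp
  rw [e] at hs
  calc t ≤ 2 * t := by linarith
    _ ≤ Real.sin (Real.pi * t) := hs
    _ ≤ _ := le_abs_self _

theorem K_int_half : ∫⁻ t in Set.Ioc (0 : ℝ) (1 / 2), K t < ⊤ := by
  have hint : IntegrableOn (fun t : ℝ => t ^ (-(9 / 10) : ℝ)) (Set.Ioc (0 : ℝ) (1 / 2)) volume := by
    have := intervalIntegral.intervalIntegrable_rpow' (a := 0) (b := 1 / 2)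
      (r := (-(9 / 10) : ℝ)) (by norm_num)
    rwa [intervalIntegrable_iff_integrableOn_Ioc_of_le (by norm_num)] at this
  have h2 : ∫⁻ t in Set.Ioc (0 : ℝ) (1 / 2), ENNReal.ofReal (t ^ (-(9 / 10) : ℝ)) < ⊤ := by
    have h3 := hint.2
    rw [hasFiniteIntegral_iff_norm] at h3
    refine lt_of_le_of_lt (lintegral_mono fun t => ?_) h3
    exact ENNReal.ofReal_le_ofReal (Real.le_norm_self _)
  refine lt_of_le_of_lt ?_ h2
  refine setLIntegral_mono' measurableSet_Ioc ?_
  intro t ht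
  exact K_le_of_mem ht.1 ht.2

theorem K_int : ∫⁻ t in Set.Icc (0 : ℝ) 1, K t < ⊤ := by
  have h1 : ∫⁻ t in Set.Ico (1 / 2 : ℝ) 1, K t < ⊤ := by
    have e : ∫⁻ t in Set.Ico (1 / 2 : ℝ) 1, K t = ∫⁻ t in Set.Ioc (0 : ℝ) (1 / 2), K t := by
      have hmp := Measure.measurePreserving_sub_left (volume : Measure ℝ) 1
      have hme : MeasurableEmbedding fun t : ℝ => 1 - t :=
        (MeasurableEquiv.subLeft (1 : ℝ)).measurableEmbedding
      have := hmp.setLIntegral_comp_preimage_emb hme K (Set.Ioc (0 : ℝ) (1 / 2))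
      rw [← this]
      have hs : (fun t : ℝ => 1 - t) ⁻¹' Set.Ioc (0 : ℝ) (1 / 2) = Set.Ico (1 / 2 : ℝ) 1 := by
        ext t; simp only [Set.mem_preimage, Set.mem_Ioc, Set.mem_Ico]
        constructor
        · rintro ⟨h1, h2⟩; constructor <;> linarith
        · rintro ⟨h1, h2⟩; constructor <;> linarith
      rw [hs]
      refine lintegral_congr fun t => ?_
      exact (K_one_sub t).symm
    rw [e]; exact K_int_half
  have hsub : Set.Icc (0 : ℝ) 1 ⊆ ({0, 1} : Set ℝ) ∪ (Set.Ioc (0 : ℝ) (1 / 2) ∪ Set.Ico (1 / 2 : ℝ) 1) := by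
    intro t ht
    rcases eq_or_lt_of_le ht.1 with h | h
    · left; left; exact h.symm
    rcases eq_or_lt_of_le ht.2 with h' | h'
    · left; right; exact h'
    right
    rcases le_total t (1 / 2) with h'' | h''
    · left; exact ⟨h, h''⟩
    · right; exact ⟨h'', h'⟩
  calc ∫⁻ t in Set.Icc (0 : ℝ) 1, K t
      ≤ ∫⁻ t in ({0, 1} : Set ℝ) ∪ (Set.Ioc (0 : ℝ) (1 / 2) ∪ Set.Ico (1 / 2 : ℝ) 1), K t :=
        lintegral_mono_set hsub
    _ ≤ (∫⁻ t in ({0, 1} : Set ℝ), K t) +
        ∫⁻ t in (Set.Ioc (0 : ℝ) (1 / 2) ∪ Set.Ico (1 / 2 : ℝ) 1), K t := lintegral_union_le _ _ _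
    _ ≤ 0 + ((∫⁻ t in Set.Ioc (0 : ℝ) (1 / 2), K t) + ∫⁻ t in Set.Ico (1 / 2 : ℝ) 1, K t) := by
        refine add_le_add ?_ (lintegral_union_le _ _ _)
        refine le_of_eq ?_
        refine setLIntegral_measure_zero _ _ ?_
        exact (Set.Finite.measure_zero (by simp) _)
    _ < ⊤ := by
        rw [zero_add]
        exact ENNReal.add_lt_top.2 ⟨K_int_half, h1⟩

theorem K_zmultiples (g : AddSubgroup.zmultiples (1 : ℝ)) (x : ℝ) : K (g +ᵥ x) = K x := by
  have hper : Function.Periodic K 1 := K_add_one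
  obtain ⟨g, hg⟩ := g
  obtain ⟨n, rfl⟩ := AddSubgroup.mem_zmultiples_iff.1 hg
  show K (n • (1 : ℝ) + x) = K x
  rw [add_comm]
  have := hper.zsmul n
  exact this x

theorem K_unit (m : ℝ) : ∫⁻ t in Set.Ioc m (m + 1), K t = ∫⁻ t in Set.Icc (0 : ℝ) 1, K t := by
  have h1 := isAddFundamentalDomain_Ioc (T := (1 : ℝ)) one_pos m volume
  have h2 := isAddFundamentalDomain_Ioc (T := (1 : ℝ)) one_pos 0 volume
  rw [h1.setLIntegral_eq h2 K K_zmultiples, zero_add]
  exact setLIntegral_congr Ioc_ae_eq_Icc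

theorem K_nat (m : ℝ) (n : ℕ) :
    ∫⁻ t in Set.Ioc m (m + n), K t ≤ n * ∫⁻ t in Set.Icc (0 : ℝ) 1, K t := by
  induction n with
  | zero => simp
  | succ n ih =>
    have e : Set.Ioc m (m + (n + 1 : ℕ)) = Set.Ioc m (m + n) ∪ Set.Ioc (m + n) (m + n + 1) := by
      rw [Set.Ioc_union_Ioc_eq_Ioc (by simp) (by simp)]
      congr 1; push_cast; ring
    rw [e]
    refine (lintegral_union_le _ _ _).trans ?_
    rw [K_unit]
    push_cast
    rw [add_mul, one_mul]
    exact add_le_add ih le_rfl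

theorem K_affine (a b c d : ℝ) (hab : a ≤ b) (hc : c ≠ 0) :
    ∫⁻ x in Set.Icc a b, K (c * x + d) ≤
      ENNReal.ofReal (b - a + 2 / |c|) * ∫⁻ t in Set.Icc (0 : ℝ) 1, K t := by
  set I := ∫⁻ t in Set.Icc (0 : ℝ) 1, K t with hI
  set L : ℝ := |c| * (b - a) with hL
  set m : ℝ := min (c * a + d) (c * b + d) with hm
  have hL0 : 0 ≤ L := mul_nonneg (abs_nonneg _) (by linarith)
  set F : ℝ → ENNReal := (Set.Icc m (m + L)).indicator K with hF
  have hFm : Measurable F := K_measurable.indicator measurableSet_Icc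
  have h1 : ∫⁻ x in Set.Icc a b, K (c * x + d) ≤ ∫⁻ x, F (c * x + d) := by
    rw [← lintegral_indicator measurableSet_Icc]
    refine lintegral_mono fun x => ?_
    by_cases hx : x ∈ Set.Icc a b
    · rw [Set.indicator_of_mem hx]
      have : c * x + d ∈ Set.Icc m (m + L) := by
        rcases lt_or_gt_of_ne hc with h | h
        · have hm' : m = c * b + d := by
            rw [hm, min_eq_right]; nlinarith
          rw [hm', hL, abs_of_neg h]
          constructor
          · nlinarith [hx.1, hx.2]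
          · nlinarith [hx.1, hx.2]
        · have hm' : m = c * a + d := by
            rw [hm, min_eq_left]; nlinarith
          rw [hm', hL, abs_of_pos h]
          constructor
          · nlinarith [hx.1, hx.2]
          · nlinarith [hx.1, hx.2]
      simp only [hF]
      rw [Set.indicator_of_mem this]
    · rw [Set.indicator_of_notMem hx]; exact bot_le
  have h2 : ∫⁻ x, F (c * x + d) = ENNReal.ofReal |c⁻¹| * ∫⁻ t, F t := by
    have e1 : ∫⁻ x, F (c * x + d) = ∫⁻ y, F (y + d) ∂(Measure.map (c * ·) volume) := by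
      have hm1 : Measurable fun y : ℝ => F (y + d) := hFm.comp (measurable_id.add_const d)
      have hm2 : Measurable fun x : ℝ => c * x := measurable_id.const_mul c
      rw [lintegral_map hm1 hm2]
    rw [e1, Real.map_volume_mul_left hc, lintegral_smul_measure, lintegral_add_right_eq_self F d]
    rfl
  have h3 : ∫⁻ t, F t ≤ ENNReal.ofReal (L + 2) * I := by
    have e2 : ∫⁻ t, F t = ∫⁻ t in Set.Ioc m (m + L), K t := by
      simp only [hF]
      rw [lintegral_indicator measurableSet_Icc]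
      exact (setLIntegral_congr Ioc_ae_eq_Icc).symm
    rw [e2]
    have hceil : L ≤ (⌈L⌉₊ : ℝ) := Nat.le_ceil L
    have hceil2 : (⌈L⌉₊ : ℝ) < L + 1 := Nat.ceil_lt_add_one hL0
    calc ∫⁻ t in Set.Ioc m (m + L), K t ≤ ∫⁻ t in Set.Ioc m (m + (⌈L⌉₊ : ℝ)), K t :=
          lintegral_mono_set (Set.Ioc_subset_Ioc_right (by linarith))
      _ ≤ (⌈L⌉₊ : ENNReal) * I := K_nat m _
      _ ≤ ENNReal.ofReal (L + 2) * I := by
          gcongr
          rw [← ENNReal.ofReal_natCast]
          exact ENNReal.ofReal_le_ofReal (by linarith)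
  calc ∫⁻ x in Set.Icc a b, K (c * x + d) ≤ ENNReal.ofReal |c⁻¹| * ∫⁻ t, F t := h1.trans h2.le
    _ ≤ ENNReal.ofReal |c⁻¹| * (ENNReal.ofReal (L + 2) * I) := by gcongr
    _ = ENNReal.ofReal (b - a + 2 / |c|) * I := by
        rw [← mul_assoc, ← ENNReal.ofReal_mul (abs_nonneg _)]
        congr 2
        have hc' : |c| ≠ 0 := abs_ne_zero.2 hc
        rw [hL, abs_inv]
        field_simp

end Pool.Agent.Helper92.HRT
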